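import Pool.Agent.Lib.MP_3c9215_al.B.Spec

set_option autoImplicit false

/-!
# MP_3c9215_al, part B: perpendicular bisectors
-/

namespace Pool.Agent.KleinB

open Pool.Agent.Klein (D sqr comp)

private lemma bis_conj {G : Type} [Group G] {χ : G →* C2} {m j l₁ : G} (hm : IsP χ m) :
    IsConj (l₁ * (m * j * m)) (j * (m * l₁ * m)) := by
  have h1 : IsConj (l₁ * (m * j * m)) (m * (l₁ * (m * j * m)) * m) := isConj_pconj hm
  have e : m * (l₁ * (m * j * m)) * m = (m * l₁ * m) * j := by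
    calc m * (l₁ * (m * j * m)) * m = (m * l₁ * m) * j * (m * m) := by group
      _ = (m * l₁ * m) * j := by rw [hm.1, mul_one]
  rw [e] at h1
  exact h1.trans (isConj_mul_comm _ _)

theorem tBis (hStepA : S_StepA) : S_Bis := by
  intro G _ χ h p l j j' hp hl hl1 hj hj' hc l₁ hl₁
  obtain ⟨m, hm, hmj⟩ := pts_conj h.toBG hj hj'
  subst hmj
  by_cases hml : m * l = l * m
  · have hlm : l ∈ Ck χ m := ⟨hl.1, hml.symm⟩
    have hpm : m = p := h.nd m p l hm hp hlm hl hl1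
    subst hpm
    have e : m * l₁ * m = l₁ := by
      rw [← hl₁.2, mul_assoc, hm.1, mul_one]
    have h1 := bis_conj (l₁ := l₁) (j := j) hm
    rw [e] at h1
    exact (isConj_mul_comm l₁ j).trans h1.symm
  · have hAx : Ax χ l := ⟨hl.1, hl1, p, hp, Or.inl hl.2⟩
    obtain ⟨_, _, hA⟩ := hStepA G χ h l m hAx hm hml
    have hlk : ∀ l₂ ∈ Ck χ p, l₂ ∈ Ck χ l := fun l₂ hl₂ =>
      ⟨hl₂.1, Ck_comm h.toBG hp hl₂ hl⟩
    by_cases h1 : l₁ = 1
    · subst h1
      rw [one_mul, one_mul]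
      exact isConj_pconj hm
    · have hAl := (hA l (hlk l hl) hl1).2.2.2.2.2.2.2 j hj
      have hAl₁ := (hA l₁ (hlk l₁ hl₁) h1).2.2.2.2.2.2.2 j hj
      have h2 : IsConj (j * l) (j * (m * l * m)) :=
        (isConj_mul_comm j l).trans (hc.trans (bis_conj hm))
      have h3 := hAl₁.2 (hAl.1 h2)
      exact (isConj_mul_comm l₁ j).trans (h3.trans (bis_conj hm).symm)

end Pool.Agent.KleinB
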