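import Pool.Agent.Lib.MP_3c9215_al.B.Spec

set_option autoImplicit false

/-!
# MP_3c9215_al, part B, module COR
-/

namespace Pool.Agent.KleinB

open Pool.Agent.Klein (D sqr comp)

theorem tCOR (hGPp : S_GPp) : S_COR := by
  intro G _ χ h w b b' hw hb hb'
  have h1 := hGPp G χ h w b⁻¹ b' hw (chi_inv_one hb) hb'
  have h2 : χ (b⁻¹⁻¹ * b') = 1 := chi_mul_one (by rwa [inv_inv]) hb'
  have h3 : (w * b⁻¹)⁻¹ = b * w := by rw [mul_inv_rev, inv_inv, hw.inv_eq]
  rw [hs_symm h h2, h3] at h1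
  rw [h1]
  exact ⟨fun e => (isConj_mul_comm b w).trans e, fun e => (isConj_mul_comm w b).trans e⟩

end Pool.Agent.KleinB
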