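import Pool.Agent.Lib.MP_3c9215_al.B.Spec

set_option autoImplicit false

/-!
# MP_3c9215_al, part B: the module `Cent`
-/

namespace Pool.Agent.KleinB

open Pool.Agent.Klein (D sqr comp sqr_comm sqr_conj sqr_inv sqr_inverted D_sq D_comm D_comm_of_comm
  D_conj D_inv D_comm_of_inverts comp_conj)

section cent

variable {G : Type} [Group G] {χ : G →* C2}

private lemma cent_one (h : NG χ) {x f : G} (hx : IsP χ x) (hf : f ∈ Ck χ x) (hf1 : f ≠ 1) :
    Ck χ f ≤ Ck χ x := by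
  intro n hn
  have e1 : n * f * n⁻¹ = f := by rw [hn.2]; group
  have h1 : f ∈ Ck χ (n * x * n⁻¹) := by
    have := Ck_conj hf n
    rwa [e1] at this
  have h2 : x = n * x * n⁻¹ := h.nd x (n * x * n⁻¹) f hx (hx.conj n) hf h1 hf1
  refine ⟨hn.1, ?_⟩
  calc n * x = (n * x * n⁻¹) * n := by group
    _ = x * n := by rw [← h2]

private lemma cent_mem_symm {a b : G} (ha : χ a = 1) (hb : b ∈ Ck χ a) : a ∈ Ck χ b :=
  ⟨ha, hb.2.symm⟩

private lemma cent_two (h : NG χ) {x u n : G} (hx : IsP χ x) (hu : χ u = 1) (hu1 : u ≠ 1)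
    (hxu : Iv x u) (hn : n ∈ Ck χ u) : Iv x n := by
  have hB : BG χ := h.toBG
  -- `x n⁻¹ x` commutes with `u`
  have hxu' : x * u * x = u⁻¹ := (iv_def hx).1 hxu
  have hnu : n⁻¹ * u = u * n⁻¹ := by
    calc n⁻¹ * u = n⁻¹ * (u * n) * n⁻¹ := by group
      _ = n⁻¹ * (n * u) * n⁻¹ := by rw [hn.2]
      _ = u * n⁻¹ := by group
  have h1 : (x * n⁻¹ * x) * u⁻¹ = u⁻¹ * (x * n⁻¹ * x) := by
    calc (x * n⁻¹ * x) * u⁻¹ = (x * n⁻¹ * x) * (x * u * x) := by rw [hxu']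
      _ = x * n⁻¹ * (x * x) * u * x := by group
      _ = x * (n⁻¹ * u) * x := by rw [hx.1]; group
      _ = x * (u * n⁻¹) * x := by rw [hnu]
      _ = x * u * (x * x) * n⁻¹ * x := by rw [hx.1]; group
      _ = (x * u * x) * (x * n⁻¹ * x) := by group
      _ = u⁻¹ * (x * n⁻¹ * x) := by rw [hxu']
  have h2 : (x * n⁻¹ * x) * u = u * (x * n⁻¹ * x) := by
    calc (x * n⁻¹ * x) * u = u * (u⁻¹ * (x * n⁻¹ * x)) * u := by group
      _ = u * ((x * n⁻¹ * x) * u⁻¹) * u := by rw [h1]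
      _ = u * (x * n⁻¹ * x) := by group
  have h3 : (x * (n⁻¹ * x * n)) * u = u * (x * (n⁻¹ * x * n)) := by
    calc (x * (n⁻¹ * x * n)) * u = (x * n⁻¹ * x) * (n * u) := by group
      _ = (x * n⁻¹ * x) * (u * n) := by rw [hn.2]
      _ = ((x * n⁻¹ * x) * u) * n := by group
      _ = (u * (x * n⁻¹ * x)) * n := by rw [h2]
      _ = u * (x * (n⁻¹ * x * n)) := by group
  have h4 : sqr (x * (n⁻¹ * x * n)) * u = u * sqr (x * (n⁻¹ * x * n)) := sqr_comm h3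
  have hc : comp x n = n * (sqr (x * (n⁻¹ * x * n)))⁻¹ := rfl
  have h5 : comp x n * u = u * comp x n := by
    rw [hc]
    set i := sqr (x * (n⁻¹ * x * n)) with hi
    have h6 : i⁻¹ * u = u * i⁻¹ := by
      calc i⁻¹ * u = i⁻¹ * (u * i) * i⁻¹ := by group
        _ = i⁻¹ * (i * u) * i⁻¹ := by rw [h4]
        _ = u * i⁻¹ := by group
    calc n * i⁻¹ * u = n * (i⁻¹ * u) := by group
      _ = (n * u) * i⁻¹ := by rw [h6]; group
      _ = u * (n * i⁻¹) := by rw [hn.2]; group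
  by_cases h6 : comp x n = 1
  · exact iv_of_comp_one hB hx hn.1 h6
  · exfalso
    have h7 : u ∈ Ck χ (comp x n) := ⟨hu, h5.symm⟩
    have h8 := cent_one h hx (comp_mem hB hx hn.1) h6 h7
    exact hu1 (iv_comm_one hB hu hxu h8.2)

/-- two elements inverted, with inverted product, commute -/
private lemma cent_comm_of_iv {p m n : G} (hm : Iv p m) (hn : Iv p n) (hmn : Iv p (m * n)) :
    m * n = n * m := by
  unfold Iv at *
  have e1 : p * (m * n) * p⁻¹ = m⁻¹ * n⁻¹ := by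
    calc p * (m * n) * p⁻¹ = (p * m * p⁻¹) * (p * n * p⁻¹) := by group
      _ = m⁻¹ * n⁻¹ := by rw [hm, hn]
  have e2 : (m * n)⁻¹ = (n * m)⁻¹ := by
    rw [← hmn, e1]; group
  exact inv_injective e2

private lemma cent_comm (h : NG χ) {b : G} (hb : Ax χ b) :
    ∀ m ∈ Ck χ b, ∀ n ∈ Ck χ b, m * n = n * m := by
  obtain ⟨hb1, hb2, p, hp, hbp⟩ := hb
  intro m hm n hn
  rcases hbp with hbp | hbp
  · have hbm : b ∈ Ck χ p := ⟨hb1, hbp⟩
    exact Ck_comm h.toBG hp (cent_one h hp hbm hb2 hm) (cent_one h hp hbm hb2 hn)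
  · exact cent_comm_of_iv (cent_two h hp hb1 hb2 hbp hm) (cent_two h hp hb1 hb2 hbp hn)
      (cent_two h hp hb1 hb2 hbp ((Ck χ b).mul_mem hm hn))

private lemma cent_ax (h : NG χ) {b b' : G} (hb : Ax χ b) (hb' : b' ∈ Ck χ b) (hb1' : b' ≠ 1) :
    Ax χ b' := by
  obtain ⟨hb1, hb2, p, hp, hbp⟩ := hb
  refine ⟨hb'.1, hb1', p, hp, ?_⟩
  rcases hbp with hbp | hbp
  · exact Or.inl (cent_one h hp ⟨hb1, hbp⟩ hb2 hb').2
  · exact Or.inr (cent_two h hp hb1 hb2 hbp hb')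

private lemma cent_le (h : NG χ) {b b' : G} (hb : Ax χ b) (hb' : b' ∈ Ck χ b) :
    Ck χ b ≤ Ck χ b' := fun m hm => ⟨hm.1, cent_comm h hb m hm b' hb'⟩

end cent

theorem tCent : S_Cent := by
  intro G _ χ h
  refine ⟨fun x f hx hf hf1 => cent_one h hx hf hf1, fun x u n hx hu hu1 hxu hn =>
    cent_two h hx hu hu1 hxu hn, fun b hb => ⟨cent_comm h hb, fun b' hb' hb1' => ?_⟩, ?_⟩
  · have h1 := cent_ax h hb hb' hb1'
    exact ⟨h1, le_antisymm (cent_le h h1 (cent_mem_symm hb.1 hb')) (cent_le h hb hb')⟩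
  · intro b w b' hb hw hwb hb'
    have h1 : b ∈ Ck χ w := ⟨hb.1, hwb.symm⟩
    exact (cent_one h hw h1 hb.2.1 hb').2.symm

end Pool.Agent.KleinB
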