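import Pool.Agent.Lib.MP_3c9215_al.B.Spec

/-!
# MP_3c9215_al, part B: the maps `w ↦ D (w a)` on points (`S_Coll`)
-/

set_option autoImplicit false

namespace Pool.Agent.KleinB

open Pool.Agent.Klein (D sqr comp)

/-- the element `ε` with `w a = D (w a) ε` is determined by `D (w a)` and `a` -/
lemma coll_eps {G : Type} [Group G] {χ : G →* C2} (h : BG χ) {a w : G} (ha : χ a = 1) (hw : IsP χ w) :
    w * a = D (w * a) * (comp (D (w * a)) a⁻¹)⁻¹ := by
  have hwa : χ (w * a) ≠ 1 := chi_mul_ker hw.2 ha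
  have hu : IsP χ (D (w * a)) := D_isP h hwa
  obtain ⟨ε, hε, e, _⟩ := D_factor h hwa
  have hai : χ a⁻¹ = 1 := chi_inv_one ha
  have h1 : w = D (w * a) * (ε * a⁻¹) := by
    calc w = (w * a) * a⁻¹ := by group
      _ = (D (w * a) * ε) * a⁻¹ := by rw [← e]
      _ = D (w * a) * (ε * a⁻¹) := by group
  have h2 : IsP χ (D (w * a) * (ε * a⁻¹)) := by rw [← h1]; exact hw
  have h3 : Iv (D (w * a)) (ε * a⁻¹) := (iv_iff_isP hu (chi_mul_one hε.1 hai)).2 h2
  have h4 : comp (D (w * a)) a⁻¹ = ε⁻¹ := by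
    apply comp_unique' h hu hai ((Ck χ _).inv_mem hε)
    rw [inv_inv]; exact h3
  rw [h4, inv_inv]
  exact e

theorem tColl (hL1 : S_L1) (hCOR : S_COR) : S_Coll := by
  intro G _ χ h a ha
  refine ⟨?_, ?_, ?_, ?_⟩
  · intro f w hf hw
    have h1 := hL1 G χ h (w * a) f (chi_mul_ker hw.2 ha) hf
    have h2 := hCOR G χ h w (a * f⁻¹) (a * f) hw (chi_mul_one ha (chi_inv_one hf)) (chi_mul_one ha hf)
    have e1 : (a * f⁻¹)⁻¹ = f * a⁻¹ := by group
    rw [e1] at h2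
    rw [← h1, ← h2, mul_assoc, mul_assoc]
    exact ⟨fun hc => hc.symm, fun hc => hc.symm⟩
  · intro u hu
    have hai : χ a⁻¹ = 1 := chi_inv_one ha
    obtain ⟨s1, s2, s3⟩ := comp_spec h hu hai
    refine ⟨u * ((comp u a⁻¹)⁻¹ * a⁻¹), (iv_iff_isP hu s2).1 s3, ?_⟩
    have e : u * ((comp u a⁻¹)⁻¹ * a⁻¹) * a = u * (comp u a⁻¹)⁻¹ := by group
    rw [e]
    exact D_eq h hu ((Ck χ u).inv_mem s1)
  · intro w w' hw hw' hD
    have e1 := coll_eps h ha hw
    have e2 := coll_eps h ha hw'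
    rw [hD, ← e2] at e1
    exact mul_right_cancel e1
  · intro f hf hf1 hs1
    have h1 := (hs_eq_one h (chi_mul_one ha hf) (chi_mul_one hf (chi_inv_one ha))).1 hs1
    rw [mul_inv_rev] at h1
    have h2 : f = f⁻¹ := mul_right_cancel h1
    apply hf1
    apply ker_eq_one_of_sq h hf
    nth_rewrite 2 [h2]
    exact mul_inv_cancel f

end Pool.Agent.KleinB
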