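import Pool.Agent.Lib.MP_3c9215_al.B.Spec

set_option autoImplicit false

/-!
# MP_3c9215_al, part B: the remaining case
-/

namespace Pool.Agent.KleinB

open Pool.Agent.Klein (D sqr comp)

section
variable {G : Type} [Group G] {χ : G →* C2}

/-- the hypothesis of the remaining case -/
def end_Hyp (χ : G →* C2) : Prop := ∀ c u a : G, IsP χ c → χ u = 1 → Iv c u → a ∈ Ck χ c →
    (a⁻¹ * u * a) * u = u * (a⁻¹ * u * a)

lemma end_chi_conj' {g x : G} (hx : χ x = 1) : χ (g⁻¹ * x * g) = 1 := by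
  rw [chi_conj']; exact hx

/-- Step 1 -/
lemma end_step1 (hCent : S_Cent) (h : NG χ) (hyp : end_Hyp χ) {c α y : G} (hc : IsP χ c)
    (hα : α ∈ Ck χ c) (hy : χ y = 1) : comp c (y⁻¹ * α * y) = α := by
  obtain ⟨hC1, hC2, hC3, hC4⟩ := hCent G χ h
  have hq : IsP χ (y⁻¹ * c * y) := hc.conj' y
  obtain ⟨m, hm, him, -, hmc, -⟩ := pts_conj_ker h.toBG hc hq
  have hd : (y * m⁻¹) * c = c * (y * m⁻¹) := by
    calc (y * m⁻¹) * c = y * (m⁻¹ * c * m) * m⁻¹ := by group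
      _ = y * (y⁻¹ * c * y) * m⁻¹ := by rw [hmc]
      _ = c * (y * m⁻¹) := by group
  have hdα : (y * m⁻¹) * α = α * (y * m⁻¹) := comm_Ck h.toBG hc hd hα
  have e1 : y⁻¹ * α * y = α * (α⁻¹ * m⁻¹ * α * m) := by
    calc y⁻¹ * α * y = m⁻¹ * ((y * m⁻¹)⁻¹ * (α * (y * m⁻¹))) * m := by group
      _ = m⁻¹ * ((y * m⁻¹)⁻¹ * ((y * m⁻¹) * α)) * m := by rw [hdα]
      _ = α * (α⁻¹ * m⁻¹ * α * m) := by group
  rw [e1]
  have hg : χ (α⁻¹ * m⁻¹ * α * m) = 1 :=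
    chi_mul_one (end_chi_conj' (chi_inv_one hm)) hm
  apply comp_unique h.toBG hc hα hg
  by_cases hm1 : m = 1
  · subst hm1
    have e : α⁻¹ * (1 : G)⁻¹ * α * 1 = 1 := by group
    rw [e]; exact iv_one c
  · have h1 := hyp c m α hc hm him hα
    have h2 : (α⁻¹ * m⁻¹ * α * m) * m = m * (α⁻¹ * m⁻¹ * α * m) := by
      have h3 : (α⁻¹ * m⁻¹ * α) * m = m * (α⁻¹ * m⁻¹ * α) := by
        calc (α⁻¹ * m⁻¹ * α) * m
            = (α⁻¹ * m * α)⁻¹ * (m * (α⁻¹ * m * α)) * (α⁻¹ * m * α)⁻¹ := by group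
          _ = (α⁻¹ * m * α)⁻¹ * ((α⁻¹ * m * α) * m) * (α⁻¹ * m * α)⁻¹ := by rw [h1]
          _ = m * (α⁻¹ * m⁻¹ * α) := by group
      rw [h3]
      calc m * (α⁻¹ * m⁻¹ * α) * m = m * ((α⁻¹ * m⁻¹ * α) * m) := by group
        _ = m * (m * (α⁻¹ * m⁻¹ * α)) := by rw [h3]
    exact hC2 c m _ hc hm hm1 him ⟨hg, h2⟩

/-- nontrivial elements inverted by `c` do not commute with `α` -/
lemma end_nc (hCent : S_Cent) (h : NG χ) {c α w : G} (hc : IsP χ c)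
    (hα : α ∈ Ck χ c) (hα1 : α ≠ 1) (hw : χ w = 1) (hw1 : w ≠ 1) (hi : Iv c w) :
    w * α ≠ α * w := by
  obtain ⟨hC1, hC2, hC3, hC4⟩ := hCent G χ h
  intro e
  have h1 : w ∈ Ck χ α := ⟨hw, e⟩
  have h2 := hC1 c α hc hα hα1 h1
  exact hw1 (iv_comm_one h.toBG hw hi h2.2)

/-- Step 2 -/
lemma end_step2 (hCent : S_Cent) (h : NG χ) (hyp : end_Hyp χ) {c u v : G} (hc : IsP χ c)
    (hu : χ u = 1) (hu1 : u ≠ 1) (hcu : Iv c u) (hv : χ v = 1) (hv1 : v ≠ 1) (hcv : Iv c v) :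
    v * u = u * v := by
  obtain ⟨hC1, hC2, hC3, hC4⟩ := hCent G χ h
  obtain ⟨α, hα, hα1⟩ := h.nt c hc
  obtain ⟨u', hu'⟩ : ∃ u', u' = α⁻¹ * u⁻¹ * α * u := ⟨_, rfl⟩
  obtain ⟨v', hv'⟩ : ∃ v', v' = α⁻¹ * v⁻¹ * α * v := ⟨_, rfl⟩
  have aux : ∀ w : G, χ w = 1 → Iv c w → (α⁻¹ * w⁻¹ * α) * w = w * (α⁻¹ * w⁻¹ * α) := by
    intro w hw hcw
    have h1 := hyp c w α hc hw hcw hα
    calc (α⁻¹ * w⁻¹ * α) * w
        = (α⁻¹ * w * α)⁻¹ * (w * (α⁻¹ * w * α)) * (α⁻¹ * w * α)⁻¹ := by group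
      _ = (α⁻¹ * w * α)⁻¹ * ((α⁻¹ * w * α) * w) * (α⁻¹ * w * α)⁻¹ := by rw [h1]
      _ = w * (α⁻¹ * w⁻¹ * α) := by group
  have hu'k : u' ∈ Ck χ u := by
    refine ⟨by rw [hu']; exact chi_mul_one (end_chi_conj' (chi_inv_one hu)) hu, ?_⟩
    rw [hu']
    have h3 := aux u hu hcu
    rw [h3]
    calc u * (α⁻¹ * u⁻¹ * α) * u = u * ((α⁻¹ * u⁻¹ * α) * u) := by group
      _ = u * (u * (α⁻¹ * u⁻¹ * α)) := by rw [h3]
  have hv'k : v' ∈ Ck χ v := by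
    refine ⟨by rw [hv']; exact chi_mul_one (end_chi_conj' (chi_inv_one hv)) hv, ?_⟩
    rw [hv']
    have h3 := aux v hv hcv
    rw [h3]
    calc v * (α⁻¹ * v⁻¹ * α) * v = v * ((α⁻¹ * v⁻¹ * α) * v) := by group
      _ = v * (v * (α⁻¹ * v⁻¹ * α)) := by rw [h3]
  have hcu' : Iv c u' := hC2 c u u' hc hu hu1 hcu hu'k
  have hcv' : Iv c v' := hC2 c v v' hc hv hv1 hcv hv'k
  have e1 : (u * v)⁻¹ * α * (u * v) = α * (v' * v⁻¹ * u' * v) := by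
    rw [hu', hv']; group
  have hX : χ (v' * v⁻¹ * u' * v) = 1 :=
    chi_mul_one (chi_mul_one (chi_mul_one hv'k.1 (chi_inv_one hv)) hu'k.1) hv
  have e2 := end_step1 hCent h hyp hc hα (chi_mul_one hu hv)
  rw [e1, comp_mul_left h.toBG hc hα hX] at e2
  have e3 : comp c (v' * v⁻¹ * u' * v) = 1 := by
    have := congrArg (fun t => α⁻¹ * t) e2
    simpa using this
  have e4 : Iv c (v' * v⁻¹ * u' * v) := iv_of_comp_one h.toBG hc hX e3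
  -- the equation
  have e5 : v * u' * v⁻¹ * v' = v' * v⁻¹ * u' * v := by
    unfold Iv at e4 hcu' hcv' hcv
    have hcvi : c * v⁻¹ * c⁻¹ = v := by
      calc c * v⁻¹ * c⁻¹ = (c * v * c⁻¹)⁻¹ := by group
        _ = v := by rw [hcv, inv_inv]
    have e6 : c * (v' * v⁻¹ * u' * v) * c⁻¹ = v'⁻¹ * v * u'⁻¹ * v⁻¹ := by
      calc c * (v' * v⁻¹ * u' * v) * c⁻¹
          = (c * v' * c⁻¹) * (c * v⁻¹ * c⁻¹) * (c * u' * c⁻¹) * (c * v * c⁻¹) := by group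
        _ = v'⁻¹ * v * u'⁻¹ * v⁻¹ := by rw [hcv', hcvi, hcu', hcv]
    rw [e6] at e4
    calc v * u' * v⁻¹ * v' = (v'⁻¹ * v * u'⁻¹ * v⁻¹)⁻¹ := by group
      _ = ((v' * v⁻¹ * u' * v)⁻¹)⁻¹ := by rw [e4]
      _ = v' * v⁻¹ * u' * v := by rw [inv_inv]
  obtain ⟨k, hk⟩ : ∃ k, k = (α⁻¹ * v⁻¹ * α) * v⁻¹ := ⟨_, rfl⟩
  have hvv' : v⁻¹ * v' = α⁻¹ * v⁻¹ * α := by
    have h3 := aux v hv hcv
    rw [hv', h3]; group
  have hv'v : v' * v⁻¹ = α⁻¹ * v⁻¹ * α := by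
    rw [hv']; group
  have e7 : k * u' = u' * k := by
    have h1 : k * u' = v⁻¹ * (v' * v⁻¹ * u' * v) * v⁻¹ := by
      calc k * u' = (v⁻¹ * v') * v⁻¹ * u' := by rw [hk, hvv']
        _ = v⁻¹ * (v' * v⁻¹ * u' * v) * v⁻¹ := by group
    have h2 : u' * k = v⁻¹ * (v * u' * v⁻¹ * v') * v⁻¹ := by
      calc u' * k = u' * ((v⁻¹ * v') * v⁻¹) := by rw [hk, hvv']
        _ = v⁻¹ * (v * u' * v⁻¹ * v') * v⁻¹ := by group
    rw [h1, h2, e5]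
  have hkχ : χ k = 1 := by
    rw [hk]; exact chi_mul_one (end_chi_conj' (chi_inv_one hv)) (chi_inv_one hv)
  have hkv : k ∈ Ck χ v := by
    refine ⟨hkχ, ?_⟩
    have h3 := aux v hv hcv
    rw [hk]
    calc (α⁻¹ * v⁻¹ * α) * v⁻¹ * v = α⁻¹ * v⁻¹ * α * v * v⁻¹ := by group
      _ = v * (α⁻¹ * v⁻¹ * α) * v⁻¹ := by rw [h3]
      _ = v * (α⁻¹ * v⁻¹ * α * v⁻¹) := by group
  have hk1 : k ≠ 1 := by
    intro e
    rw [hk] at e
    have h1 : α⁻¹ * v⁻¹ * α = v := by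
      calc α⁻¹ * v⁻¹ * α = (α⁻¹ * v⁻¹ * α * v⁻¹) * v := by group
        _ = v := by rw [e, one_mul]
    have h2 : v * (α * α) = (α * α) * v := by
      have h3 : α⁻¹ * v * α = v⁻¹ := by
        calc α⁻¹ * v * α = (α⁻¹ * v⁻¹ * α)⁻¹ := by group
          _ = v⁻¹ := by rw [h1]
      have h4 : v⁻¹ * (α * α) = (α * α) * v⁻¹ := by
        calc v⁻¹ * (α * α) = α * (α⁻¹ * v⁻¹ * α) * α := by group
          _ = α * v * α := by rw [h1]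
          _ = α * α * (α⁻¹ * v * α) := by group
          _ = (α * α) * v⁻¹ := by rw [h3]
      calc v * (α * α) = v * ((α * α) * v⁻¹) * v := by group
        _ = v * (v⁻¹ * (α * α)) * v := by rw [h4]
        _ = (α * α) * v := by group
    exact end_nc hCent h hc hα hα1 hv hv1 hcv (comm_of_comm_sq h.toBG hα.1 h2)
  have hu'1 : u' ≠ 1 := by
    intro e
    rw [hu'] at e
    have h1 : u * α = α * u := by
      calc u * α = u * α * 1 := by group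
        _ = u * α * (α⁻¹ * u⁻¹ * α * u) := by rw [e]
        _ = α * u := by group
    exact end_nc hCent h hc hα hα1 hu hu1 hcu h1
  have Au : Ax χ u := ⟨hu, hu1, c, hc, Or.inr hcu⟩
  have Av : Ax χ v := ⟨hv, hv1, c, hc, Or.inr hcv⟩
  obtain ⟨Au', E1⟩ := (hC3 u Au).2 u' hu'k hu'1
  obtain ⟨Ak, E2⟩ := (hC3 v Av).2 k hkv hk1
  obtain ⟨-, E3⟩ := (hC3 u' Au').2 k ⟨hkχ, e7⟩ hk1
  have hvv : v ∈ Ck χ v := ⟨hv, rfl⟩
  have : v ∈ Ck χ u := by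
    rw [← E1, ← E3, E2]; exact hvv
  exact this.2

end

theorem tEnd (hCent : S_Cent) : S_End := by
  intro G _ χ h hex hyp
  obtain ⟨c, u, hc, hu, hu1, hcu⟩ := hex
  apply hu1
  apply h.sep u hu
  intro w hw
  have ht : χ (c * w) = 1 := chi_mul_pts hc.2 hw.2
  have hw' : w = c * (c * w) := by rw [← mul_assoc, hc.1, one_mul]
  by_cases ht1 : c * w = 1
  · have : w = c := by
      calc w = c * (c * w) := hw'
        _ = c := by rw [ht1, mul_one]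
    rw [this]; exact hcu
  · have h1 := end_step2 hCent h hyp hc hu hu1 hcu ht ht1 (iv_self_mul hc hw)
    rw [hw']
    exact Iv.mul_comm hcu h1

end Pool.Agent.KleinB
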