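import Pool.Agent.Lib.MP_3c9215_al.B.Spec

set_option autoImplicit false

/-!
# MP_3c9215_al, part B: equality of components along a line
-/

namespace Pool.Agent.KleinB

open Pool.Agent.Klein (D comp)

/-- If `D (j b⁻¹) = q` then `comp q b = comp q b'` iff `j` inverts `b⁻¹ b'`. -/
theorem eqe_claim {G : Type} [Group G] {χ : G →* C2} (h : BG χ) {b b' j q : G} (hb : χ b = 1)
    (hb' : χ b' = 1) (hj : IsP χ j) (hq : IsP χ q) (e : D (j * b⁻¹) = q) :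
    comp q b = comp q b' ↔ Iv j (b⁻¹ * b') := by
  have hjb : χ (j * b⁻¹) ≠ 1 := chi_mul_ker hj.2 (chi_inv_one hb)
  have hu : χ (b⁻¹ * b') = 1 := chi_mul_one (chi_inv_one hb) hb'
  obtain ⟨ε, hε, e1, e2⟩ := D_factor h hjb
  rw [e] at hε e1 e2
  have hεi : ε⁻¹ ∈ Ck χ q := (Ck χ q).inv_mem hε
  have hqj : χ (q * j) = 1 := chi_mul_pts hq.2 hj.2
  have hεb : ε * b = q * j := by
    calc ε * b = q * (q * ε) * b := by rw [← mul_assoc, hq.1, one_mul]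
      _ = q * (j * b⁻¹) * b := by rw [e1]
      _ = q * j := by group
  have e3 : b = ε⁻¹ * (q * j) := by rw [← hεb]; group
  have hcb : comp q b = ε⁻¹ := by
    conv_lhs => rw [e3]
    exact comp_unique h hq hεi hqj (iv_self_mul hq hj)
  have e4 : ε * b' = q * (j * (b⁻¹ * b')) := by
    calc ε * b' = (ε * b) * (b⁻¹ * b') := by group
      _ = q * (j * (b⁻¹ * b')) := by rw [hεb]; group
  have e5 : q * (q * (j * (b⁻¹ * b'))) = j * (b⁻¹ * b') := by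
    rw [← mul_assoc q q, hq.1, one_mul]
  have hker : χ (q * (j * (b⁻¹ * b'))) = 1 := by
    rw [← mul_assoc]
    exact chi_mul_one hqj hu
  rw [hcb]
  constructor
  · intro h1
    have h2 := (comp_spec h hq hb').2.2
    rw [← h1, inv_inv, e4] at h2
    have h3 := (iv_iff_isP hq hker).1 h2
    rw [e5] at h3
    exact (iv_iff_isP hj hu).2 h3
  · intro h1
    have h2 := (iv_iff_isP hj hu).1 h1
    symm
    apply comp_unique' h hq hb' hεi
    rw [inv_inv, e4]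
    apply (iv_iff_isP hq hker).2
    rw [e5]
    exact h2

theorem tEqE (hColl : S_Coll) (hLineU : S_LineU) : S_EqE := by
  intro G _ χ h b b' z r v p hb hb' hbb hz hr hzr ez er hv hv1 hzv hrv hp hpv
  obtain ⟨c1, c2, c3, c4⟩ := hColl G χ h.toBG b⁻¹ (chi_inv_one hb)
  obtain ⟨jz, hjz, ejz⟩ := c2 z hz
  obtain ⟨jr, hjr, ejr⟩ := c2 r hr
  obtain ⟨jp, hjp, ejp⟩ := c2 p hp
  have hne : jz ≠ jr := by
    intro e
    apply hzr
    rw [← ejz, ← ejr, e]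
  have hu : χ (b⁻¹ * b') = 1 := chi_mul_one (chi_inv_one hb) hb'
  have hu1 : b⁻¹ * b' ≠ 1 := by
    intro e
    exact hbb (inv_mul_eq_one.1 e)
  have hv' : χ (hs (b⁻¹ * v) (v * b⁻¹⁻¹)) = 1 := by
    refine hs_chi' (chi_mul_one (chi_inv_one hb) hv) (chi_mul_one hv ?_)
    rw [inv_inv]
    exact hb
  have hz' : Iv jz (hs (b⁻¹ * v) (v * b⁻¹⁻¹)) := (c1 v jz hv hjz).1 (by rw [ejz]; exact hzv)
  have hr' : Iv jr (hs (b⁻¹ * v) (v * b⁻¹⁻¹)) := (c1 v jr hv hjr).1 (by rw [ejr]; exact hrv)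
  have hp' : Iv jp (hs (b⁻¹ * v) (v * b⁻¹⁻¹)) := (c1 v jp hv hjp).1 (by rw [ejp]; exact hpv)
  have hzu : Iv jz (b⁻¹ * b') := (eqe_claim h.toBG hb hb' hjz hz ejz).1 ez
  have hru : Iv jr (b⁻¹ * b') := (eqe_claim h.toBG hb hb' hjr hr ejr).1 er
  have hpu : Iv jp (b⁻¹ * b') := hLineU G χ h jz jr jp _ _ hjz hjr hjp hne hv' hu (c4 v hv hv1)
    hu1 hz' hr' hzu hru hp'
  exact (eqe_claim h.toBG hb hb' hjp hp ejp).2 hpu

end Pool.Agent.KleinB
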