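import Pool.Agent.Lib.MP_3c9215_al.B.Basic

set_option autoImplicit false

/-!
# MP_3c9215_al, part B: an involutory automorphism with abelian centralizer (statements and proofs in words)

THEOREM B.  A periodic group without involutions which has an involutory automorphism with commutative
centralizer is locally finite.

Notation (see `B/Basic.lean`): `χ : G →* C2`, `BG χ`; points = involutions outside `ker χ`; `Ck χ x` =
centralizer of `x` in `ker χ`; `Iv w n` = `w` inverts `n`; `D g` = the point commuting with `g`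
(`χ g ≠ 1`); `comp x g ∈ Ck χ x` with `(comp x g)⁻¹ g` inverted by `x`; `X # Y = hs X Y`, the unique `Z`
with `Z X⁻¹ Z = Y`, `X⁻¹ Z ∈ ker χ`; `g ~ g'` means `IsConj g g'`.  For a point `z` we write `b^z = z b z`.
`Line u` (only in words) is the set of points inverting `u`, for `1 ≠ u ∈ ker χ`.
Model to keep in mind: `ker χ ≤ SL₂(K)`, points = trace-zero elements, `X # Y` = normalized `X + Y`,
`w` inverts `u` iff the trace of `w u` is `0`, and the conjugacy class of `g` (`χ g ≠ 1`) = the trace of `g`.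
-/

namespace Pool.Agent.KleinB

open Pool.Agent.Klein (D sqr comp)

/-- the operators `T` -/
noncomputable def TB {G : Type} [Group G] (x y f : G) : G := comp x (y⁻¹ * f * y)

/-- **GP.** (1) If `g` is outside the kernel and `g' ~ g` then some POINT `m` conjugates `g` to `g'`.
(2) If moreover `D g = D g'` then `g = g'`.
Proof. `g' = k g k⁻¹`, `D g' = k D(g) k⁻¹` (`D_conj`). Take the point `m` with `m (D g) m = D g'`
(`pts_conj`, `D_isP`). `c := m k` commutes with `D g` (`m = m⁻¹`: `c (D g) c⁻¹ = m (D g') m = D g`, since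
`m (D g') m = m m (D g) m m = D g`). `g = (D g) ε`, `ε ∈ Ck (D g)` (`D_factor`), and `c` commutes with `D g`
and with `ε` (`comm_Ck`), so with `g`; `k = m c` (`m m = 1`), `g' = m c g c⁻¹ m = m g m`.
(2) `m` commutes with `D g`, so `m = D g` (`pts_eq_of_comm`), which commutes with `g` (`D_comm`). -/
def S_GP : Prop := ∀ (G : Type) [Group G] (χ : G →* C2), BG χ → ∀ g g' : G, χ g ≠ 1 → IsConj g g' →
  (∃ m, IsP χ m ∧ m * g * m = g') ∧ (D g = D g' → g = g')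

/-- **GPp.** For a point `w` and `X, Y` in the kernel: `w` inverts `X # Y` iff `(w X)⁻¹ ~ w Y`.
Proof (uses `S_GP`). `Z := X # Y`, `Z X⁻¹ Z = Y` (`hs_spec`). If `w` inverts `Z` then `z := w Z` is a point
(`iv_iff_isP`), `Z = w z` (`w w = 1`), and `w Y = w w z X⁻¹ w z = z (X⁻¹ w) z = z (w X)⁻¹ z` (`w⁻¹ = w`).
Conversely GP (1) gives a point `z` with `z (w X)⁻¹ z = w Y` (`χ (w X)⁻¹ ≠ 1`). `Z := w z` is in the kernel,
`Z X⁻¹ Z = w z X⁻¹ w z = w (w Y) = Y`, so `Z = X # Y` (`hs_unique`), and `w Z = z` is a point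
(`iv_iff_isP`). -/
def S_GPp : Prop := ∀ (G : Type) [Group G] (χ : G →* C2), BG χ → ∀ w X Y : G, IsP χ w → χ X = 1 →
  χ Y = 1 → (Iv w (hs X Y) ↔ IsConj (w * X)⁻¹ (w * Y))

/-- **COR.** For a point `w` and `b, b'` in the kernel: `w b ~ w b'` iff `w` inverts `b' # b⁻¹`.
Proof (uses `S_GPp` with `X = b⁻¹`, `Y = b'`, and `hs_symm`). `(w b⁻¹)⁻¹ = b w ~ w b` (`isConj_mul_comm`). -/
def S_COR : Prop := ∀ (G : Type) [Group G] (χ : G →* C2), BG χ → ∀ w b b' : G, IsP χ w → χ b = 1 →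
  χ b' = 1 → (IsConj (w * b) (w * b') ↔ Iv w (hs b' b⁻¹))

/-- **L1.** For `Z` outside and `u` in the kernel: `Z u ~ Z u⁻¹` iff `D Z` inverts `u`.
Proof (uses `S_GP`). (⇐) `d := D Z` commutes with `Z` and inverts `u`: `d (Z u) d⁻¹ = Z u⁻¹`.
(⇒) GP: a point `m` with `m Z u m = Z u⁻¹`. So `Z⁻¹ m Z u = u⁻¹ m` (multiply by `Z⁻¹` on the left and by
`m` on the right) and `Z⁻¹ m Z = u⁻¹ m u⁻¹`. The left side has square `1`: `u⁻¹ m u⁻¹ u⁻¹ m u⁻¹ = 1`, so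
`m (u⁻¹ u⁻¹) m = u u`: `m` inverts `u u`, hence `u` (`Iv.of_sq`), so `u⁻¹ m u⁻¹ = m` (`m u⁻¹ = u m`), i.e.
`Z⁻¹ m Z = m`: `m` commutes with `Z`, `m = D Z` (`D_unique`). -/
def S_L1 : Prop := ∀ (G : Type) [Group G] (χ : G →* C2), BG χ → ∀ Z u : G, χ Z ≠ 1 → χ u = 1 →
  (IsConj (Z * u) (Z * u⁻¹) ↔ Iv (D Z) u)

/-- **IND.** `comp k (X # (c Y c⁻¹)) = comp k (X # Y)` for a point `k`, `c` commuting with `k`.
Proof (uses `S_GPp`). Let `l = comp k (X # Y)`. `l⁻¹ (X # Y) = (l⁻¹ X) # (l⁻¹ Y)` (`hs_mul`) is inverted by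
`k` (`comp_spec`), so `(k l⁻¹ X)⁻¹ ~ k l⁻¹ Y`. `c` commutes with `k` and with `l` (`comm_Ck`), so
`k l⁻¹ (c Y c⁻¹) = c (k l⁻¹ Y) c⁻¹ ~ k l⁻¹ Y`; GPp: `k` inverts `(l⁻¹ X) # (l⁻¹ c Y c⁻¹) =
l⁻¹ (X # c Y c⁻¹)`; `comp_unique'`. -/
def S_IND : Prop := ∀ (G : Type) [Group G] (χ : G →* C2), BG χ → ∀ k c X Y : G, IsP χ k → χ X = 1 →
  χ Y = 1 → c * k = k * c → comp k (hs X (c * Y * c⁻¹)) = comp k (hs X Y)

/-- **TOpsB.** Let `x` be a point, `f ∈ Ck x`, `y` in the kernel.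
(1) `TB x y f ∈ Ck x`. (2) `TB x (a y) f = TB x y f = TB x (y a) f` for `a ∈ Ck x`. (3) `TB x y⁻¹ f = TB x y f`.
(4) for every `h : G` there is `c` commuting with `x` with `h f h⁻¹ = c (h⁻¹ f h) c⁻¹`.
Proof. (1) `comp_mem`. (2) `a` commutes with `f` (`Ck_comm`); `comp_conj_comm` with `a⁻¹`.
(4) Let `m` be a point with `m x m = h⁻¹ x h` (`pts_conj`); `c := h m` commutes with `x`
(`h m x m h⁻¹ = h (h⁻¹ x h) h⁻¹ = x`, `m⁻¹ = m`); `h = c m`, `h⁻¹ f h = m (c⁻¹ f c) m = m f m`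
(`comm_Ck`), `h f h⁻¹ = c (m f m) c⁻¹`. (3) by (4) with `h = y` and `comp_conj_comm`. -/
def S_TOpsB : Prop := ∀ (G : Type) [Group G] (χ : G →* C2), BG χ → ∀ x f : G, IsP χ x → f ∈ Ck χ x →
  (∀ y : G, χ y = 1 → TB x y f ∈ Ck χ x ∧ TB x y⁻¹ f = TB x y f ∧
    ∀ a ∈ Ck χ x, TB x (a * y) f = TB x y f ∧ TB x (y * a) f = TB x y f) ∧
  (∀ h : G, ∃ c : G, c * x = x * c ∧ h * f * h⁻¹ = c * (h⁻¹ * f * h) * c⁻¹)

/-- **TCommB.** The operators `TB x y`, `y` in the kernel, commute on `Ck x`.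
Proof (uses `S_IND`, `S_TOpsB`). By TOpsB (1), (2) and `comp_factor` we may assume that `x` inverts `y` and
`z`: `x y x = y⁻¹`, `x z x = z⁻¹`. `comp x g = g # (x g x)` (`comp_eq_hs`) and `hs_mul` give, with
`f^h := h⁻¹ f h`: `TB x y (TB x z f) = comp x (f^(z y) # f^(z x y))` and
`TB x z (TB x y f) = comp x (f^(y z) # f^(y x z))`.
By IND (and `hs_mul`, `comp_conj_comm`, `hs_symm`) `comp x (X # Y)` does not change if `X` and `Y` are
replaced by `c X c⁻¹`, `d Y d⁻¹` with `c, d` commuting with `x`. By TOpsB (4) `f^(z y)` is conjugate by such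
a `c` to `(z y) f (z y)⁻¹ = x (f^(y z)) x`; and `f^(z x y)` to `(z x y) f (z x y)⁻¹ = z y⁻¹ f y z⁻¹ =
x (f^(y x z)) x` (`x` commutes with `f`). -/
def S_TCommB : Prop := ∀ (G : Type) [Group G] (χ : G →* C2), BG χ → ∀ x y z f : G, IsP χ x →
  χ y = 1 → χ z = 1 → f ∈ Ck χ x → TB x y (TB x z f) = TB x z (TB x y f)

/-- **SepB.** If `comp x g = comp x k` for all points `x` then `g⁻¹ k` is inverted by all points.
Proof. Let `w` be a point, `x := D (g w)`, `g w = φ x`, `φ ∈ Ck x` (`D_factor`), so `g = φ (x w)` and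
`comp x g = φ` (`comp_unique`, `iv_self_mul`). So `comp x k = φ`, `x` inverts `φ⁻¹ k`, `w' := x φ⁻¹ k` is a
point, `k = φ x w'`, `g⁻¹ k = w x φ⁻¹ φ x w' = w w'`, inverted by `w` (`iv_self_mul`). -/
def S_SepB : Prop := ∀ (G : Type) [Group G] (χ : G →* C2), BG χ → ∀ g k : G, χ g = 1 → χ k = 1 →
  (∀ x : G, IsP χ x → comp x g = comp x k) → ∀ w : G, IsP χ w → Iv w (g⁻¹ * k)

/-- **StrongB.** Let `x` be a point, `f ∈ Ck x`, `s` in the kernel, inverted by `x` and commuting with `f`,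
and assume that `1` is the only element of the kernel inverted by all points. Then `s` commutes with
`n⁻¹ f n` for all `n` in the kernel.
Proof (uses `S_TOpsB`, `S_TCommB`, `S_SepB`). Step 1: `s` commutes with `f' := TB x z f` for all `z` in the
kernel. For `g` in the kernel `TB x (s g) f = TB x g f` (`s` commutes with `f`), so by TCommB
`TB x (s g) f' = TB x z (TB x (s g) f) = TB x z (TB x g f) = TB x g f'`, i.e.
`comp x (g⁻¹ (s⁻¹ f' s) g) = comp x (g⁻¹ f' g)`. Conjugating (`comp_conj`):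
`comp p (s⁻¹ f' s) = comp p f'` for `p = g x g⁻¹`, i.e. for all points `p` (`pts_conj_ker`). SepB and the
assumption: `s⁻¹ f' s = f'`.
Step 2: let `n` be in the kernel, `n⁻¹ f n = l i`, `l = TB x n f`, `x` inverts `i` (`comp_factor`).
`TB x (n s) f = comp x (s⁻¹ l i s) = comp x (l (s⁻¹ i s)) = l comp x (s⁻¹ i s)` (Step 1, `comp_mul_left`) and
`TB x (n s) f = TB x (s⁻¹ n⁻¹) f = TB x n⁻¹ f = TB x n f = l` (TOpsB (3), and `s` commutes with `f`). So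
`comp x (s⁻¹ i s) = 1`, `x` inverts `s⁻¹ i s` (`iv_of_comp_one`): `s i⁻¹ s⁻¹ = x (s⁻¹ i s) x = s⁻¹ i⁻¹ s`,
so `s s` commutes with `i`, so `s` does (`comm_of_comm_sq`). `s` commutes with `l` and `i`. -/
def S_StrongB : Prop := ∀ (G : Type) [Group G] (χ : G →* C2), BG χ → ∀ x f s : G, IsP χ x →
  f ∈ Ck χ x → χ s = 1 → Iv x s → f * s = s * f →
  (∀ e : G, χ e = 1 → (∀ w : G, IsP χ w → Iv w e) → e = 1) →
    ∀ n : G, χ n = 1 → (n⁻¹ * f * n) * s = s * (n⁻¹ * f * n)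

/-- the kernel is infinite, finitely generated and every nontrivial normal subgroup of `G` inside it has
finite index in it -/
structure JIB {G : Type} [Group G] (χ : G →* C2) : Prop where
  fg : χ.ker.FG
  inf : ¬ Finite χ.ker
  just : ∀ K : Subgroup G, K.Normal → K ≤ χ.ker → K ≠ ⊥ → K.relIndex χ.ker ≠ 0

/-- the nondegenerate case -/
structure NG {G : Type} [Group G] (χ : G →* C2) : Prop extends BG χ where
  nd : ∀ x p f : G, IsP χ x → IsP χ p → f ∈ Ck χ x → f ∈ Ck χ p → f ≠ 1 → x = p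
  nt : ∀ x : G, IsP χ x → ∃ f ∈ Ck χ x, f ≠ 1
  sep : ∀ e : G, χ e = 1 → (∀ w : G, IsP χ w → Iv w e) → e = 1

/-- **JIAbB.** As `S_JIAb` of part 1 (copy the file `JIAb.lean`, `Geo` ↦ `BG`, `τ` ↦ `χ`): in the just
infinite case no nontrivial normal subgroup `K ≤ ker χ` of `G` is commutative, and two nontrivial normal
subgroups `K, L ≤ ker χ` of `G` do not centralize each other. -/
def S_JIAbB : Prop := ∀ (G : Type) [Group G] (χ : G →* C2), BG χ → JIB χ →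
  (∀ K : Subgroup G, K.Normal → K ≤ χ.ker → (∀ x ∈ K, ∀ y ∈ K, x * y = y * x) → K = ⊥) ∧
  (∀ K L : Subgroup G, K.Normal → L.Normal → K ≤ χ.ker → L ≤ χ.ker →
    (∀ x ∈ K, ∀ y ∈ L, x * y = y * x) → K = ⊥ ∨ L = ⊥)

/-- **NDB.** In the just infinite case `NG χ` holds.
Proof (uses `S_JIAbB`, `S_StrongB`; model file: `NDRed.lean`, whose lemmas `NDRed_closure_normal`,
`NDRed_closure_comm` may be used). `ker χ ≠ ⊥` since it is infinite.
`nt`: if `Ck x` is trivial then `comp x g = 1` and `x` inverts every `g` in the kernel (`iv_of_comp_one`);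
inversion is then multiplicative, so the kernel is commutative, contradiction to JIAbB (1) with `K = ker χ`.
`sep`: let `Q` be the subgroup generated by all products `p q` of two points: normal, contained in the
kernel. `Q ≠ ⊥`: otherwise all points are equal to one point `x`, so `g x g⁻¹ = x` for all `g`, the kernel is
`Ck x`, commutative, contradiction. If `e` in the kernel is inverted by all points then it commutes with
all `p q` (`Iv.mul_iv`), so it is in `E := centralizer(Q) ∩ ker χ`, which is normal; JIAbB (2): `E = ⊥`.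
`nd`: let `x ≠ p` be points, `1 ≠ f ∈ Ck x ∩ Ck p`, `s := sqr (x p)`: `s ≠ 1` (`s s = x p ≠ 1`), `x`
inverts `s` (`iv_self_mul`, `Iv.sqr`), `s` commutes with `f` (`sqr_comm`). StrongB (with `sep`): `s`
commutes with `n⁻¹ f n` for all `n` in the kernel. `K` (`L`) := the subgroup generated by the
`n⁻¹ f^{±1} n` (the `n⁻¹ s^{±1} n`), `n` in the kernel: they commute elementwise (`n⁻¹ f n` and `m⁻¹ s m`:
conjugate by `m`) and are normal in `G`: every `g` is `n` or `x n` with `n` in the kernel, `x` commutes with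
`f` and inverts `s`. JIAbB (2) gives `f = 1` or `s = 1`. -/
def S_NDB : Prop := ∀ (G : Type) [Group G] (χ : G →* C2), BG χ → JIB χ → NG χ

/-- **JIExB.** If `ker χ` has an infinite finitely generated subgroup, then there is a just infinite
example. Proof: as `S_JIEx` of part 1 (model file `JIEx.lean`). Step 1: `x` a point, `N₁` := the subgroup
generated by the `h`, `x h x` with `h` in a finite generating set of `H`: finitely generated, normalized by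
`x`, in the kernel. `G₁ := N₁ ⊔ ⟨x⟩`, `χ₁` the restriction. Step 2: Zorn, literally as in `S_JIEx`.
Step 3 (`BG χ'` for `G' = G/K`, `K ≤ ker χ` normal, `χ' = ` lift): `odd`, `ex`: clear. `ab`: let `x'` be an
involution of `G'` outside the kernel and `m', n'` in the kernel commuting with `x'`. Let `g ∈ G` map to `x'`,
`x := D g` (an odd power of `g`) is a point and maps to `x'`. Let `m ∈ ker χ` map to `m'`. `m⁻¹ x m` maps to
`x'`, so `x (m⁻¹ x m) ∈ K`, `k := sqr (x (m⁻¹ x m)) ∈ K` (a power), `comp x m = m k⁻¹` is in `Ck x` and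
maps to `m'`. The same for `n'`; `Ck x` is commutative. -/
def S_JIExB : Prop := ∀ (G : Type) [Group G] (χ : G →* C2), BG χ →
  (∃ H : Subgroup G, H ≤ χ.ker ∧ H.FG ∧ ¬ Finite H) →
    ∃ (G' : Type) (_ : Group G') (χ' : G' →* C2), BG χ' ∧ JIB χ'

/-- `b ≠ 1` is in the kernel and commutes with some point or is inverted by some point -/
def Ax {G : Type} [Group G] (χ : G →* C2) (b : G) : Prop :=
  χ b = 1 ∧ b ≠ 1 ∧ ∃ p, IsP χ p ∧ (b * p = p * b ∨ Iv p b)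

/-- **Cent.** Centralizers in the nondegenerate case.
(i) `Ck f ≤ Ck x` for `1 ≠ f ∈ Ck x`, `x` a point; (ii) if the point `x` inverts `u ≠ 1` (in the kernel) then
`x` inverts all elements of `Ck u`; (iii) if `Ax b`, then `Ck b` is commutative and for `1 ≠ b' ∈ Ck b`:
`Ax b'` and `Ck b' = Ck b`; (iv) if `Ax b`, `w` is a point commuting with `b` and `b' ∈ Ck b` then `w`
commutes with `b'`.
Proof. (i) Let `n` in the kernel commute with `f`. `f = n f n⁻¹ ∈ Ck (n x n⁻¹)` (`Ck_conj`), so by `nd`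
`n x n⁻¹ = x`. (ii) Let `n ∈ Ck u`. `x n⁻¹ x` commutes with `u` (as `x` inverts `u`), so
`x (n⁻¹ x n) = (x n⁻¹ x) n` commutes with `u`, so does its `sqr` (`sqr_comm`), so
`e := comp x n = n (sqr ..)⁻¹` commutes with `u`. If `e ≠ 1` then `u ∈ Ck x` by (i), and `x` inverts `u`:
`u = 1` (`iv_comm_one`), contradiction. So `e = 1` and `x` inverts `n` (`iv_of_comp_one`).
(iii) Case `b p = p b`: `b ∈ Ck p`, and `Ck b = Ck p` by (i) and `Ck_comm`; the same for `b'`. Case `Iv p b`: by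
(ii) `p` inverts all elements of `Ck b`, so for `m, n ∈ Ck b` `p (m n) p⁻¹ = n⁻¹ m⁻¹ = m⁻¹ n⁻¹`. `Ax b'` by (ii).
`Ck b ≤ Ck b'` since `Ck b` is commutative; `b ∈ Ck b'` and `Ck b'` is commutative (the same argument for
`b'`, inverted by `p`), so `Ck b' ≤ Ck b`. (iv) `b ∈ Ck w`, `b' ∈ Ck b ≤ Ck w` by (i). -/
def S_Cent : Prop := ∀ (G : Type) [Group G] (χ : G →* C2), NG χ →
  (∀ x f : G, IsP χ x → f ∈ Ck χ x → f ≠ 1 → Ck χ f ≤ Ck χ x) ∧
  (∀ x u n : G, IsP χ x → χ u = 1 → u ≠ 1 → Iv x u → n ∈ Ck χ u → Iv x n) ∧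
  (∀ b : G, Ax χ b → (∀ m ∈ Ck χ b, ∀ n ∈ Ck χ b, m * n = n * m) ∧
    ∀ b' ∈ Ck χ b, b' ≠ 1 → Ax χ b' ∧ Ck χ b' = Ck χ b) ∧
  (∀ b w b' : G, Ax χ b → IsP χ w → w * b = b * w → b' ∈ Ck χ b → w * b' = b' * w)

/-- **LineU.** Two distinct points `p, q` lie on only one line: if `p`, `q` invert `u ≠ 1` and `v ≠ 1` then
every point inverting `u` inverts `v`.
Proof (uses `S_Cent`). `t := p q ≠ 1` is in the kernel, inverted by `p` (`iv_self_mul`), and commutes with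
`u` and `v` (`Iv.mul_iv`). `Ax t`, so `u, v ∈ Ck t` commute (Cent (iii)), and Cent (ii) with `x := w`. -/
def S_LineU : Prop := ∀ (G : Type) [Group G] (χ : G →* C2), NG χ → ∀ p q w u v : G, IsP χ p →
  IsP χ q → IsP χ w → p ≠ q → χ u = 1 → χ v = 1 → u ≠ 1 → v ≠ 1 → Iv p u → Iv q u → Iv p v →
  Iv q v → Iv w u → Iv w v

/-- **Coll.** The map `w ↦ D (w a)` (`a` in the kernel) on points. (i) `D (w a)` inverts `f` iff `w` inverts
`(a f) # (f a⁻¹)`; (ii) it is surjective; (iii) it is injective; (iv) `(a f) # (f a⁻¹) ≠ 1` for `f ≠ 1`.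
Proof (uses `S_L1`, `S_COR`). (i) L1 for `Z = w a`: `w a f ~ w a f⁻¹`; COR with `b = a f⁻¹`, `b' = a f`
(`b⁻¹ = f a⁻¹`). (ii) Given the point `u` let `e := (comp u a⁻¹)⁻¹ ∈ Ck u`; `u` inverts `e a⁻¹`
(`comp_spec`), so `w := u (e a⁻¹)` is a point (`iv_iff_isP`), `w a = u e`, `D (w a) = u` (`D_eq`).
(iii) If `D (w a) = u` then `w a = u e`, `e ∈ Ck u` (`D_factor`), `w = u (e a⁻¹)` is a point, so `u` inverts
`e a⁻¹` and `comp u a⁻¹ = e⁻¹` (`comp_unique'`): `w` is determined by `u`. (iv) `hs_eq_one`: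
`f a⁻¹ = (a f)⁻¹ = f⁻¹ a⁻¹` means `f f = 1`, `f = 1`. -/
def S_Coll : Prop := ∀ (G : Type) [Group G] (χ : G →* C2), BG χ → ∀ a : G, χ a = 1 →
  (∀ f w : G, χ f = 1 → IsP χ w → (Iv (D (w * a)) f ↔ Iv w (hs (a * f) (f * a⁻¹)))) ∧
  (∀ u : G, IsP χ u → ∃ w, IsP χ w ∧ D (w * a) = u) ∧
  (∀ w w' : G, IsP χ w → IsP χ w' → D (w * a) = D (w' * a) → w = w') ∧
  (∀ f : G, χ f = 1 → f ≠ 1 → hs (a * f) (f * a⁻¹) ≠ 1)

/-- **EqE.** Let `b ≠ b'` be in the kernel, `z ≠ r` points with `comp z b = comp z b'` and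
`comp r b = comp r b'`, `v ≠ 1` in the kernel inverted by `z` and `r`. Then `comp p b = comp p b'` for every
point `p` inverting `v`.
Proof (uses `S_Coll`, `S_LineU`). Let `a := b⁻¹`, `u := b⁻¹ b' ≠ 1`. Claim: if `j`, `q` are points and
`D (j a) = q`, then `comp q b = comp q b'` iff `j` inverts `u`. Proof: `j a = e q`, `e ∈ Ck q` (`D_factor`), so
`b j = (j a)⁻¹ = q e⁻¹ = e⁻¹ q` and `b = e⁻¹ (q j)`, `comp q b = e⁻¹` (`comp_unique`, `iv_self_mul`).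
`comp q b' = e⁻¹` iff `q` inverts `e b' = e b u = q (j u)` (`comp_unique'`, `comp_spec`) iff `q (q (j u)) = j u`
is a point (`iv_iff_isP`) iff `j` inverts `u`.
Let `j_z, j_r, j_p` be the points mapped to `z, r, p` by `j ↦ D (j a)` (Coll (ii)); `j_z ≠ j_r`. `j_z, j_r`
invert `u` (claim) and `v' := (a v) # (v a⁻¹) ≠ 1` (Coll (i), (iv)). `j_p` inverts `v'` (Coll (i)), so it
inverts `u` (LineU), so `comp p b = comp p b'`. -/
def S_EqE : Prop := ∀ (G : Type) [Group G] (χ : G →* C2), NG χ → ∀ b b' z r v p : G, χ b = 1 →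
  χ b' = 1 → b ≠ b' → IsP χ z → IsP χ r → z ≠ r → comp z b = comp z b' → comp r b = comp r b' →
  χ v = 1 → v ≠ 1 → Iv z v → Iv r v → IsP χ p → Iv p v → comp p b = comp p b'

/-- **StepA.** Let `Ax Q` and let `z` be a point not commuting with `Q`, `r := D (z Q)`. Then `r` is a point
`≠ z`, and for every `1 ≠ b ∈ Ck Q` and `v_b := b^z # b⁻¹`: (1) `b^z ≠ b`; (2) `v_b ≠ 1`; (3) `z` and `r`
invert `v_b`; (4) `comp z (b^z) = comp z b` and `comp r (b^z) = comp r b`; (5) for every point `w`: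
`w b ~ w b^z` iff `w` inverts `v_Q`.
Proof (uses `S_Cent`, `S_LineU`, `S_COR`). `r` is a point since `χ (z Q) ≠ 1`. (1) if `z` commutes with `b`
then (Cent (iii), (iv): `Ax b`, `Q ∈ Ck b`) it commutes with `Q`. `r ≠ z`: `r` commutes with `z Q`
(`D_comm`), so `r = z` would commute with `Q`. (2) `hs_eq_one`. (3) `z`: `z v_b z = b # (b^z)⁻¹ =
(b⁻¹ # b^z)⁻¹ = v_b⁻¹` (`hs_mul`, `hs_inv`, `hs_symm`). `r`: `z (z Q) z = Q z = Q (z Q) Q⁻¹`, so
`z r z = Q r Q⁻¹` (`D_conj`, `pconj`). `r b^z = r z b z ~ (z r z) b = Q r Q⁻¹ b ~ r Q⁻¹ b Q = r b` (`Q`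
commutes with `b`); COR with `w = r`: `r` inverts `b^z # b⁻¹`.
(4) `comp z (b^z) = comp z b` is `comp_conj_comm` with `c = z`. `comp r (z b z) = z comp (z r z) b z =
z (Q comp r (Q⁻¹ b Q) Q⁻¹) z = (z Q) (comp r b) (z Q)⁻¹` (`comp_conj` twice), and `z Q` commutes with `r`,
so with `comp r b` (`comm_Ck`). (5) COR: `w b ~ w b^z` iff `w` inverts `v_b`; by LineU (both `v_b`, `v_Q` are
inverted by `z ≠ r`) iff `w` inverts `v_Q`. -/
def S_StepA : Prop := ∀ (G : Type) [Group G] (χ : G →* C2), NG χ → ∀ Q z : G, Ax χ Q → IsP χ z →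
  z * Q ≠ Q * z → IsP χ (D (z * Q)) ∧ D (z * Q) ≠ z ∧ ∀ b ∈ Ck χ Q, b ≠ 1 →
    z * b * z ≠ b ∧ χ (hs (z * b * z) b⁻¹) = 1 ∧ hs (z * b * z) b⁻¹ ≠ 1 ∧
    Iv z (hs (z * b * z) b⁻¹) ∧ Iv (D (z * Q)) (hs (z * b * z) b⁻¹) ∧
    comp z (z * b * z) = comp z b ∧ comp (D (z * Q)) (z * b * z) = comp (D (z * Q)) b ∧
    ∀ w : G, IsP χ w → (IsConj (w * b) (w * (z * b * z)) ↔ Iv w (hs (z * Q * z) Q⁻¹))

/-- **Bis.** (Perpendicular bisector.) Let `p` be a point, `1 ≠ l ∈ Ck p`, `j, j'` points with `l j ~ l j'`.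
Then `l₁ j ~ l₁ j'` for all `l₁ ∈ Ck p`.
Proof (uses `S_StepA`). Let `m` be a point with `m j m = j'` (`pts_conj`). For every `l₁ ∈ Ck p`:
`l₁ j' = l₁ m j m ~ (m l₁ m) j ~ j (m l₁ m)` and `l₁ j ~ j l₁`. If `m` commutes with `l` then `m = p` (`nd`), so
`m l₁ m = l₁` and we are done. Otherwise StepA for `Q = l` (`Ax l`: it commutes with `p`; `Ck p ≤ Ck l` by
`Ck_comm`), `z = m`: `j l ~ j (m l m)`, so `j` inverts `v_l`, so `j l₁ ~ j (m l₁ m)` for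
`1 ≠ l₁ ∈ Ck p` (StepA (5) for `b = l₁` and for `b = l`). `l₁ = 1`: `j ~ j'`. -/
def S_Bis : Prop := ∀ (G : Type) [Group G] (χ : G →* C2), NG χ → ∀ p l j j' : G, IsP χ p →
  l ∈ Ck χ p → l ≠ 1 → IsP χ j → IsP χ j' → IsConj (l * j) (l * j') →
    ∀ l₁ ∈ Ck χ p, IsConj (l₁ * j) (l₁ * j')

/-- **StepB1.** Let `Ax Q`, `z` a point not commuting with `Q`, `1 ≠ b ∈ Ck Q`, `W` outside the kernel,
`D W` inverting `v_Q = Q^z # Q⁻¹`. Then `W b ~ W b^z`.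
Proof (uses `S_Cent`, `S_LineU`, `S_StepA`, `S_EqE`, `S_Bis`, `S_L1`). `p := D W`, `r := D (z Q)`,
`v := v_Q`: `z ≠ r` invert `v ≠ 1`, `b^z ≠ b`.
Case 1: `z` inverts `Q`. Then `z Q z = Q⁻¹`, `v = Q⁻¹ # Q⁻¹ = Q⁻¹` (`hs_unique`), so `p` inverts `Q`, so `p` and
`z` invert `b` (Cent (ii)): `b^z = b⁻¹` and L1.
Case 2: `z` does not invert `Q`; then `z` does not invert `b` (Cent (ii), (iii)). EqE for `b' = b^z` (StepA
(4)): `comp p b = comp p b^z =: l ∈ Ck p`. `b = l i`, `b^z = l i'`, `p` inverts `i`, `i'`; `j := p i`, `j' := p i'`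
are points. `l ≠ 1`: otherwise `p` inverts `b` and `b^z`, so `p` and `p' := z p z` invert `b` (conjugate), and
`p'` inverts `v` (as `z`, `p` invert `v`: `z p z` does). `p ≠ z` (`z` does not invert `b`), so `p' ≠ p`
(`pts_eq_of_comm`); LineU (`p ≠ p'` invert `b` and `v`): `z`, which inverts `v`, inverts `b`, contradiction.
`W = p a`, `a ∈ Ck p` (`D_factor`), so `W b = p a l i = (a l) j` (`Ck p` commutes with `p`) and
`W b^z = (a l) j'`. `l j = p b` and `l j' = p b^z` are conjugate by StepA (5) (`w = p` inverts `v`). Bis with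
`l₁ = a l`. -/
def S_StepB1 : Prop := ∀ (G : Type) [Group G] (χ : G →* C2), NG χ → ∀ Q z b W : G, Ax χ Q →
  IsP χ z → z * Q ≠ Q * z → b ∈ Ck χ Q → b ≠ 1 → χ W ≠ 1 → Iv (D W) (hs (z * Q * z) Q⁻¹) →
    IsConj (W * b) (W * (z * b * z))

/-- **StepB2.** The converse: if `W b ~ W b^z` then `D W` inverts `v_Q`.
Proof (uses `S_StepA`, `S_StepB1`, `S_Coll`, `S_COR`, `S_LineU`). Let `w₀` be any point, `c₀ := w₀ W` (in the
kernel), `W = w₀ c₀`. `g₁ := (c₀ b^z) # (c₀ b)⁻¹ ≠ 1` (`hs_eq_one`, `b^z ≠ b`): for a point `w`,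
`w c₀ b ~ w c₀ b^z` iff `w` inverts `g₁` (COR). `g₂ := (c₀ v_Q) # (v_Q c₀⁻¹) ≠ 1` (Coll (iv)): `D (w c₀)`
inverts `v_Q` iff `w` inverts `g₂` (Coll (i)). By StepB1 (for `w c₀` in place of `W`) every point inverting
`g₂` inverts `g₁`. There are two different points inverting `g₂`: the preimages (Coll (ii)) of `z` and
`r = D (z Q)` under `w ↦ D (w c₀)` (StepA). `w₀` inverts `g₁`, so by LineU it inverts `g₂`. -/
def S_StepB2 : Prop := ∀ (G : Type) [Group G] (χ : G →* C2), NG χ → ∀ Q z b W : G, Ax χ Q →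
  IsP χ z → z * Q ≠ Q * z → b ∈ Ck χ Q → b ≠ 1 → χ W ≠ 1 → IsConj (W * b) (W * (z * b * z)) →
    Iv (D W) (hs (z * Q * z) Q⁻¹)

/-- **Rig.** (Rigidity.) Let `Ax Q`, `U, U'` outside the kernel, `f₁ ≠ f₂ ∈ Ck Q`, `U f₁ ~ U' f₁`,
`U f₂ ~ U' f₂`. Then `U f ~ U' f` for all `f ∈ Ck Q`.
Proof (uses `S_GP`, `S_Cent`, `S_StepB1`, `S_StepB2`). `V := U f₁`, `V' := U' f₁`; GP: a point `m` with
`m V m = V'`. `Q₂ := f₁⁻¹ f₂ ≠ 1`, `Ax Q₂`, `Ck Q₂ = Ck Q` (Cent (iii)). For `g ∈ Ck Q`: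
`V' g = m V m g ~ V (m g m)`. If `m` commutes with `Q₂` then it commutes with all `g ∈ Ck Q` (Cent (iv)) and
`V' g ~ V g`; take `g = f₁⁻¹ f`. Otherwise `V Q₂ = U f₂ ~ U' f₂ = V' Q₂ ~ V (m Q₂ m)`, so by StepB2 (for
`Q = b = Q₂`) `D V` inverts `v_{Q₂}`, and by StepB1 `V g ~ V (m g m) ~ V' g` for `1 ≠ g ∈ Ck Q`; for `g = 1`
it is `V ~ V'`. Take `g = f₁⁻¹ f`. -/
def S_Rig : Prop := ∀ (G : Type) [Group G] (χ : G →* C2), NG χ → ∀ Q U U' f₁ f₂ : G, Ax χ Q →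
  χ U ≠ 1 → χ U' ≠ 1 → f₁ ∈ Ck χ Q → f₂ ∈ Ck χ Q → f₁ ≠ f₂ → IsConj (U * f₁) (U' * f₁) →
    IsConj (U * f₂) (U' * f₂) → ∀ f ∈ Ck χ Q, IsConj (U * f) (U' * f)

/-- the word `f₁ a₁ f₂ a₂ ... fₙ aₙ` -/
def wd {G : Type} [Group G] (l : List (G × G)) : G := (l.map (fun p => p.1 * p.2)).prod

/-- the word `f₁ a₁⁻¹ f₂ a₂⁻¹ ... fₙ aₙ⁻¹` -/
def wd' {G : Type} [Group G] (l : List (G × G)) : G := (l.map (fun p => p.1 * p.2⁻¹)).prod

/-- all letters are in `Ck u`, `Ck c` -/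
def Vld {G : Type} [Group G] (χ : G →* C2) (u c : G) (l : List (G × G)) : Prop :=
  ∀ p ∈ l, p.1 ∈ Ck χ u ∧ p.2 ∈ Ck χ c

/-- the symmetry of a word -/
def Sy {G : Type} [Group G] (c : G) (l : List (G × G)) : Prop := IsConj (c * wd l) (c * wd' l)⁻¹

/-- **SyRig.** Rigidity of words in one variable: let the point `c` invert `u ≠ 1` (in the kernel).
(1) if `Sy c (l₁ ++ (f₁, a) :: l₂)` and `Sy c (l₁ ++ (f₂, a) :: l₂)` hold, `f₁ ≠ f₂`, then
`Sy c (l₁ ++ (f, a) :: l₂)` holds for all `f ∈ Ck u` (all letters valid). (2) the same for the second letter.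
Proof (uses `S_Rig`, `S_Cent`). All `wd`, `wd'` of valid lists are in the kernel. `wd` is multiplicative for
`++`. (1) `c wd(..) = c wd(l₁) f a wd(l₂) ~ U f` with `U := a wd(l₂) c wd(l₁)` (`isConj_mul_comm`), and
`(c wd'(l₁) f a⁻¹ wd'(l₂))⁻¹ = wd'(l₂)⁻¹ a f⁻¹ wd'(l₁)⁻¹ c ~ U'' f⁻¹` with
`U'' = wd'(l₁)⁻¹ c wd'(l₂)⁻¹ a`; `c` inverts `f` (Cent (ii)), `f⁻¹ = c f c`, so this is `~ (c U'' c) f =: U' f`.
`Rig` with `Q = u`. (2) `c wd(..) ~ U a`, `U := wd(l₂) c wd(l₁) f`;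
`(c wd'(l₁) f a⁻¹ wd'(l₂))⁻¹ = wd'(l₂)⁻¹ a f⁻¹ wd'(l₁)⁻¹ c ~ U' a`, `U' := f⁻¹ wd'(l₁)⁻¹ c wd'(l₂)⁻¹`.
`Rig` with `Q` a nontrivial element of `Ck c` (if there is none, `a₁ ≠ a₂` is impossible): `Q := a₁⁻¹ a₂`,
`Ax Q`, `Ck Q = Ck c` (Cent (i), `Ck_comm`). -/
def S_SyRig : Prop := ∀ (G : Type) [Group G] (χ : G →* C2), NG χ → ∀ (c u : G) (l₁ l₂ : List (G × G)),
  IsP χ c → χ u = 1 → u ≠ 1 → Iv c u → Vld χ u c l₁ → Vld χ u c l₂ →
  (∀ f₁ f₂ f a : G, f₁ ∈ Ck χ u → f₂ ∈ Ck χ u → f ∈ Ck χ u → a ∈ Ck χ c → f₁ ≠ f₂ →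
    Sy c (l₁ ++ (f₁, a) :: l₂) → Sy c (l₁ ++ (f₂, a) :: l₂) → Sy c (l₁ ++ (f, a) :: l₂)) ∧
  (∀ f a₁ a₂ a : G, f ∈ Ck χ u → a₁ ∈ Ck χ c → a₂ ∈ Ck χ c → a ∈ Ck χ c → a₁ ≠ a₂ →
    Sy c (l₁ ++ (f, a₁) :: l₂) → Sy c (l₁ ++ (f, a₂) :: l₂) → Sy c (l₁ ++ (f, a) :: l₂))

/-- **SyDeg.** Words with a trivial letter: let the point `c` invert `u ≠ 1`, and assume `Sy c l` for
all valid `l` of length `n`. Then `Sy c l` for all valid `l` of length `n + 1` having a pair `(1, a)` or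
`(f, 1)`.
Proof (uses `S_Cent`). `Ck u` is inverted by `c` (Cent (ii)) and commutative (Cent (iii)); `Ck c` is
commutative (`Ck_comm`) and commutes with `c`. `l = l₁ ++ p :: l₂`, `length l₁ + length l₂ = n`.
`p = (1, a)`: if `l₁ = l₁' ++ [(f', a')]`: `wd l = wd (l₁' ++ (f', a' a) :: l₂)` and the same for `wd'`
(`(a' a)⁻¹ = a'⁻¹ a⁻¹`). If `l₁ = []`, `l₂ = []`: `c a ~ (c a⁻¹)⁻¹ = a c`. If `l₁ = []`,
`l₂ = l₂' ++ [(f', a')]`: `c a wd(l₂') f' a' ~ a' c a wd(l₂') f' = c (a' a) wd(l₂') f' ~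
f' c (a' a) wd(l₂') = c (f'⁻¹ (a' a) wd(l₂')) = c wd ((f'⁻¹, a' a) :: l₂')`, and the same with `a⁻¹, a'⁻¹` and
`wd'`. `p = (f, 1)`: if `l₂ = (f', a') :: l₂'`: `wd l = wd (l₁ ++ (f f', a') :: l₂')`. If `l₂ = []`,
`l₁ = (f₁, a₁) :: l₁'`: `c wd(l₁) f ~ f c wd(l₁) = c f⁻¹ wd(l₁) = c wd ((f⁻¹ f₁, a₁) :: l₁')`, the same for
`wd'`. If both are empty: `c f` and `(c f)⁻¹ = f⁻¹ c = c f`. -/
def S_SyDeg : Prop := ∀ (G : Type) [Group G] (χ : G →* C2), NG χ → ∀ (c u : G) (n : ℕ),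
  IsP χ c → χ u = 1 → u ≠ 1 → Iv c u →
  (∀ l : List (G × G), l.length = n → Vld χ u c l → Sy c l) →
    ∀ (l : List (G × G)), l.length = n + 1 → Vld χ u c l → (∃ p ∈ l, p.1 = 1 ∨ p.2 = 1) → Sy c l

/-- **Sym.** (The symmetry theorem.) `Sy c l` for all valid lists `l`.
Proof (uses `S_SyRig`, `S_SyDeg`, `NG.nt`). Induction on the length `n`; `n = 0`: `c ~ c⁻¹`. Let `n ≥ 1`.
Take `1 ≠ a ∈ Ck c` (`nt`), `g := u ∈ Ck u`. Base point `t₀ := [(g, a), ..., (g, a)]` (`List.replicate n`):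
`wd t₀ = (g a)^n`, `wd' t₀ = (g a⁻¹)^n`, `(c (g a⁻¹)^n)⁻¹ = (a g⁻¹)^n c = c (a g)^n` (`a g⁻¹ c = a c g = c a g`;
induction) and `c (a g)^n = c a (g a)^n a⁻¹ = a (c (g a)^n) a⁻¹ ~ c (g a)^n`. So `Sy c t₀`.
Claim: for `k ≤ n` and all valid `l₁` of length `k`: `Sy c (l₁ ++ replicate (n - k) (g, a))`. `k = 0`: base
point. `k → k + 1`: let `l₁` have length `k` and let `(f, b)` be a valid pair, `R := replicate (n-k-1) (g, a)`.
`Sy c (l₁ ++ (g, a) :: R)` by induction, `Sy c (l₁ ++ (1, a) :: R)` by SyDeg, `g ≠ 1`: SyRig (1) gives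
`Sy c (l₁ ++ (f, a) :: R)`. `Sy c (l₁ ++ (f, 1) :: R)` by SyDeg, `a ≠ 1`: SyRig (2) gives
`Sy c (l₁ ++ (f, b) :: R)`. `k = n` is the statement. -/
def S_Sym : Prop := ∀ (G : Type) [Group G] (χ : G →* C2), NG χ → ∀ (c u : G) (l : List (G × G)),
  IsP χ c → χ u = 1 → u ≠ 1 → Iv c u → Vld χ u c l → Sy c l

/-- the graph of the reflection: generated by the `(f, f)`, `f ∈ Ck u`, and the `(a, a⁻¹)`, `a ∈ Ck c` -/
def Gam {G : Type} [Group G] (χ : G →* C2) (u c : G) : Subgroup (G × G) :=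
  Subgroup.closure ({q | ∃ f ∈ Ck χ u, q = (f, f)} ∪ {q | ∃ a ∈ Ck χ c, q = (a, a⁻¹)})

/-- **Gam1.** Let the point `c` invert `u ≠ 1`. (1) `(g, g') ∈ Gam` implies `χ g = 1`, `χ g' = 1` and
`c g ~ (c g')⁻¹`; (2) `(g', g) ∈ Gam`; (3) `(c g c, c g' c) ∈ Gam`.
Proof (uses `S_Sym`, `S_Cent`). (1) The set of all `(wd l, wd' l)`, `l` valid, is a subgroup (products: `++`;
inverses: by induction on `l`, `(f a w)⁻¹ = w⁻¹ (1 a⁻¹)(f⁻¹ 1)`, `(f a⁻¹ w')⁻¹ = w'⁻¹ (1 (a⁻¹)⁻¹) (f⁻¹ 1⁻¹)`)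
containing the generators (`[(f, 1)]`, `[(1, a)]`), so it contains `Gam` (closure induction); Sym.
(2), (3): the generators are mapped to generators (`c f c = f⁻¹`, `c a c = a`). -/
def S_Gam1 : Prop := ∀ (G : Type) [Group G] (χ : G →* C2), NG χ → ∀ c u : G, IsP χ c → χ u = 1 →
  u ≠ 1 → Iv c u → ∀ g g' : G, (g, g') ∈ Gam χ u c →
    (χ g = 1 ∧ χ g' = 1 ∧ IsConj (c * g) (c * g')⁻¹) ∧ (g', g) ∈ Gam χ u c ∧
      (c * g * c, c * g' * c) ∈ Gam χ u c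

/-- **Gam2.** Let the point `c` invert `u` (in the kernel), `a ∈ Ck c`, and let `a⁻¹ u a` not commute with `u`.
If `(1, k) ∈ Gam` then `k = 1`.
Proof (uses `S_Gam1`, `S_Cent`, `S_GP` or only `isP_of_isConj`). Note `u ≠ 1`. For `(g, g') ∈ Gam` also
`(g, g' k) ∈ Gam`, so `c g' ~ (c g)⁻¹ ~ c g' k` (Gam1 (1)). Let `h` be one of `1, u, u a`, which are second
components of elements of `Gam` (`(u, u)`, `(u, u)(a⁻¹, a) = (u a⁻¹, u a)`). Then `g' := c h⁻¹ c h` is also a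
second component (Gam1 (3)), and `j := c g' = h⁻¹ c h` is a point; `j k ~ j` is a point, so `j` inverts `k`
(`iv_iff_isP`). So `c`, `u⁻¹ c u` and `a⁻¹ u⁻¹ c u a` invert `k`; hence (`Iv.mul_iv`) `k` commutes with
`c u⁻¹ c u = u u`, so with `u` (`comm_of_comm_sq`), and with `c a⁻¹ u⁻¹ c u a = a⁻¹ (c u⁻¹ c u) a =
(a⁻¹ u a)(a⁻¹ u a)`, so with `a⁻¹ u a`. If `k ≠ 1` then `Ax k` (inverted by `c`), and `u`, `a⁻¹ u a ∈ Ck k`
commute (Cent (iii)), a contradiction. -/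
def S_Gam2 : Prop := ∀ (G : Type) [Group G] (χ : G →* C2), NG χ → ∀ c u a k : G, IsP χ c → χ u = 1 →
  Iv c u → a ∈ Ck χ c → (a⁻¹ * u * a) * u ≠ u * (a⁻¹ * u * a) → (1, k) ∈ Gam χ u c → k = 1

/-- the data contradicting part 1: two commuting involutory automorphisms `α`, `σ` of a group `N` with all
elements of odd order, without common fixed points, such that the fixed point groups of `α`, `σ`, `α σ`
are nontrivial and nontrivial elements of two of them never commute -/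
def FourData (N : Type) [Group N] (α σ : N ≃* N) : Prop :=
  (∀ n : N, ∃ k : ℕ, Odd k ∧ n ^ k = 1) ∧ (∀ n, α (α n) = n) ∧ (∀ n, σ (σ n) = n) ∧
  (∀ n, α (σ n) = σ (α n)) ∧ (∀ n, α n = n → σ n = n → n = 1) ∧
  (∀ f g, α f = f → σ g = g → f * g = g * f → f = 1 ∨ g = 1) ∧
  (∀ f g, α f = f → α (σ g) = g → f * g = g * f → f = 1 ∨ g = 1) ∧
  (∀ f g, σ f = f → α (σ g) = g → f * g = g * f → f = 1 ∨ g = 1) ∧
  (∃ f, f ≠ 1 ∧ α f = f) ∧ (∃ f, f ≠ 1 ∧ σ f = f) ∧ (∃ f, f ≠ 1 ∧ α (σ f) = f)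

/-- **InvFix.** Let `φ, ψ` be commuting involutory (or trivial) automorphisms of a group `N` with all elements
of odd order and without common nontrivial fixed points. If `ψ q = q` then `φ q = q⁻¹`.
Proof. `d := q⁻¹ φ(q)`, `φ d = d⁻¹`, `ψ d = d`. Let `k` be odd with `d^k = 1` and `s := d^((k+1)/2)`, so
`s s = d`, `φ s = s⁻¹`, `ψ s = s`. `φ (q s) = φ(q) s⁻¹ = q (s s) s⁻¹ = q s` and `ψ (q s) = q s`, so `q s = 1`,
`q = s⁻¹`, `φ q = s = q⁻¹`. -/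
def S_InvFix : Prop := ∀ (N : Type) [Group N] (φ ψ : N ≃* N), (∀ n : N, ∃ k : ℕ, Odd k ∧ n ^ k = 1) →
  (∀ n, φ (φ n) = n) → (∀ n, φ (ψ n) = ψ (φ n)) → (∀ n, φ n = n → ψ n = n → n = 1) →
    ∀ q, ψ q = q → φ q = q⁻¹

/-- **TNorm.** Let the point `c` invert `u` (in the kernel) and let `a ∈ Ck c`. If `a⁻¹ u a` does not commute
with `u` then there are a group `N` and `α, σ` with `FourData N α σ`.
Proof (uses `S_InvFix`, `S_Cent`, `S_GP`, `S_Gam1`, `S_Gam2`). `u ≠ 1`, `a ≠ 1`. `N := Gam χ u c` (a subgroup of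
`G × G`), `α (g, g') := (c g c, c g' c)`, `σ (g, g') := (g', g)` (Gam1 (2), (3)). Orders are odd (Gam1 (1),
`BG.odd` for both components, take the product of the exponents). By Gam2 `(1, k) ∈ Gam` implies `k = 1`.
`Fix α`: `c` commutes with `g, g'`, so `g, g' ∈ Ck c`; `c g ~ (c g')⁻¹ = c g'⁻¹` (Gam1 (1)) and
`D (c g) = c = D (c g'⁻¹)` (`D_eq`), so `g' = g⁻¹` by GP (2). `Fix α ∩ Fix σ`: `g = g' = g⁻¹`, `g = 1`
(`ker_eq_one_of_sq`).
`Fix σ`: `q = (g, g)`; by InvFix (`φ = α`, `ψ = σ`) `α q = q⁻¹`, i.e. `c` inverts `g`. `Fix σ` contains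
`q' = (u, u)`, `q q' ∈ Fix σ` is also inverted by `α`, so `q` and `q'` commute: `g ∈ Ck u`. Conversely
`(h, h)` is a generator of `Gam` for every `h ∈ Ck u`.
`Fix (α σ)`: `g' = c g c`; by InvFix (`φ = α`, `ψ = α σ`; a common fixed point of `α`, `α σ` is one of
`α`, `σ`) `c` inverts `g` and `g' = g⁻¹`.
Commutation. `(g, g⁻¹) ∈ Fix α`, `(f, f) ∈ Fix σ` commuting, `g ≠ 1`: `g ∈ Ck c`, `f ∈ Ck g ≤ Ck c`
(Cent (i)) and `c` inverts `f`, so `f = 1` (`iv_comm_one`). The same for `Fix α`, `Fix (α σ)`. `(f, f) ∈ Fix σ`,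
`(h, h⁻¹) ∈ Fix (α σ)` commuting, `f ≠ 1`: `f ∈ Ck u`, `h ∈ Ck f = Ck u` (Cent (iii), `Ax u`), so
`(h, h) ∈ Gam`, `(h, h)⁻¹ (h, h⁻¹) = (1, h⁻¹ h⁻¹) ∈ Gam`, `h⁻¹ h⁻¹ = 1` by Gam2, `h = 1`.
Nontriviality: `(a, a⁻¹) ∈ Fix α`, `(u, u) ∈ Fix σ`. If `Fix (α σ) = 1` then InvFix (`φ = α σ`, `ψ = 1`): `α σ`
inverts every `q ∈ N`, so `N` is commutative and `(u, u)`, `(a, a⁻¹)` commute: `u a = a u`, contradiction. -/
def S_TNorm : Prop := ∀ (G : Type) [Group G] (χ : G →* C2), NG χ → ∀ c u a : G, IsP χ c → χ u = 1 →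
  Iv c u → a ∈ Ck χ c → (a⁻¹ * u * a) * u ≠ u * (a⁻¹ * u * a) →
    ∃ (N : Type) (_ : Group N) (α σ : N ≃* N), FourData N α σ

/-- **End.** If for all points `c`, all `u` in the kernel inverted by `c` and all `a ∈ Ck c` the elements
`a⁻¹ u a` and `u` commute, then `NG χ` is impossible.
Proof (uses `S_Cent`). Let `c` be the given point, `1 ≠ α ∈ Ck c` (`nt`).
Step 1: `comp c (y⁻¹ α y) = α` for all `y` in the kernel. `q := y⁻¹ c y` is a point; take `m` in the kernel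
inverted by `c` with `m⁻¹ c m = q` (`pts_conj_ker`); `y m⁻¹` commutes with `c`, so with `α`
(`comm_Ck`), so `y⁻¹ α y = m⁻¹ α m = α g`, `g := (α⁻¹ m⁻¹ α) m`. `α⁻¹ m α` commutes
with `m` (hypothesis), so `α⁻¹ m⁻¹ α` does; if `m ≠ 1` then `g ∈ Ck m` and `c` inverts `g`
(Cent (ii)); `comp_unique`. (If `m = 1` then `g = 1`.)
Step 2: let `u, v ≠ 1` be inverted by `c`. Then `u` and `v` commute. Put `u' := α⁻¹ u⁻¹ α u`,
`v' := α⁻¹ v⁻¹ α v`: `u' ∈ Ck u`, `v' ∈ Ck v` (hypothesis), inverted by `c` (Cent (ii)).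
`(u v)⁻¹ α (u v) = v⁻¹ (α u') v = α v' v⁻¹ u' v`, so by Step 1 (`comp_mul_left`) `comp c (v' v⁻¹ u' v) = 1`
and `c` inverts `v' v⁻¹ u' v`: `v'⁻¹ v u'⁻¹ v⁻¹ = (v' v⁻¹ u' v)⁻¹ = v⁻¹ u'⁻¹ v v'⁻¹`; inverting,
`v u' v⁻¹ v' = v' v⁻¹ u' v`, so `u'` commutes with `v⁻¹ v' v⁻¹ = v' v⁻¹ v⁻¹ = (α⁻¹ v⁻¹ α) v⁻¹ =: k`
(`u' = (v⁻¹ v' v⁻¹) u' (v v'⁻¹ v)`). `k ∈ Ck v`, `k ≠ 1`: otherwise `α⁻¹ v⁻¹ α = v`, `α⁻¹ α⁻¹ v α α = v`,
`α α` commutes with `v`, so `α` does (`comm_of_comm_sq`), `v ∈ Ck α ≤ Ck c` (Cent (i)), `v = 1`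
(`iv_comm_one`). `u' ≠ 1`: otherwise `α` commutes with `u`, the same contradiction. So by Cent (iii) (`Ax u`,
`Ax v`, `Ax k`): `Ck u = Ck u'`, `Ck v = Ck k`, `k ∈ Ck u'`, so `Ck k = Ck u'` and `Ck u = Ck v`: `u`, `v`
commute.
Step 3: let the point `c` invert `u ≠ 1` (hypothesis). Every point `w` inverts `u`: `c w` is inverted by `c`
(`iv_self_mul`), so it is `1` or commutes with `u` by Step 2; so `w = c (c w)` inverts `u` (`Iv.mul_comm`). By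
`sep` `u = 1`, a contradiction. (In Steps 1, 2 `c` is this point and `α` any nontrivial element of `Ck c`.) -/
def S_End : Prop := ∀ (G : Type) [Group G] (χ : G →* C2), NG χ →
  (∃ c u : G, IsP χ c ∧ χ u = 1 ∧ u ≠ 1 ∧ Iv c u) →
  (∀ c u a : G, IsP χ c → χ u = 1 → Iv c u → a ∈ Ck χ c →
    (a⁻¹ * u * a) * u = u * (a⁻¹ * u * a)) → False

/-- **LFB.** `BG χ` implies that every finitely generated subgroup of `G` is finite.
Proof (uses `S_JIExB`, `S_NDB`, `S_TNorm`, `S_End`, and the hypothesis that `FourData` is impossible). For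
`H ≤ ker χ` finitely generated and infinite: JIExB gives `G', χ'` with `JIB χ'`, NDB: `NG χ'`. There is
`u ≠ 1` inverted by a point `c`: otherwise (`comp_factor`) the kernel is `Ck c`, commutative, finitely generated,
with odd orders, hence finite, contradiction to `JIB.inf` (or use `S_JIAbB` (1) with `K = ker χ'`). End and
TNorm give `FourData`. For a finitely generated `H ≤ G`: `H ∩ ker χ` has index `≤ 2` in `H`, so it is finitely
generated (see `LF.lean`), finite, and `H` is finite. -/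
def S_LFB : Prop := (∀ (N : Type) [Group N] (α σ : N ≃* N), ¬ FourData N α σ) →
  ∀ (G : Type) [Group G] (χ : G →* C2), BG χ → ∀ H : Subgroup G, H.FG → Finite H

end Pool.Agent.KleinB
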