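import Pool.Agent.Lib.MP_3c9215_al.SpecCore
import Pool.Agent.Lib.MP_3c9215_al.B.Spec

set_option autoImplicit false

/-!
# MP_3c9215_al, part B: the link to part 1, and the final statements
-/

namespace Pool.Agent.KleinB

open Pool.Agent.Klein (D sqr comp)

/-- **FourGeo.** `FourData N α σ` gives a nondegenerate geometry in the sense of part 1.
Proof. `G := N ⋊ K4` (`SemidirectProduct`), where `φ : K4 →* MulAut N` sends `(i, j)` to `α^i σ^j` (the four
automorphisms `1, α, σ, α σ`), `τ := SemidirectProduct.rightHom`. For `s ≠ t` nontrivial the common fixed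
points of `φ s` and `φ t` are trivial, nontrivial fixed points of `φ s` and of `φ t` do not commute, and
`φ s` has a nontrivial fixed point (six cases, from the three of `FourData`).
(a) Let `x` be an involution with `τ x = s ≠ 1`: `x = inl n * inr s`, `n φ_s(n) = 1`. With `m` the square root
(`m = n^((k+1)/2)`, `n^k = 1`, `k` odd): `φ_s m = m⁻¹`, `inl m * inr s * (inl m)⁻¹ = inl (m φ_s(m)⁻¹) inr s =
inl (m m) inr s = x`.
(b) Let `y` be an involution commuting with `inr s`, `τ y = t ≠ 1`, `y = inl k * inr t`: `φ_s k = k`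
(`K4` is commutative) and `φ_t k = k⁻¹`; the square root `m'` of `k` has `φ_s m' = m'`, `φ_t m' = m'⁻¹`, so
`inl m'` commutes with `inr s` and conjugates `inr t` to `y`.
So every pair of commuting involutions `x, y` with `τ x = s`, `τ y = t` nontrivial is conjugate to
`(inr s, inr t)`, by an element of the kernel.
`Geo.odd`: kernel elements are `inl n`. `Geo.ex`: `inr (1, 0)`, `inr (0, 1)`. `Geo.fix`: after conjugation
`x = inr s`, `y = inr t`, `n = inl e` with `φ_s e = e`, `φ_t e = e`, `s ≠ t`: `e = 1`. `ND`: `x ⊥ y` points: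
`τ x ≠ τ y` (`Klein.Perp.tau_ne`), after conjugation `f = inl f'`, `φ_s f' = f'`, `g = inl g'`, `φ_t g' = g'`.
`NT`: after conjugation `x = inr s`; a nontrivial fixed point of `φ_s`. -/
def S_FourGeo : Prop := ∀ (N : Type) [Group N] (α σ : N ≃* N), FourData N α σ →
  ∃ (G : Type) (_ : Group G) (τ : G →* Klein.K4), Klein.Geo τ ∧ Klein.ND τ ∧ Klein.NT τ

/-- **FourB.** `FourData` is impossible.
Proof. `S_FourGeo` gives `τ`; `Klein.S_CoreEx` (landed: `Klein.coreEx`, see `All.lean` for its arguments) gives a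
`Core` with `ρ ≠ 1`; `Klein.S_CTor` and `Klein.S_CNoTor` contradict it (case distinction as in `LF.lean`). -/
def S_FourB : Prop := ∀ (N : Type) [Group N] (α σ : N ≃* N), ¬ FourData N α σ

/-- **SemiB.** Let `K` be a group all of whose elements have odd order, `θ` an automorphism with `θ θ = 1`
and commuting fixed points. Then every finitely generated subgroup of `K` is finite.
Proof (uses the conclusion of `S_LFB`). `G := K ⋊ C2` (`C2 = Multiplicative (ZMod 2)` acts through `θ`),
`χ := rightHom`. `BG χ`: `odd`: kernel elements are `inl n`. `ex`: `inr` of the generator. `ab`: let `x` be an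
involution outside the kernel, `x = inl n * inr t`, `n θ(n) = 1`; `m` = square root of `n`, `θ m = m⁻¹`,
`x = inl m * inr t * (inl m)⁻¹`. Kernel elements commuting with `x` are conjugate by `inl m` to kernel elements
commuting with `inr t`, i.e. to `inl` of fixed points of `θ`, and these commute. Apply `S_LFB` to the image of
the given subgroup under the injective `inl`. -/
def S_SemiB : Prop := (∀ (G : Type) [Group G] (χ : G →* C2), BG χ → ∀ H : Subgroup G, H.FG → Finite H) →
  ∀ (K : Type) [Group K] (θ : K ≃* K), (∀ n : K, ∃ k : ℕ, Odd k ∧ n ^ k = 1) → (∀ n, θ (θ n) = n) →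
    (∀ m n, θ m = m → θ n = n → m * n = n * m) → ∀ H : Subgroup K, H.FG → Finite H

/-- **VB.** `G` periodic, `V` a non-cyclic subgroup of order 4 with `C_G(V) = V`, `v, b ∈ V` with `v ≠ 1`,
`b ≠ 1`, `b ≠ v`, and `b` not conjugate to `b v` by an element of `C_G(v)`. Let `K` be a subgroup of `G`
without involutions. If all elements of `K` commute with `v` then `K` is commutative.
Proof. `H := C_G(v)`, all computations modulo `v` (central in `H`). `v v = b b = 1`, `b v = v b` (see
`Klein.uf_of_hyp` in `Final.lean` for the elementary facts on `V`).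
(1) For `h ∈ H` let `g := b (h⁻¹ b h) ∈ H`, inverted by `b`. Claim: `g = w g₁` with `w ∈ {1, v}` and `g₁` a
power of `g` of odd order. Let `2^e m` be the order of `g`, `m` odd. `e = 0`: clear. Let `e ≥ 1` and let
`z` be the involution in `⟨g⟩`. `z` commutes with `b` (which inverts `z = z⁻¹`) and with `v`, so
`z ∈ C(V) = V`, `z ∈ {v, b, b v}`. `z = b`: `b` commutes with `g` and inverts it, so `g g = 1`, `g = z = b`,
`h⁻¹ b h = b g = 1`, impossible. `z = b v`: `b v` and `v` commute with `g`, so `b` does, `g g = 1`, `g = b v`,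
`h⁻¹ b h = b g = v`, `b = h v h⁻¹ = v`, impossible. So `z = v`. `e ≥ 2`: there is `y ∈ ⟨g⟩` with `y y = v`,
`b y b = y⁻¹`, `y⁻¹ b y = y⁻¹ (b y b) b = y⁻¹ y⁻¹ b = v b`, excluded by the hypothesis (`y ∈ C(v)`). So `e = 1`,
`g^m = v` and `g₁ := v g = g^(m+1)` has odd order.
(2) Let `r := sqr g₁`, `b r b = r⁻¹`. `h⁻¹ b h = b g = b w g₁ = w (r⁻¹ b r)`. If `w = v` then
`(h r⁻¹)⁻¹ b (h r⁻¹) = r h⁻¹ b h r⁻¹ = v b`, excluded by hypothesis. So `w = 1` and `h r⁻¹` commutes with `b`
and `v`: `h = c r`, `c ∈ V`, `r` of odd order, `r ∈ H`, `b r b = r⁻¹`.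
(3) For `k ∈ K`: `k = c r`. `c = b` or `b v`: `k k = (b r)(b r) = 1` (times `v v`), so `k` is an involution or
`1`; `k = 1` gives `r = c⁻¹` with odd order, impossible for an involution `c`. `c = v`: `k = v r`; `k^m = v` for
an odd `m` with `r^m = 1`, so `v ∈ K` is an involution: impossible. So `c = 1`: every `k ∈ K` is inverted by
`b`, so `K` is commutative. -/
def S_VB : Prop := ∀ (G : Type) [Group G], Monoid.IsTorsion G → ∀ V : Subgroup G, Nat.card V = 4 →
  ¬ IsCyclic V → Subgroup.centralizer (V : Set G) = V → ∀ v ∈ V, ∀ b ∈ V, v ≠ 1 → b ≠ 1 → b ≠ v →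
    (∀ g : G, g * v = v * g → g * b * g⁻¹ ≠ b * v) → ∀ K : Subgroup G,
      (∀ k ∈ K, k * k = 1 → k = 1) → (∀ k ∈ K, k * v = v * k) → ∀ m ∈ K, ∀ n ∈ K, m * n = n * m

end Pool.Agent.KleinB
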