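import Pool.Agent.Lib.MP_3c9215_al.All
import Pool.Agent.Lib.MP_3c9215_al.CTor
import Pool.Agent.Lib.MP_3c9215_al.B.SpecFour

set_option autoImplicit false

/-!
# MP_3c9215_al, part B: `FourData` is impossible
-/

namespace Pool.Agent.KleinB

theorem tFourB (hFourGeo : S_FourGeo) : S_FourB := by
  intro N _ α σ hd
  obtain ⟨G, _, τ, hg, hnd, hnt⟩ := hFourGeo N α σ hd
  have hHmlFix := Klein.hmlFix Klein.fix1
  have hRule := Klein.rule Klein.fix1
  have hDet := Klein.det hRule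
  have hHmlComm := Klein.hmlComm Klein.hmlBasic hRule hDet
  have hLemP := Klein.lemP Klein.hmlBasic hHmlFix
  have hLemT := Klein.lemT Klein.hmlBasic
  have hE124 := Klein.e124 Klein.fix1 hRule hDet Klein.eConj
  have hEEx := Klein.eEx Klein.hmlEx Klein.hmlBasic hHmlFix hLemP Klein.eConj Klein.eComm
  have hWEx := Klein.wEx Klein.hmlEx Klein.hmlBasic hHmlFix Klein.eConj Klein.eComm hE124 hEEx
  have hMBasic := Klein.mBasic Klein.eConj hE124 hWEx
  have hMRel := Klein.mRel Klein.hmlBasic Klein.eConj hMBasic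
  have hMInt := Klein.mInt Klein.hmlBasic Klein.eConj hMBasic hMRel
  have hCoreEx := Klein.coreEx Klein.fix1 Klein.hmlEx Klein.hmlBasic hHmlFix hHmlComm hLemP hLemT
    Klein.eConj Klein.eComm hE124 hWEx hMBasic hMRel hMInt
  have hCTor := Klein.cTor Klein.cBasic (Klein.cFin Klein.cBasic) (Klein.cUni Klein.cBasic)
  have hCNoTor := Klein.cNoTor Klein.cBasic (Klein.cRel Klein.cBasic) Klein.tf
  obtain ⟨C, hρ⟩ := hCoreEx G τ hg hnd hnt
  by_cases hw : ∃ w ∈ C.W, w ≠ 0 ∧ ∃ n : ℕ, 1 ≤ n ∧ n • w = 0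
  · exact hCTor C hρ hw
  · push Not at hw
    refine hCNoTor C hρ fun w hwW n hn hnw => ?_
    by_contra hne
    exact hw w hwW hne n hn hnw

end Pool.Agent.KleinB
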