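import Pool.Agent.Lib.MP_3c9215_al.B.SpecFour

set_option autoImplicit false

/-!
# MP_3c9215_al, part B: the semidirect product with the four-group (FourGeo)
-/

namespace Pool.Agent.KleinB

open Pool.Agent.Klein (K4)

local instance : DecidableEq K4 := inferInstanceAs (DecidableEq (ZMod 2 × ZMod 2))

private abbrev fourgeo_a : K4 := Multiplicative.ofAdd (1, 0)

private abbrev fourgeo_b : K4 := Multiplicative.ofAdd (0, 1)

private abbrev fourgeo_c : K4 := Multiplicative.ofAdd (1, 1)

private lemma fourgeo_cases : ∀ s : K4, s = 1 ∨ s = fourgeo_a ∨ s = fourgeo_b ∨ s = fourgeo_c := by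
  decide

private def fourgeo_f {N : Type} [Group N] (α σ : MulAut N) (s : K4) : MulAut N :=
  if s = 1 then 1 else if s = fourgeo_a then α else if s = fourgeo_b then σ else α * σ

section
variable {N : Type} [Group N] (α σ : MulAut N)

private lemma fourgeo_f1 : fourgeo_f α σ 1 = 1 := if_pos rfl

private lemma fourgeo_fa : fourgeo_f α σ fourgeo_a = α := by
  unfold fourgeo_f
  rw [if_neg (by decide), if_pos rfl]

private lemma fourgeo_fb : fourgeo_f α σ fourgeo_b = σ := by
  unfold fourgeo_f
  rw [if_neg (by decide), if_neg (by decide), if_pos rfl]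

private lemma fourgeo_fc : fourgeo_f α σ fourgeo_c = α * σ := by
  unfold fourgeo_f
  rw [if_neg (by decide), if_neg (by decide), if_neg (by decide)]

end

private lemma fourgeo_tab : fourgeo_a * fourgeo_a = 1 ∧ fourgeo_a * fourgeo_b = fourgeo_c ∧
    fourgeo_a * fourgeo_c = fourgeo_b ∧ fourgeo_b * fourgeo_a = fourgeo_c ∧
    fourgeo_b * fourgeo_b = 1 ∧ fourgeo_b * fourgeo_c = fourgeo_a ∧
    fourgeo_c * fourgeo_a = fourgeo_b ∧ fourgeo_c * fourgeo_b = fourgeo_a ∧
    fourgeo_c * fourgeo_c = 1 := by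
  decide

/-- the action of the four-group -/
private def fourgeo_phi {N : Type} [Group N] (α σ : MulAut N) (h1 : ∀ n, α (α n) = n)
    (h2 : ∀ n, σ (σ n) = n) (h3 : ∀ n, α (σ n) = σ (α n)) : K4 →* MulAut N where
  toFun := fourgeo_f α σ
  map_one' := fourgeo_f1 α σ
  map_mul' s t := by
    obtain ⟨t1, t2, t3, t4, t5, t6, t7, t8, t9⟩ := fourgeo_tab
    rcases fourgeo_cases s with rfl | rfl | rfl | rfl <;>
      rcases fourgeo_cases t with rfl | rfl | rfl | rfl <;>
      simp only [one_mul, mul_one, t1, t2, t3, t4, t5, t6, t7, t8, t9, fourgeo_f1, fourgeo_fa,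
        fourgeo_fb, fourgeo_fc] <;>
      (ext n; simp only [MulAut.mul_apply, MulAut.one_apply, h1, h2, h3])

section
variable {N : Type} [Group N] {φ : K4 →* MulAut N}

open SemidirectProduct

private lemma fourgeo_sq (s : K4) (n : N) : φ s (φ s n) = n := by
  rw [← MulAut.mul_apply, ← map_mul, show s * s = 1 from by revert s; decide, map_one,
    MulAut.one_apply]

/-- a square root -/
private lemma fourgeo_root (hodd : ∀ n : N, ∃ k : ℕ, Odd k ∧ n ^ k = 1) (n : N) :
    ∃ j : ℕ, n ^ j * n ^ j = n := by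
  obtain ⟨k, ⟨l, rfl⟩, hk⟩ := hodd n
  refine ⟨l + 1, ?_⟩
  rw [← pow_add, show l + 1 + (l + 1) = (2 * l + 1) + 1 by ring, pow_succ, hk, one_mul]

private lemma fourgeo_conj_left (M : N) (s : K4) :
    ((inl M : N ⋊[φ] K4) * inr s * (inl M)⁻¹).left = M * φ s M⁻¹ := by
  simp [SemidirectProduct.mul_left, SemidirectProduct.inv_left]

private lemma fourgeo_conj_right (M : N) (s : K4) :
    ((inl M : N ⋊[φ] K4) * inr s * (inl M)⁻¹).right = s := by
  simp [SemidirectProduct.mul_right]

private lemma fourgeo_one (hodd : ∀ n : N, ∃ k : ℕ, Odd k ∧ n ^ k = 1) {x : N ⋊[φ] K4}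
    (hx : x * x = 1) : ∃ j : ℕ, x.left ^ j * x.left ^ j = x.left ∧
      φ x.right x.left = x.left⁻¹ ∧
      x = inl (x.left ^ j) * inr x.right * (inl (x.left ^ j))⁻¹ := by
  have h1 : x.left * φ x.right x.left = 1 := by
    have := congrArg SemidirectProduct.left hx
    rwa [SemidirectProduct.mul_left, SemidirectProduct.one_left] at this
  have h2 : φ x.right x.left = x.left⁻¹ := (eq_inv_of_mul_eq_one_right h1)
  obtain ⟨j, hj⟩ := fourgeo_root hodd x.left
  refine ⟨j, hj, h2, SemidirectProduct.ext ?_ ?_⟩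
  · rw [fourgeo_conj_left, map_inv, map_pow, h2, inv_pow, inv_inv, hj]
  · rw [fourgeo_conj_right]

/-- two commuting involutions are conjugate to elements of the complement -/
private lemma fourgeo_pair (hodd : ∀ n : N, ∃ k : ℕ, Odd k ∧ n ^ k = 1) {x y : N ⋊[φ] K4}
    (hx : x * x = 1) (hy : y * y = 1) (hxy : x * y = y * x) :
    ∃ M : N, x = inl M * inr x.right * (inl M)⁻¹ ∧ y = inl M * inr y.right * (inl M)⁻¹ := by
  obtain ⟨j, -, -, hj⟩ := fourgeo_one hodd hx
  set m := x.left ^ j with hm
  obtain ⟨y', hyd⟩ : ∃ y' : N ⋊[φ] K4, y' = (inl m)⁻¹ * y * inl m := ⟨_, rfl⟩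
  have hy' : y' * y' = 1 := by
    calc y' * y' = (inl m)⁻¹ * (y * y) * inl m := by
          rw [hyd]
          group
      _ = 1 := by rw [hy]; group
  have hr : y'.right = y.right := by
    rw [hyd]
    simp [SemidirectProduct.mul_right]
  have hcomm : (inr x.right : N ⋊[φ] K4) * y' = y' * inr x.right := by
    have e : (inr x.right : N ⋊[φ] K4) = (inl m)⁻¹ * x * inl m := by
      conv_rhs => rw [hj]
      group
    rw [e, hyd]
    calc (inl m)⁻¹ * x * inl m * ((inl m)⁻¹ * y * inl m) = (inl m)⁻¹ * (x * y) * inl m := by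
          group
      _ = (inl m)⁻¹ * (y * x) * inl m := by rw [hxy]
      _ = (inl m)⁻¹ * y * inl m * ((inl m)⁻¹ * x * inl m) := by group
  obtain ⟨i, h1, h2, h3⟩ := fourgeo_one hodd hy'
  have h4 : φ x.right y'.left = y'.left := by
    have := congrArg SemidirectProduct.left hcomm
    rw [SemidirectProduct.mul_left, SemidirectProduct.mul_left, right_inr, left_inr,
      one_mul, map_one, mul_one] at this
    exact this
  have h5 : (inl (y'.left ^ i) : N ⋊[φ] K4) * inr x.right * (inl (y'.left ^ i))⁻¹ =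
      inr x.right := by
    refine SemidirectProduct.ext ?_ ?_
    · rw [fourgeo_conj_left, map_inv, map_pow, h4, left_inr, mul_inv_cancel]
    · rw [fourgeo_conj_right, right_inr]
  refine ⟨m * y'.left ^ i, ?_, ?_⟩
  · rw [map_mul, mul_inv_rev]
    calc x = inl m * inr x.right * (inl m)⁻¹ := hj
      _ = inl m * (inl (y'.left ^ i) * inr x.right * (inl (y'.left ^ i))⁻¹) * (inl m)⁻¹ := by
          rw [h5]
      _ = inl m * inl (y'.left ^ i) * inr x.right * ((inl (y'.left ^ i))⁻¹ * (inl m)⁻¹) := by
          group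
  · rw [map_mul, mul_inv_rev]
    calc y = inl m * y' * (inl m)⁻¹ := by
          rw [hyd]
          group
      _ = inl m * (inl (y'.left ^ i) * inr y'.right * (inl (y'.left ^ i))⁻¹) * (inl m)⁻¹ := by
          rw [← h3]
      _ = inl m * inl (y'.left ^ i) * inr y.right * ((inl (y'.left ^ i))⁻¹ * (inl m)⁻¹) := by
          rw [hr]
          group

/-- kernel elements -/
private lemma fourgeo_ker {n : N ⋊[φ] K4} (hn : n.right = 1) : n = inl n.left :=
  SemidirectProduct.ext (by rw [left_inl]) (by rw [hn, right_inl])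

/-- the centralizer of `x` in the kernel -/
private lemma fourgeo_comm {x n : N ⋊[φ] K4} {M : N} {s : K4}
    (hx : x = inl M * inr s * (inl M)⁻¹) (hn : n.right = 1) (hc : n * x = x * n) :
    φ s (M⁻¹ * n.left * M) = M⁻¹ * n.left * M := by
  have h1 := congrArg SemidirectProduct.left hc
  rw [SemidirectProduct.mul_left, SemidirectProduct.mul_left, hn, map_one, MulAut.one_apply, hx,
    fourgeo_conj_left, fourgeo_conj_right, map_inv] at h1
  rw [map_mul, map_mul, map_inv]
  calc (φ s M)⁻¹ * φ s n.left * φ s M = M⁻¹ * (M * (φ s M)⁻¹ * φ s n.left) * φ s M := by group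
    _ = M⁻¹ * (n.left * (M * (φ s M)⁻¹)) * φ s M := by rw [h1]
    _ = M⁻¹ * n.left * M := by group

end

theorem tFourGeo : S_FourGeo := by
  intro N _ α σ ⟨hodd, hα, hσ, hασ, h0, h12, h13, h23, ⟨f1, hf1, hf1'⟩, ⟨f2, hf2, hf2'⟩,
    ⟨f3, hf3, hf3'⟩⟩
  let A : MulAut N := α
  let S : MulAut N := σ
  let φ : K4 →* MulAut N := fourgeo_phi A S hα hσ hασ
  have hφa : ∀ n, φ fourgeo_a n = α n := fun n => by
    change fourgeo_f A S fourgeo_a n = α n
    rw [fourgeo_fa]
  have hφb : ∀ n, φ fourgeo_b n = σ n := fun n => by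
    change fourgeo_f A S fourgeo_b n = σ n
    rw [fourgeo_fb]
  have hφc : ∀ n, φ fourgeo_c n = α (σ n) := fun n => by
    change fourgeo_f A S fourgeo_c n = α (σ n)
    rw [fourgeo_fc]
    rfl
  -- the three facts
  have h13' : ∀ n, α n = n → α (σ n) = n → n = 1 := by
    intro n hn hn'
    rw [hασ, hn] at hn'
    exact h0 n hn hn'
  have h23' : ∀ n, σ n = n → α (σ n) = n → n = 1 := by
    intro n hn hn'
    rw [hn] at hn'
    exact h0 n hn' hn
  have P2 : ∀ s t : K4, s ≠ 1 → t ≠ 1 → s ≠ t → ∀ n, φ s n = n → φ t n = n → n = 1 := by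
    intro s t hs ht hst n h1 h2
    rcases fourgeo_cases s with rfl | rfl | rfl | rfl
    · exact absurd rfl hs
    all_goals rcases fourgeo_cases t with rfl | rfl | rfl | rfl
    all_goals first
      | exact absurd rfl ht
      | exact absurd rfl hst
      | (simp only [hφa, hφb, hφc] at h1 h2
         first
          | exact h0 n h1 h2
          | exact h0 n h2 h1
          | exact h13' n h1 h2
          | exact h13' n h2 h1
          | exact h23' n h1 h2
          | exact h23' n h2 h1)
  have P3 : ∀ s t : K4, s ≠ 1 → t ≠ 1 → s ≠ t → ∀ f g, φ s f = f → φ t g = g →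
      f * g = g * f → f = 1 ∨ g = 1 := by
    intro s t hs ht hst f g h1 h2 hfg
    rcases fourgeo_cases s with rfl | rfl | rfl | rfl
    · exact absurd rfl hs
    all_goals rcases fourgeo_cases t with rfl | rfl | rfl | rfl
    all_goals first
      | exact absurd rfl ht
      | exact absurd rfl hst
      | (simp only [hφa, hφb, hφc] at h1 h2
         first
          | exact h12 f g h1 h2 hfg
          | exact (h12 g f h2 h1 hfg.symm).symm
          | exact h13 f g h1 h2 hfg
          | exact (h13 g f h2 h1 hfg.symm).symm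
          | exact h23 f g h1 h2 hfg
          | exact (h23 g f h2 h1 hfg.symm).symm)
  have P4 : ∀ s : K4, s ≠ 1 → ∃ f, f ≠ 1 ∧ φ s f = f := by
    intro s hs
    rcases fourgeo_cases s with rfl | rfl | rfl | rfl
    · exact absurd rfl hs
    · exact ⟨f1, hf1, by rw [hφa, hf1']⟩
    · exact ⟨f2, hf2, by rw [hφb, hf2']⟩
    · exact ⟨f3, hf3, by rw [hφc, hf3']⟩
  let τ : N ⋊[φ] K4 →* K4 := SemidirectProduct.rightHom
  have hτ : ∀ x : N ⋊[φ] K4, τ x = x.right := fun x => rfl
  have hG : Klein.Geo τ := by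
    refine ⟨fun n hn => ?_, ?_, ?_⟩
    · rw [hτ] at hn
      obtain ⟨k, hk, hk'⟩ := hodd n.left
      refine ⟨k, hk, ?_⟩
      rw [fourgeo_ker hn, ← map_pow, hk', map_one]
    · intro x y n hx hy hxy htx hty htxy hn hnx hny
      obtain ⟨M, h1, h2⟩ := fourgeo_pair hodd hx hy hxy
      have h3 := fourgeo_comm h1 hn hnx
      have h4 := fourgeo_comm h2 hn hny
      have h5 := P2 _ _ htx hty htxy _ h3 h4
      have h6 : n.left = 1 := by
        calc n.left = M * (M⁻¹ * n.left * M) * M⁻¹ := by group
          _ = 1 := by rw [h5]; group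
      rw [fourgeo_ker hn, h6, map_one]
    · refine ⟨SemidirectProduct.inr fourgeo_a, SemidirectProduct.inr fourgeo_b, ?_, ?_, ?_, ?_,
        ?_, ?_⟩
      · rw [← map_mul, fourgeo_tab.1, map_one]
      · rw [← map_mul, fourgeo_tab.2.2.2.2.1, map_one]
      · rw [← map_mul, fourgeo_tab.2.1, ← map_mul, fourgeo_tab.2.2.2.1]
      · rw [hτ, SemidirectProduct.right_inr]
        decide
      · rw [hτ, SemidirectProduct.right_inr]
        decide
      · rw [hτ, hτ, SemidirectProduct.right_inr, SemidirectProduct.right_inr]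
        decide
  refine ⟨N ⋊[φ] K4, inferInstance, τ, hG, ?_, ?_⟩
  · intro x y f g hx hy hp hf hg hfg
    have ht := hp.tau_ne hG hx hy
    obtain ⟨M, h1, h2⟩ := fourgeo_pair hodd hx.1 hy.1 hp.1
    have h3 := fourgeo_comm h1 hf.1 hf.2
    have h4 := fourgeo_comm h2 hg.1 hg.2
    have hfg' : f.left * g.left = g.left * f.left := by
      have := congrArg SemidirectProduct.left hfg
      rw [SemidirectProduct.mul_left, SemidirectProduct.mul_left, show f.right = 1 from hf.1,
        show g.right = 1 from hg.1, map_one, MulAut.one_apply, MulAut.one_apply] at this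
      exact this
    have h5 := P3 _ _ hx.2 hy.2 ht _ _ h3 h4 (by
      calc M⁻¹ * f.left * M * (M⁻¹ * g.left * M) = M⁻¹ * (f.left * g.left) * M := by group
        _ = M⁻¹ * (g.left * f.left) * M := by rw [hfg']
        _ = M⁻¹ * g.left * M * (M⁻¹ * f.left * M) := by group)
    have h6 : ∀ n : N ⋊[φ] K4, n.right = 1 → M⁻¹ * n.left * M = 1 → n = 1 := by
      intro n hn h
      have h7 : n.left = 1 := by
        calc n.left = M * (M⁻¹ * n.left * M) * M⁻¹ := by group
          _ = 1 := by rw [h]; group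
      rw [fourgeo_ker hn, h7, map_one]
    exact h5.imp (h6 f hf.1) (h6 g hg.1)
  · intro x hx
    obtain ⟨M, h1, -⟩ := fourgeo_pair hodd hx.1 hx.1 rfl
    obtain ⟨f0, hf0, hf0'⟩ := P4 x.right hx.2
    refine ⟨SemidirectProduct.inl (M * f0 * M⁻¹), ⟨?_, ?_⟩, ?_⟩
    · rw [hτ, SemidirectProduct.right_inl]
    · have h2 : (SemidirectProduct.inl f0 : N ⋊[φ] K4) * SemidirectProduct.inr x.right =
          SemidirectProduct.inr x.right * SemidirectProduct.inl f0 := by
        refine SemidirectProduct.ext ?_ ?_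
        · rw [SemidirectProduct.mul_left, SemidirectProduct.mul_left,
            SemidirectProduct.left_inl, SemidirectProduct.left_inr, map_one, mul_one,
            SemidirectProduct.right_inr, hf0', one_mul]
        · rw [SemidirectProduct.mul_right, SemidirectProduct.mul_right,
            SemidirectProduct.right_inl, SemidirectProduct.right_inr, one_mul, mul_one]
      conv_lhs => rw [h1]
      conv_rhs => rw [h1]
      rw [map_mul, map_mul, map_inv]
      generalize (SemidirectProduct.inl M : N ⋊[φ] K4) = m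
      generalize (SemidirectProduct.inl f0 : N ⋊[φ] K4) = f at h2
      generalize (SemidirectProduct.inr x.right : N ⋊[φ] K4) = r at h2
      calc m * f * m⁻¹ * (m * r * m⁻¹) = m * (f * r) * m⁻¹ := by group
        _ = m * (r * f) * m⁻¹ := by rw [h2]
        _ = m * r * m⁻¹ * (m * f * m⁻¹) := by group
    · intro h2
      have h3 := congrArg SemidirectProduct.left h2
      rw [SemidirectProduct.left_inl, SemidirectProduct.one_left] at h3
      apply hf0
      calc f0 = M⁻¹ * (M * f0 * M⁻¹) * M := by group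
        _ = 1 := by rw [h3]; group

end Pool.Agent.KleinB
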