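import Pool.Agent.Lib.MP_3c9215_al.B.Spec

/-!
# MP_3c9215_al, part B: inversion of a geometric mean
-/

namespace Pool.Agent.KleinB

open Pool.Agent.Klein (D sqr comp)

theorem tGPp (hGP : S_GP) : S_GPp := by
  intro G _ χ h w X Y hw hX hY
  have hXY : χ (X⁻¹ * Y) = 1 := chi_mul_one (chi_inv_one hX) hY
  have hZ1 : χ (hs X Y) = 1 := hs_chi' hX hY
  have ww : w * w = 1 := hw.1
  have hwX : χ (w * X)⁻¹ ≠ 1 := chi_inv_ne (chi_mul_ker hw.2 hX)
  constructor
  · intro hi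
    have hz : IsP χ (w * hs X Y) := (iv_iff_isP hw hZ1).1 hi
    have hs1 : hs X Y * X⁻¹ * hs X Y = Y := hs_spec h hXY
    have zz : (w * hs X Y) * (w * hs X Y) = 1 := hz.1
    rw [isConj_iff]
    refine ⟨w * hs X Y, ?_⟩
    rw [hz.inv_eq, mul_inv_rev, hw.inv_eq]
    calc w * hs X Y * (X⁻¹ * w) * (w * hs X Y)
        = w * (hs X Y * X⁻¹ * (w * w) * hs X Y) := by group
      _ = w * Y := by rw [ww, mul_one, hs1]
  · intro hc
    obtain ⟨⟨z, hz, hz2⟩, -⟩ := hGP G χ h (w * X)⁻¹ (w * Y) hwX hc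
    have zw : χ (w * z) = 1 := chi_mul_pts hw.2 hz.2
    have e : w * z * X⁻¹ * (w * z) = Y := by
      rw [mul_inv_rev, hw.inv_eq] at hz2
      calc w * z * X⁻¹ * (w * z) = w * (z * (X⁻¹ * w) * z) := by group
        _ = w * (w * Y) := by rw [hz2]
        _ = Y := by rw [← mul_assoc, ww, one_mul]
    have hZ : hs X Y = w * z := hs_unique h (chi_mul_one (chi_inv_one hX) zw) e
    rw [hZ, iv_iff_isP hw zw, ← mul_assoc, ww, one_mul]
    exact hz

end Pool.Agent.KleinB
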