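import Pool.Agent.Lib.MP_3c9215_al.B.Spec

set_option autoImplicit false

/-!
# MP_3c9215_al, part B: the graph of the reflection (1)
-/

namespace Pool.Agent.KleinB

open Pool.Agent.Klein (D sqr comp)

section
variable {G : Type} [Group G] {χ : G →* C2}

lemma gam1_wd_nil : wd ([] : List (G × G)) = 1 := rfl

lemma gam1_wd'_nil : wd' ([] : List (G × G)) = 1 := rfl

lemma gam1_wd_cons (p : G × G) (l : List (G × G)) : wd (p :: l) = p.1 * p.2 * wd l := by
  simp [wd]

lemma gam1_wd'_cons (p : G × G) (l : List (G × G)) : wd' (p :: l) = p.1 * p.2⁻¹ * wd' l := by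
  simp [wd']

lemma gam1_wd_append (l l' : List (G × G)) : wd (l ++ l') = wd l * wd l' := by
  simp [wd]

lemma gam1_wd'_append (l l' : List (G × G)) : wd' (l ++ l') = wd' l * wd' l' := by
  simp [wd']

lemma gam1_vld_append {u c : G} {l l' : List (G × G)} (h : Vld χ u c l) (h' : Vld χ u c l') :
    Vld χ u c (l ++ l') := by
  intro p hp
  rcases List.mem_append.1 hp with h1 | h1
  · exact h p h1
  · exact h' p h1

lemma gam1_inv {u c : G} : ∀ l : List (G × G), Vld χ u c l →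
    ∃ l', Vld χ u c l' ∧ wd l' = (wd l)⁻¹ ∧ wd' l' = (wd' l)⁻¹ := by
  intro l
  induction l with
  | nil =>
    intro h
    exact ⟨[], h, by simp [gam1_wd_nil], by simp [gam1_wd'_nil]⟩
  | cons p t ih =>
    intro h
    obtain ⟨t', h1, h2, h3⟩ := ih (fun q hq => h q (List.mem_cons_of_mem _ hq))
    obtain ⟨h4, h5⟩ := h p (List.mem_cons_self)
    refine ⟨t' ++ [(1, p.2⁻¹), (p.1⁻¹, 1)], gam1_vld_append h1 ?_, ?_, ?_⟩
    · intro q hq
      simp only [List.mem_cons, List.not_mem_nil, or_false] at hq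
      rcases hq with rfl | rfl
      · exact ⟨one_mem _, inv_mem h5⟩
      · exact ⟨inv_mem h4, one_mem _⟩
    · rw [gam1_wd_append, h2, gam1_wd_cons p t, gam1_wd_cons, gam1_wd_cons, gam1_wd_nil]
      simp only
      group
    · rw [gam1_wd'_append, h3, gam1_wd'_cons p t, gam1_wd'_cons, gam1_wd'_cons, gam1_wd'_nil]
      simp only
      group

/-- the pairs of values of valid words form a subgroup -/
def gam1_W (χ : G →* C2) (u c : G) : Subgroup (G × G) where
  carrier := {q | ∃ l, Vld χ u c l ∧ wd l = q.1 ∧ wd' l = q.2}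
  mul_mem' := by
    rintro p q ⟨l, h1, h2, h3⟩ ⟨l', h1', h2', h3'⟩
    refine ⟨l ++ l', gam1_vld_append h1 h1', ?_, ?_⟩
    · rw [gam1_wd_append, h2, h2']; rfl
    · rw [gam1_wd'_append, h3, h3']; rfl
  one_mem' := ⟨[], by intro p hp; simp at hp, rfl, rfl⟩
  inv_mem' := by
    rintro p ⟨l, h1, h2, h3⟩
    obtain ⟨l', h1', h2', h3'⟩ := gam1_inv l h1
    exact ⟨l', h1', by rw [h2', h2]; rfl, by rw [h3', h3]; rfl⟩

lemma gam1_le (u c : G) : Gam χ u c ≤ gam1_W χ u c := by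
  unfold Gam
  rw [Subgroup.closure_le]
  rintro q (⟨f, hf, rfl⟩ | ⟨a, ha, rfl⟩)
  · refine ⟨[(f, 1)], ?_, ?_, ?_⟩
    · intro p hp
      simp only [List.mem_cons, List.not_mem_nil, or_false] at hp
      subst hp
      exact ⟨hf, one_mem _⟩
    · simp [gam1_wd_cons, gam1_wd_nil]
    · simp [gam1_wd'_cons, gam1_wd'_nil]
  · refine ⟨[(1, a)], ?_, ?_, ?_⟩
    · intro p hp
      simp only [List.mem_cons, List.not_mem_nil, or_false] at hp
      subst hp
      exact ⟨one_mem _, ha⟩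
    · simp [gam1_wd_cons, gam1_wd_nil]
    · simp [gam1_wd'_cons, gam1_wd'_nil]

lemma gam1_chi {u c : G} : ∀ l : List (G × G), Vld χ u c l → χ (wd l) = 1 ∧ χ (wd' l) = 1 := by
  intro l
  induction l with
  | nil =>
    intro h
    exact ⟨by simp [gam1_wd_nil], by simp [gam1_wd'_nil]⟩
  | cons p t ih =>
    intro h
    obtain ⟨h1, h2⟩ := ih (fun q hq => h q (List.mem_cons_of_mem _ hq))
    obtain ⟨h4, h5⟩ := h p (List.mem_cons_self)
    constructor
    · rw [gam1_wd_cons]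
      exact chi_mul_one (chi_mul_one h4.1 h5.1) h1
    · rw [gam1_wd'_cons]
      exact chi_mul_one (chi_mul_one h4.1 (chi_inv_one h5.1)) h2

end

theorem tGam1 (hSym : S_Sym) (hCent : S_Cent) : S_Gam1 := by
  intro G _ χ h c u hc hu hu1 hcu g g' hg
  obtain ⟨hC1, hC2, hC3, hC4⟩ := hCent G χ h
  refine ⟨?_, ?_, ?_⟩
  · obtain ⟨l, h1, h2, h3⟩ := gam1_le u c hg
    have h4 := gam1_chi l h1
    have h5 : Sy c l := hSym G χ h c u l hc hu hu1 hcu h1
    have h2' : wd l = g := h2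
    have h3' : wd' l = g' := h3
    unfold Sy at h5
    rw [h2', h3'] at h5 h4
    exact ⟨h4.1, h4.2, h5⟩
  · -- the swap
    have key : Gam χ u c ≤ (Gam χ u c).comap
        ((MonoidHom.snd G G).prod (MonoidHom.fst G G)) := by
      conv_lhs => unfold Gam
      rw [Subgroup.closure_le]
      rintro q (⟨f, hf, rfl⟩ | ⟨a, ha, rfl⟩)
      · exact Subgroup.subset_closure (Or.inl ⟨f, hf, rfl⟩)
      · refine Subgroup.subset_closure (Or.inr ⟨a⁻¹, inv_mem ha, ?_⟩)
        simp [MonoidHom.prod_apply]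
    have := key hg
    exact this
  · have key : Gam χ u c ≤ (Gam χ u c).comap
        (MulAut.conj (⟨c, c⟩ : G × G)).toMonoidHom := by
      conv_lhs => unfold Gam
      rw [Subgroup.closure_le]
      rintro q (⟨f, hf, rfl⟩ | ⟨a, ha, rfl⟩)
      · have h1 : Iv c f := hC2 c u f hc hu hu1 hcu hf
        have h2 : c * f * c⁻¹ = f⁻¹ := h1
        refine Subgroup.subset_closure (Or.inl ⟨f⁻¹, inv_mem hf, ?_⟩)
        change (c * f * c⁻¹, c * f * c⁻¹) = (f⁻¹, f⁻¹)
        rw [h2]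
      · have h2 : c * a * c⁻¹ = a := by rw [← ha.2]; group
        have h3 : c * a⁻¹ * c⁻¹ = a⁻¹ := by
          calc c * a⁻¹ * c⁻¹ = (c * a * c⁻¹)⁻¹ := by group
            _ = a⁻¹ := by rw [h2]
        refine Subgroup.subset_closure (Or.inr ⟨a, ha, ?_⟩)
        change (c * a * c⁻¹, c * a⁻¹ * c⁻¹) = (a, a⁻¹)
        rw [h2, h3]
    have h1 : (c * g * c⁻¹, c * g' * c⁻¹) ∈ Gam χ u c := key hg
    rwa [pconj hc, pconj hc] at h1

end Pool.Agent.KleinB
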