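import Pool.Agent.Lib.MP_3c9215_al.B.Spec

set_option autoImplicit false

/-!
# MP_3c9215_al, part B: the graph of the reflection (2)
-/

namespace Pool.Agent.KleinB

open Pool.Agent.Klein (D sqr comp)

section
variable {G : Type} [Group G] {χ : G →* C2}

lemma gam2_iv (hGam1 : S_Gam1) (h : NG χ) {c u k g₀ k₀ : G} (hc : IsP χ c) (hu : χ u = 1)
    (hu1 : u ≠ 1) (hcu : Iv c u) (hk : (1, k) ∈ Gam χ u c) (hh : (g₀, k₀) ∈ Gam χ u c) :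
    Iv (k₀⁻¹ * c * k₀) k := by
  have hG := hGam1 G χ h c u hc hu hu1 hcu
  have hkχ : χ k = 1 := (hG 1 k hk).1.2.1
  have e1 : (c * g₀⁻¹ * c, c * k₀⁻¹ * c) ∈ Gam χ u c :=
    (hG g₀⁻¹ k₀⁻¹ (inv_mem hh)).2.2
  have e2 : (c * g₀⁻¹ * c * g₀, c * k₀⁻¹ * c * k₀) ∈ Gam χ u c := mul_mem e1 hh
  have e3 : (c * g₀⁻¹ * c * g₀ * 1, c * k₀⁻¹ * c * k₀ * k) ∈ Gam χ u c := mul_mem e2 hk
  rw [mul_one] at e3
  have c1 := (hG _ _ e2).1.2.2
  have c2 := (hG _ _ e3).1.2.2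
  have c3 : IsConj (c * (c * k₀⁻¹ * c * k₀))⁻¹ (c * (c * k₀⁻¹ * c * k₀ * k))⁻¹ := c1.symm.trans c2
  have c4 := IsConj.inv' c3
  rw [inv_inv, inv_inv] at c4
  have e4 : c * (c * k₀⁻¹ * c * k₀) = k₀⁻¹ * c * k₀ := by
    calc c * (c * k₀⁻¹ * c * k₀) = (c * c) * (k₀⁻¹ * c * k₀) := by group
      _ = k₀⁻¹ * c * k₀ := by rw [hc.1, one_mul]
  have e5 : c * (c * k₀⁻¹ * c * k₀ * k) = k₀⁻¹ * c * k₀ * k := by
    rw [← mul_assoc, e4]
  rw [e4, e5] at c4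
  have hj : IsP χ (k₀⁻¹ * c * k₀) := hc.conj' k₀
  exact (iv_iff_isP hj hkχ).2 (isP_of_isConj hj c4)

end

theorem tGam2 (hGam1 : S_Gam1) (hCent : S_Cent) : S_Gam2 := by
  intro G _ χ h c u a k hc hu hcu ha hne hk
  obtain ⟨hC1, hC2, hC3, hC4⟩ := hCent G χ h
  have hu1 : u ≠ 1 := by
    rintro rfl
    apply hne
    group
  have hG := hGam1 G χ h c u hc hu hu1 hcu
  have hkχ : χ k = 1 := (hG 1 k hk).1.2.1
  have huu : u ∈ Ck χ u := ⟨hu, rfl⟩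
  have m1 : (u, u) ∈ Gam χ u c := Subgroup.subset_closure (Or.inl ⟨u, huu, rfl⟩)
  have m2 : (a⁻¹, a) ∈ Gam χ u c :=
    Subgroup.subset_closure (Or.inr ⟨a⁻¹, inv_mem ha, by rw [inv_inv]⟩)
  have m3 : (u * a⁻¹, u * a) ∈ Gam χ u c := mul_mem m1 m2
  have i1 : Iv c k := by
    have := gam2_iv hGam1 h hc hu hu1 hcu hk (one_mem (Gam χ u c))
    have e : (1 : G)⁻¹ * c * 1 = c := by simp
    rwa [e] at this
  have i2 : Iv (u⁻¹ * c * u) k := gam2_iv hGam1 h hc hu hu1 hcu hk m1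
  have i3 : Iv ((u * a)⁻¹ * c * (u * a)) k := gam2_iv hGam1 h hc hu hu1 hcu hk m3
  have hcu' : c * u⁻¹ * c = u := by
    have h1 : c * u * c = u⁻¹ := (iv_def hc).1 hcu
    calc c * u⁻¹ * c = (c⁻¹ * u * c⁻¹)⁻¹ := by group
      _ = (c * u * c)⁻¹ := by rw [hc.inv_eq]
      _ = u := by rw [h1, inv_inv]
  have c1 : k * u = u * k := by
    apply comm_of_comm_sq h.toBG hu
    have h1 := Iv.mul_iv i1 i2
    have h2 : c * (u⁻¹ * c * u) = u * u := by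
      calc c * (u⁻¹ * c * u) = (c * u⁻¹ * c) * u := by group
        _ = u * u := by rw [hcu']
    rw [h2] at h1
    exact h1.symm
  have hua : χ (a⁻¹ * u * a) = 1 := by rw [chi_conj']; exact hu
  have c2 : k * (a⁻¹ * u * a) = (a⁻¹ * u * a) * k := by
    apply comm_of_comm_sq h.toBG hua
    have h1 := Iv.mul_iv i1 i3
    have hca : c * a⁻¹ = a⁻¹ * c := by
      calc c * a⁻¹ = a⁻¹ * (a * c) * a⁻¹ := by group
        _ = a⁻¹ * (c * a) * a⁻¹ := by rw [ha.2]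
        _ = a⁻¹ * c := by group
    have h2 : c * ((u * a)⁻¹ * c * (u * a)) = (a⁻¹ * u * a) * (a⁻¹ * u * a) := by
      calc c * ((u * a)⁻¹ * c * (u * a)) = (c * a⁻¹) * (u⁻¹ * c) * u * a := by group
        _ = (a⁻¹ * c) * (u⁻¹ * c) * u * a := by rw [hca]
        _ = a⁻¹ * (c * u⁻¹ * c) * u * a := by group
        _ = a⁻¹ * u * u * a := by rw [hcu']
        _ = (a⁻¹ * u * a) * (a⁻¹ * u * a) := by group
    rw [h2] at h1
    exact h1.symm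
  by_contra hk1
  have hA : Ax χ k := ⟨hkχ, hk1, c, hc, Or.inr i1⟩
  exact hne ((hC3 k hA).1 _ ⟨hua, c2.symm⟩ _ ⟨hu, c1.symm⟩)

end Pool.Agent.KleinB
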