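import Pool.Agent.Lib.MP_3c9215_al.B.Spec

set_option autoImplicit false

/-!
# MP_3c9215_al, part B: the component of `X # Y` does not change if `Y` is conjugated by an element
commuting with the point
-/

namespace Pool.Agent.KleinB

open Pool.Agent.Klein (D sqr comp)

theorem tIND (hGPp : S_GPp) : S_IND := by
  intro G _ χ h k c X Y hk hX hY hck
  have hY' : χ (c * Y * c⁻¹) = 1 := by rw [chi_conj]; exact hY
  have hXY : χ (X⁻¹ * Y) = 1 := chi_mul_one (chi_inv_one hX) hY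
  have hXY' : χ (X⁻¹ * (c * Y * c⁻¹)) = 1 := chi_mul_one (chi_inv_one hX) hY'
  have hs1 : χ (hs X Y) = 1 := hs_chi' hX hY
  have hs2 : χ (hs X (c * Y * c⁻¹)) = 1 := hs_chi' hX hY'
  obtain ⟨hl, _, hiv⟩ := comp_spec h hk hs1
  set l := comp k (hs X Y) with hldef
  have hlk : χ l⁻¹ = 1 := chi_inv_one hl.1
  have e1 : hs (l⁻¹ * X) (l⁻¹ * Y) = l⁻¹ * hs X Y := by
    have := hs_mul h l⁻¹ 1 hXY
    simpa only [mul_one] using this
  have e2 : hs (l⁻¹ * X) (l⁻¹ * (c * Y * c⁻¹)) = l⁻¹ * hs X (c * Y * c⁻¹) := by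
    have := hs_mul h l⁻¹ 1 hXY'
    simpa only [mul_one] using this
  have h1 : IsConj (k * (l⁻¹ * X))⁻¹ (k * (l⁻¹ * Y)) := by
    rw [← hGPp G χ h k _ _ hk (chi_mul_one hlk hX) (chi_mul_one hlk hY), e1]
    exact hiv
  have hcl : c * l = l * c := comm_Ck h hk hck hl
  have hcl' : c * l⁻¹ = l⁻¹ * c := by
    calc c * l⁻¹ = l⁻¹ * (l * c) * l⁻¹ := by group
      _ = l⁻¹ * (c * l) * l⁻¹ := by rw [hcl]
      _ = l⁻¹ * c := by group
  have e3 : k * (l⁻¹ * (c * Y * c⁻¹)) = c * (k * (l⁻¹ * Y)) * c⁻¹ := by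
    calc k * (l⁻¹ * (c * Y * c⁻¹)) = k * (l⁻¹ * c) * Y * c⁻¹ := by group
      _ = (k * c) * l⁻¹ * Y * c⁻¹ := by rw [← hcl']; group
      _ = c * (k * (l⁻¹ * Y)) * c⁻¹ := by rw [← hck]; group
  have h2 : IsConj (k * (l⁻¹ * X))⁻¹ (k * (l⁻¹ * (c * Y * c⁻¹))) := by
    rw [e3]
    exact h1.trans (isConj_conj c _)
  rw [← hGPp G χ h k _ _ hk (chi_mul_one hlk hX) (chi_mul_one hlk hY'), e2] at h2
  exact comp_unique' h hk hs2 hl h2

end Pool.Agent.KleinB
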