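import Pool.Agent.Lib.MP_3c9215_al.B.Spec

set_option autoImplicit false

/-!
# MP_3c9215_al, part B: commuting automorphisms without common fixed points
-/

namespace Pool.Agent.KleinB

/-- Commuting automorphisms without common fixed points. -/
theorem tInvFix : S_InvFix := by
  intro N _ φ ψ hodd hφ hc hfix q hq
  -- the element `d`
  have hd1 : φ (q⁻¹ * φ q) = (q⁻¹ * φ q)⁻¹ := by
    rw [map_mul, map_inv, hφ, mul_inv_rev, inv_inv]
  have hd2 : ψ (q⁻¹ * φ q) = q⁻¹ * φ q := by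
    rw [map_mul, map_inv, hq, ← hc, hq]
  obtain ⟨k, ⟨m, rfl⟩, hk⟩ := hodd (q⁻¹ * φ q)
  set d := q⁻¹ * φ q with hd
  have hs : d ^ (m + 1) * d ^ (m + 1) = d := by
    rw [← pow_add]
    have e : m + 1 + (m + 1) = (2 * m + 1) + 1 := by omega
    rw [e, pow_succ, hk, one_mul]
  have hs1 : φ (d ^ (m + 1)) = (d ^ (m + 1))⁻¹ := by
    rw [map_pow, hd1, inv_pow]
  have hs2 : ψ (d ^ (m + 1)) = d ^ (m + 1) := by
    rw [map_pow, hd2]
  set s := d ^ (m + 1) with hsd
  have hφq : φ q = q * d := by rw [hd]; group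
  have h1 : φ (q * s) = q * s := by
    rw [map_mul, hs1, hφq]
    calc q * d * s⁻¹ = q * (s * s) * s⁻¹ := by rw [hs]
      _ = q * s := by group
  have h2 : ψ (q * s) = q * s := by
    rw [map_mul, hs2, hq]
  have h3 : q * s = 1 := hfix _ h1 h2
  have h4 : s = q⁻¹ := by
    calc s = q⁻¹ * (q * s) := by group
      _ = q⁻¹ := by rw [h3, mul_one]
  rw [hφq]
  calc q * d = (q * s) * s := by rw [← hs]; group
    _ = s := by rw [h3, one_mul]
    _ = q⁻¹ := h4

end Pool.Agent.KleinB
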