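import Pool.Agent.Lib.MP_3c9215_al.B.Spec

set_option autoImplicit false

/-!
# MP_3c9215_al, part B: `Z u ~ Z u⁻¹` iff `D Z` inverts `u`
-/

namespace Pool.Agent.KleinB

open Pool.Agent.Klein (D D_comm)

theorem tL1 (hGP : S_GP) : S_L1 := by
  intro G _ χ h Z u hZ hu
  constructor
  · intro hc
    obtain ⟨⟨m, hm, e⟩, -⟩ := hGP G χ h (Z * u) (Z * u⁻¹) (chi_mul_ker hZ hu) hc
    have hmi := hm.inv_eq
    -- `Z⁻¹ m Z = u⁻¹ m u⁻¹`
    have e1 : Z⁻¹ * m * Z = u⁻¹ * m * u⁻¹ := by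
      have e2 : m * (Z * u) = Z * u⁻¹ * m := by
        calc m * (Z * u) = m * (Z * u) * (m * m) := by rw [hm.1, mul_one]
          _ = (m * (Z * u) * m) * m := by group
          _ = Z * u⁻¹ * m := by rw [e]
      calc Z⁻¹ * m * Z = Z⁻¹ * (m * (Z * u)) * u⁻¹ := by group
        _ = Z⁻¹ * (Z * u⁻¹ * m) * u⁻¹ := by rw [e2]
        _ = u⁻¹ * m * u⁻¹ := by group
    have e3 : (u⁻¹ * m * u⁻¹) * (u⁻¹ * m * u⁻¹) = 1 := by
      rw [← e1]
      calc Z⁻¹ * m * Z * (Z⁻¹ * m * Z) = Z⁻¹ * (m * m) * Z := by group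
        _ = 1 := by rw [hm.1]; group
    have e4 : m * (u * u) * m = (u * u)⁻¹ := by
      have e5 : m * (u⁻¹ * u⁻¹) * m = u * u := by
        calc m * (u⁻¹ * u⁻¹) * m = u * ((u⁻¹ * m * u⁻¹) * (u⁻¹ * m * u⁻¹)) * u := by group
          _ = u * u := by rw [e3, mul_one]
      calc m * (u * u) * m = m * (m * (u⁻¹ * u⁻¹) * m) * m := by rw [e5]
        _ = (m * m) * (u⁻¹ * u⁻¹) * (m * m) := by group
        _ = (u * u)⁻¹ := by rw [hm.1]; group
    have h5 : Iv m (u * u) := (iv_def hm).2 e4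
    have h6 : Iv m u := Iv.of_sq h hu h5
    have e6 : m * u⁻¹ = u * m := by
      have h7 := (iv_def hm).1 h6.inv
      rw [inv_inv] at h7
      calc m * u⁻¹ = m * u⁻¹ * (m * m) := by rw [hm.1, mul_one]
        _ = (m * u⁻¹ * m) * m := by group
        _ = u * m := by rw [h7]
    have e7 : m * Z = Z * m := by
      calc m * Z = Z * (Z⁻¹ * m * Z) := by group
        _ = Z * (u⁻¹ * (m * u⁻¹)) := by rw [e1]; group
        _ = Z * m := by rw [e6]; group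
    rw [← D_unique h hm e7 hZ]
    exact h6
  · intro hi
    have hc : D Z * Z = Z * D Z := D_comm Z
    unfold Iv at hi
    refine isConj_iff.2 ⟨D Z, ?_⟩
    calc D Z * (Z * u) * (D Z)⁻¹ = (D Z * Z) * (D Z)⁻¹ * (D Z * u * (D Z)⁻¹) := by group
      _ = Z * u⁻¹ := by rw [hc, hi]; group

end Pool.Agent.KleinB
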