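import Pool.Agent.Lib.MP_3c9215_al.B.Spec

set_option autoImplicit false

/-!
# MP_3c9215_al, part B: local finiteness
-/

namespace Pool.Agent.KleinB

open Pool.Agent.Klein (D sqr comp)

private lemma lfb_inverted {G : Type} [Group G] {χ : G →* C2} (hJIAbB : S_JIAbB) (hg : BG χ)
    (hji : JIB χ) : ∃ c u : G, IsP χ c ∧ χ u = 1 ∧ u ≠ 1 ∧ Iv c u := by
  by_contra hno
  push Not at hno
  obtain ⟨c, hc1, hc2⟩ := hg.ex
  have hc : IsP χ c := ⟨hc1, hc2⟩
  have hmem : ∀ n : G, χ n = 1 → n ∈ Ck χ c := by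
    intro n hn
    obtain ⟨i, hi, hci, e⟩ := comp_factor hg hc hn
    have hi1 : i = 1 := by
      by_contra h1
      exact hno c i hc hi h1 hci
    rw [hi1, mul_one] at e
    rw [e]
    exact comp_mem hg hc hn
  have hbot : χ.ker = ⊥ := by
    refine (hJIAbB G χ hg hji).1 χ.ker inferInstance le_rfl fun x hx y hy => ?_
    exact Ck_comm hg hc (hmem x (MonoidHom.mem_ker.1 hx)) (hmem y (MonoidHom.mem_ker.1 hy))
  apply hji.inf
  rw [hbot]
  infer_instance

private lemma lfb_kernel (hJIExB : S_JIExB) (hJIAbB : S_JIAbB) (hNDB : S_NDB) (hTNorm : S_TNorm)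
    (hEnd : S_End) (h4 : ∀ (N : Type) [Group N] (α σ : N ≃* N), ¬ FourData N α σ)
    (G : Type) [Group G] (χ : G →* C2) (hg : BG χ) (H : Subgroup G) (hH : H ≤ χ.ker)
    (hfg : H.FG) : Finite H := by
  by_contra hinf
  obtain ⟨G', _, χ', hg', hji⟩ := hJIExB G χ hg ⟨H, hH, hfg, hinf⟩
  have hN := hNDB G' χ' hg' hji
  refine hEnd G' χ' hN (lfb_inverted hJIAbB hg' hji) fun c u a hc hu hiv ha => ?_
  by_contra hne
  obtain ⟨N, _, α, σ, hF⟩ := hTNorm G' χ' hN c u a hc hu hiv ha hne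
  exact h4 N α σ hF

theorem tLFB (hJIExB : S_JIExB) (hJIAbB : S_JIAbB) (hNDB : S_NDB) (hTNorm : S_TNorm)
    (hEnd : S_End) : S_LFB := by
  intro h4 G _ χ hg H hfg
  have : Group.FG H := (Group.fg_iff_subgroup_fg H).2 hfg
  set K : Subgroup H := (χ.comp H.subtype).ker with hK
  have hfinK4 : Finite C2 := inferInstanceAs (Finite (ZMod 2))
  have hidx : K.FiniteIndex := by
    refine ⟨?_⟩
    rw [hK, Subgroup.index_ker]
    exact Nat.card_pos.ne'
  have hKfg : Group.FG K := Subgroup.fg_of_index_ne_zero K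
  have hKfg2 : K.FG := (Group.fg_iff_subgroup_fg K).1 hKfg
  have hmap : (K.map H.subtype).FG := by
    obtain ⟨S, hS⟩ := hKfg2
    classical
    refine ⟨S.image H.subtype, ?_⟩
    rw [Finset.coe_image, ← MonoidHom.map_closure, hS]
  have hle : K.map H.subtype ≤ χ.ker := by
    rintro x ⟨y, hy, rfl⟩
    exact hy
  have hfin := lfb_kernel hJIExB hJIAbB hNDB hTNorm hEnd h4 G χ hg _ hle hmap
  have hKfin : Finite K := by
    refine Finite.of_injective (fun x : K => (⟨H.subtype x, ⟨x, x.2, rfl⟩⟩ : K.map H.subtype)) ?_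
    intro x y hxy
    have h := congrArg Subtype.val hxy
    exact Subtype.ext (Subtype.ext h)
  have : Finite (H ⧸ K) := K.finite_quotient_of_finiteIndex
  exact Finite.of_equiv _ (Subgroup.groupEquivQuotientProdSubgroup (s := K)).symm

end Pool.Agent.KleinB
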