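import Pool.Agent.Lib.MP_3c9215_al.B.Spec

set_option autoImplicit false

/-! MP_3c9215_al, part B: two distinct points lie on only one line. -/

namespace Pool.Agent.KleinB

open Pool.Agent.Klein (D sqr comp)

theorem tLineU (hCent : S_Cent) : S_LineU := by
  intro G _ χ hN p q w u v hp hq hw hpq hu hv hu1 hv1 hpu hqu hpv hqv hwu
  obtain ⟨-, h2, h3, -⟩ := hCent G χ hN
  have ht1 : p * q ≠ 1 := by
    intro h
    apply hpq
    have hqq : q * q = 1 := hq.1
    calc p = p * (q * q) := by rw [hqq, mul_one]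
      _ = q := by rw [← mul_assoc, h, one_mul]
  have hχt : χ (p * q) = 1 := chi_mul_pts hp.2 hq.2
  have hAx : Ax χ (p * q) := ⟨hχt, ht1, p, hp, Or.inr (iv_self_mul hp hq)⟩
  have hut : u ∈ Ck χ (p * q) := mem_Ck.2 ⟨hu, (Iv.mul_iv hpu hqu).symm⟩
  have hvt : v ∈ Ck χ (p * q) := mem_Ck.2 ⟨hv, (Iv.mul_iv hpv hqv).symm⟩
  have huv : v * u = u * v := (h3 (p * q) hAx).1 v hvt u hut
  exact h2 w u v hw hu hu1 hwu (mem_Ck.2 ⟨hv, huv⟩)

end Pool.Agent.KleinB
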