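import Pool.Agent.Lib.MP_3c9215_al.B.Spec

set_option autoImplicit false

/-!
# MP_3c9215_al, part B: reduction to the nondegenerate case
-/

namespace Pool.Agent.KleinB

open Pool.Agent.Klein (D sqr comp sqr_comm)

section
variable {G : Type} [Group G] {χ : G →* C2}

lemma ndb_closure_normal (S : Set G) (hS : ∀ s ∈ S, ∀ g : G, g * s * g⁻¹ ∈ S) :
    (Subgroup.closure S).Normal := by
  refine ⟨fun n hn g => ?_⟩
  induction hn using Subgroup.closure_induction with
  | mem x hx => exact Subgroup.subset_closure (hS x hx g)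
  | one =>
    rw [mul_one, mul_inv_cancel]
    exact one_mem _
  | mul x y _ _ hx hy =>
    have e : g * (x * y) * g⁻¹ = (g * x * g⁻¹) * (g * y * g⁻¹) := by group
    rw [e]
    exact mul_mem hx hy
  | inv x _ hx =>
    have e : g * x⁻¹ * g⁻¹ = (g * x * g⁻¹)⁻¹ := by group
    rw [e]
    exact inv_mem hx

lemma ndb_closure_comm (S T : Set G) (h : ∀ s ∈ S, ∀ t ∈ T, s * t = t * s) :
    ∀ x ∈ Subgroup.closure S, ∀ y ∈ Subgroup.closure T, x * y = y * x := by
  have h1 : ∀ s ∈ S, Subgroup.closure T ≤ Subgroup.centralizer {s} := by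
    intro s hs
    rw [Subgroup.closure_le]
    intro t ht
    rw [SetLike.mem_coe, Subgroup.mem_centralizer_iff]
    intro s' hs'
    rw [Set.mem_singleton_iff] at hs'
    rw [hs']
    exact h s hs t ht
  intro x hx y hy
  have h2 : Subgroup.closure S ≤ Subgroup.centralizer {y} := by
    rw [Subgroup.closure_le]
    intro s hs
    rw [SetLike.mem_coe, Subgroup.mem_centralizer_iff]
    intro y' hy'
    rw [Set.mem_singleton_iff] at hy'
    rw [hy']
    exact (Subgroup.mem_centralizer_iff.1 (h1 s hs hy) s rfl).symm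
  exact (Subgroup.mem_centralizer_iff.1 (h2 hx) y rfl).symm

/-- conjugates of `f` and `f⁻¹` under the kernel -/
def ndb_cj (χ : G →* C2) (f : G) : Set G :=
  {g | ∃ n, χ n = 1 ∧ (g = n⁻¹ * f * n ∨ g = n⁻¹ * f⁻¹ * n)}

lemma ndb_dec {x f : G} (hx : IsP χ x) (hf : x⁻¹ * f * x = f ∨ x⁻¹ * f * x = f⁻¹) (p : G) :
    ∃ m, χ m = 1 ∧ (p⁻¹ * f * p = m⁻¹ * f * m ∨ p⁻¹ * f * p = m⁻¹ * f⁻¹ * m) := by
  by_cases h1 : χ p = 1
  · exact ⟨p, h1, Or.inl rfl⟩
  · refine ⟨x⁻¹ * p, chi_mul_pts (chi_inv_ne hx.2) h1, ?_⟩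
    have e : p⁻¹ * f * p = (x⁻¹ * p)⁻¹ * (x⁻¹ * f * x) * (x⁻¹ * p) := by group
    rcases hf with h2 | h2
    · left
      rw [e, h2]
    · right
      rw [e, h2]

lemma ndb_cj_conj {x f : G} (hx : IsP χ x) (hf : x⁻¹ * f * x = f ∨ x⁻¹ * f * x = f⁻¹) :
    ∀ s ∈ ndb_cj χ f, ∀ g : G, g * s * g⁻¹ ∈ ndb_cj χ f := by
  rintro s ⟨n, hn, hs⟩ g
  obtain ⟨m, hm, e⟩ := ndb_dec hx hf (n * g⁻¹)
  have e0 : (n * g⁻¹)⁻¹ * f * (n * g⁻¹) = g * (n⁻¹ * f * n) * g⁻¹ := by group
  rw [e0] at e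
  refine ⟨m, hm, ?_⟩
  rcases hs with rfl | rfl
  · exact e
  · have e1 : g * (n⁻¹ * f⁻¹ * n) * g⁻¹ = (g * (n⁻¹ * f * n) * g⁻¹)⁻¹ := by group
    rw [e1]
    rcases e with e | e
    · right
      rw [e]
      group
    · left
      rw [e]
      group

lemma ndb_cj_chi {f : G} (hf : χ f = 1) : ∀ s ∈ ndb_cj χ f, χ s = 1 := by
  rintro s ⟨n, hn, rfl | rfl⟩
  · rw [chi_conj', hf]
  · rw [chi_conj', map_inv, hf, inv_one]

lemma ndb_mem (f : G) : f ∈ Subgroup.closure (ndb_cj χ f) :=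
  Subgroup.subset_closure ⟨1, map_one χ, Or.inl (by group)⟩

end

theorem tNDB (hJIAbB : S_JIAbB) (hStrongB : S_StrongB) : S_NDB := by
  intro G _ χ hg hj
  obtain ⟨hab1, hab2⟩ := hJIAbB G χ hg hj
  have hkne : χ.ker ≠ ⊥ := by
    intro e
    apply hj.inf
    rw [e]
    infer_instance
  have hncomm : ¬ (∀ x ∈ χ.ker, ∀ y ∈ χ.ker, x * y = y * x) := fun hc =>
    hkne (hab1 χ.ker inferInstance le_rfl hc)
  have hnt : ∀ x : G, IsP χ x → ∃ f ∈ Ck χ x, f ≠ 1 := by
    intro x hx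
    by_contra hno
    have hA : ∀ f ∈ Ck χ x, f = 1 := by
      intro f hf
      by_contra hf1
      exact hno ⟨f, hf, hf1⟩
    have hinv : ∀ g : G, χ g = 1 → x * g * x⁻¹ = g⁻¹ := fun g hgk =>
      iv_of_comp_one hg hx hgk (hA _ (comp_mem hg hx hgk))
    refine hncomm ?_
    intro g hgk k hkk
    have h3 := hinv g hgk
    have h4 := hinv k hkk
    have h5 := hinv (g * k) (chi_mul_one hgk hkk)
    have h6 : (k * g)⁻¹ = (g * k)⁻¹ := by
      rw [← h5, mul_inv_rev, ← h3, ← h4]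
      group
    exact (inv_injective h6).symm
  have hsep : ∀ e : G, χ e = 1 → (∀ w : G, IsP χ w → Iv w e) → e = 1 := by
    intro e he hinv
    set S : Set G := {g | ∃ w w' : G, IsP χ w ∧ IsP χ w' ∧ g = w * w'} with hSdef
    set T : Set G := {c | χ c = 1 ∧ ∀ w : G, IsP χ w → Iv w c} with hT
    have hQ : (Subgroup.closure S).Normal := by
      apply ndb_closure_normal
      rintro s ⟨w, w', hw, hw', rfl⟩ g
      exact ⟨g * w * g⁻¹, g * w' * g⁻¹, hw.conj g, hw'.conj g, by group⟩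
    have hC : (Subgroup.closure T).Normal := by
      apply ndb_closure_normal
      rintro c ⟨hc, hci⟩ g
      refine ⟨by rw [chi_conj, hc], fun w hw => ?_⟩
      have h3 := (hci (g⁻¹ * w * g) (hw.conj' g)).conj g
      have e1 : g * (g⁻¹ * w * g) * g⁻¹ = w := by group
      rwa [e1] at h3
    have hQk : Subgroup.closure S ≤ χ.ker := by
      rw [Subgroup.closure_le]
      rintro s ⟨w, w', hw, hw', rfl⟩
      exact chi_mul_pts hw.2 hw'.2
    have hCk : Subgroup.closure T ≤ χ.ker := by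
      rw [Subgroup.closure_le]
      rintro c ⟨hc, -⟩
      exact hc
    have hcm := ndb_closure_comm S T (by
      rintro s ⟨w, w', hw, hw', rfl⟩ c ⟨hc, hci⟩
      exact (hci w hw).mul_iv (hci w' hw'))
    rcases hab2 _ _ hQ hC hQk hCk hcm with h3 | h3
    · exfalso
      apply hncomm
      obtain ⟨x, hx⟩ : ∃ x : G, IsP χ x := hg.ex
      have h4 : ∀ g : G, g * x = x * g := by
        intro g
        have h5 : x * (g * x * g⁻¹) ∈ Subgroup.closure S :=
          Subgroup.subset_closure ⟨x, g * x * g⁻¹, hx, hx.conj g, rfl⟩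
        rw [h3] at h5
        have h6 := Subgroup.mem_bot.1 h5
        calc g * x = x * x * (g * x * g⁻¹) * g := by rw [hx.1]; group
          _ = x * (x * (g * x * g⁻¹)) * g := by group
          _ = x * g := by rw [h6, mul_one]
      intro g hgk k hkk
      exact Ck_comm hg hx ⟨hgk, h4 g⟩ ⟨hkk, h4 k⟩
    · have h4 : e ∈ Subgroup.closure T := Subgroup.subset_closure ⟨he, hinv⟩
      rw [h3] at h4
      exact Subgroup.mem_bot.1 h4
  refine ⟨hg, ?_, hnt, hsep⟩
  intro x p f hx hp hf hfp hf1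
  by_contra hne
  have hxp : χ (x * p) = 1 := chi_mul_pts hx.2 hp.2
  obtain ⟨s, hs⟩ : ∃ s, s = sqr (x * p) := ⟨_, rfl⟩
  have hsχ : χ s = 1 := by rw [hs]; exact sqr_chi hxp
  have hss : s * s = x * p := by rw [hs]; exact sqr_sq hg hxp
  have hs1 : s ≠ 1 := by
    intro h1
    apply hne
    rw [h1, one_mul] at hss
    calc x = x * (p * p) := by rw [hp.1, mul_one]
      _ = x * p * p := by group
      _ = p := by rw [← hss, one_mul]
  have hxs : Iv x s := by rw [hs]; exact (iv_self_mul hx hp).sqr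
  have hfs : f * s = s * f := by
    rw [hs]
    refine (sqr_comm ?_).symm
    calc x * p * f = x * (p * f) := by group
      _ = x * (f * p) := by rw [hfp.2]
      _ = x * f * p := by group
      _ = f * x * p := by rw [hf.2]
      _ = f * (x * p) := by group
  have hst := hStrongB G χ hg x f s hx hf hsχ hxs hfs hsep
  have hc : ∀ n m : G, χ n = 1 → χ m = 1 → Commute (n⁻¹ * f * n) (m⁻¹ * s * m) := by
    intro n m hn hm
    have h3 := hst (n * m⁻¹) (chi_mul_one hn (chi_inv_one hm))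
    change (n⁻¹ * f * n) * (m⁻¹ * s * m) = (m⁻¹ * s * m) * (n⁻¹ * f * n)
    calc (n⁻¹ * f * n) * (m⁻¹ * s * m)
        = m⁻¹ * (((n * m⁻¹)⁻¹ * f * (n * m⁻¹)) * s) * m := by group
      _ = m⁻¹ * (s * ((n * m⁻¹)⁻¹ * f * (n * m⁻¹))) * m := by rw [h3]
      _ = (m⁻¹ * s * m) * (n⁻¹ * f * n) := by group
  have hinv : ∀ n g : G, n⁻¹ * g⁻¹ * n = (n⁻¹ * g * n)⁻¹ := fun n g => by group
  have hcm := ndb_closure_comm (ndb_cj χ f) (ndb_cj χ s) (by
    rintro u ⟨n, hn, hu⟩ t ⟨m, hm, ht⟩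
    have h3 := hc n m hn hm
    rcases hu with rfl | rfl <;> rcases ht with rfl | rfl
    · exact h3
    · rw [hinv m]
      exact h3.inv_right
    · rw [hinv n]
      exact h3.inv_left
    · rw [hinv n, hinv m]
      exact h3.inv_inv)
  have hK := ndb_closure_normal (ndb_cj χ f) (ndb_cj_conj hx (Or.inl (by
    rw [mul_assoc, hf.2, inv_mul_cancel_left])))
  have hL := ndb_closure_normal (ndb_cj χ s) (ndb_cj_conj hx (Or.inr (by
    have h3 : x * s * x⁻¹ = s⁻¹ := hxs
    rw [hx.inv_eq] at h3 ⊢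
    exact h3)))
  have hKk : Subgroup.closure (ndb_cj χ f) ≤ χ.ker := by
    rw [Subgroup.closure_le]
    exact fun u hu => ndb_cj_chi hf.1 u hu
  have hLk : Subgroup.closure (ndb_cj χ s) ≤ χ.ker := by
    rw [Subgroup.closure_le]
    exact fun u hu => ndb_cj_chi hsχ u hu
  rcases hab2 _ _ hK hL hKk hLk hcm with h3 | h3
  · apply hf1
    have := ndb_mem (χ := χ) f
    rw [h3] at this
    exact Subgroup.mem_bot.1 this
  · apply hs1
    have := ndb_mem (χ := χ) s
    rw [h3] at this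
    exact Subgroup.mem_bot.1 this

end Pool.Agent.KleinB
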