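import Pool.Agent.Lib.MP_3c9215_al.B.Spec

set_option autoImplicit false

/-!
# MP_3c9215_al, part B: Rig
-/

namespace Pool.Agent.KleinB

open Pool.Agent.Klein (D sqr comp sqr_comm sqr_conj sqr_inv sqr_inverted D_sq D_comm D_comm_of_comm
  D_conj D_inv D_comm_of_inverts comp_conj)

theorem tRig (hGP : S_GP) (hCent : S_Cent) (hStepB1 : S_StepB1) (hStepB2 : S_StepB2) : S_Rig := by
  intro G _ χ hN Q U U' f₁ f₂ hQ hU hU' hf₁ hf₂ hne h1 h2 f hf
  have hB : BG χ := hN.toBG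
  obtain ⟨hC1, hC2, hC3, hC4⟩ := hCent G χ hN
  obtain ⟨m, hm, hmV⟩ := (hGP G χ hB (U * f₁) (U' * f₁) (chi_mul_ker hU hf₁.1) h1).1
  have hVχ : χ (U * f₁) ≠ 1 := chi_mul_ker hU hf₁.1
  set V := U * f₁ with hV
  set V' := U' * f₁ with hV'
  have hQ₂mem : f₁⁻¹ * f₂ ∈ Ck χ Q := (Ck χ Q).mul_mem ((Ck χ Q).inv_mem hf₁) hf₂
  have hQ₂ne : f₁⁻¹ * f₂ ≠ 1 := by
    intro e
    exact hne (inv_mul_eq_one.1 e)
  obtain ⟨hQ₂Ax, hQ₂C⟩ := (hC3 Q hQ).2 _ hQ₂mem hQ₂ne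
  set Q₂ := f₁⁻¹ * f₂ with hQ₂
  -- V' g is conjugate to V (m g m)
  have hconj : ∀ g, IsConj (V' * g) (V * (m * g * m)) := by
    intro g
    have e : m * (V' * g) * m⁻¹ = V * (m * g * m) := by
      rw [← hmV, hm.inv_eq]
      calc m * (m * V * m * g) * m = (m * m) * V * (m * g * m) := by group
        _ = V * (m * g * m) := by rw [hm.1, one_mul]
    rw [← e]; exact isConj_conj m _
  have hgmem : f₁⁻¹ * f ∈ Ck χ Q := (Ck χ Q).mul_mem ((Ck χ Q).inv_mem hf₁) hf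
  have goal : ∀ g ∈ Ck χ Q, IsConj (V * g) (V' * g) := by
    by_cases hc : m * Q₂ = Q₂ * m
    · intro g hg
      have hg2 : g ∈ Ck χ Q₂ := by rw [hQ₂C]; exact hg
      have h3 := hC4 Q₂ m g hQ₂Ax hm hc hg2
      have e : m * g * m = g := by
        rw [h3, mul_assoc, hm.1, mul_one]
      have := hconj g
      rw [e] at this
      exact this.symm
    · have h3 : IsConj (V * Q₂) (V * (m * Q₂ * m)) := by
        have e1 : V * Q₂ = U * f₂ := by rw [hV, hQ₂]; group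
        have e2 : V' * Q₂ = U' * f₂ := by rw [hV', hQ₂]; group
        have h4 := hconj Q₂
        rw [e2] at h4
        rw [e1]
        exact h2.trans h4
      have hQ₂self : Q₂ ∈ Ck χ Q₂ := ⟨hQ₂Ax.1, rfl⟩
      have hD := hStepB2 G χ hN Q₂ m Q₂ V hQ₂Ax hm hc hQ₂self hQ₂ne hVχ h3
      intro g hg
      by_cases hg1 : g = 1
      · rw [hg1, mul_one, mul_one]; exact h1
      · have hg2 : g ∈ Ck χ Q₂ := by rw [hQ₂C]; exact hg
        have h5 := hStepB1 G χ hN Q₂ m g V hQ₂Ax hm hc hg2 hg1 hVχ hD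
        exact h5.trans (hconj g).symm
  have h6 := goal _ hgmem
  have e1 : V * (f₁⁻¹ * f) = U * f := by rw [hV]; group
  have e2 : V' * (f₁⁻¹ * f) = U' * f := by rw [hV']; group
  rwa [e1, e2] at h6

end Pool.Agent.KleinB
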