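import Pool.Agent.Lib.MP_3c9215_al.B.SpecFour

set_option autoImplicit false

/-!
# MP_3c9215_al, part B: the semidirect product with the group of order two
-/

namespace Pool.Agent.KleinB

open Classical in
/-- the action of the group of order two through an involutory automorphism -/
noncomputable def semib_act {K : Type} [Group K] (θ : K ≃* K) (hθ : ∀ n, θ (θ n) = n) :
    C2 →* MulAut K where
  toFun t := if t = 1 then 1 else θ
  map_one' := if_pos rfl
  map_mul' s t := by
    by_cases hs : s = 1
    · subst hs
      rw [one_mul, if_pos rfl, one_mul]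
    · by_cases ht : t = 1
      · subst ht
        rw [mul_one, if_pos rfl, mul_one]
      · rw [if_pos (c2_mul_one s t hs ht), if_neg hs, if_neg ht]
        ext n
        exact (hθ n).symm

lemma semib_act_apply {K : Type} [Group K] (θ : K ≃* K) (hθ : ∀ n, θ (θ n) = n) {t : C2}
    (ht : t ≠ 1) (n : K) : semib_act θ hθ t n = θ n := by
  change (if t = 1 then (1 : MulAut K) else θ) n = θ n
  rw [if_neg ht]

/-- The semidirect product with the group of order two. -/
theorem tSemiB : S_SemiB := by
  intro hLF K _ θ hodd hθ hfix H hH
  let χ : K ⋊[semib_act θ hθ] C2 →* C2 := SemidirectProduct.rightHom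
  have hB : BG χ := by
    refine ⟨?_, ?_, ?_⟩
    · intro n hn
      obtain ⟨k, hk, hk2⟩ := hodd n.left
      refine ⟨k, hk, ?_⟩
      have hn' : n.right = 1 := hn
      have e : n = SemidirectProduct.inl n.left := by
        apply SemidirectProduct.ext
        · rw [SemidirectProduct.left_inl]
        · rw [SemidirectProduct.right_inl, hn']
      rw [e, ← map_pow, hk2, map_one]
    · have ht : (Multiplicative.ofAdd (1 : ZMod 2) : C2) ≠ 1 := by decide
      refine ⟨SemidirectProduct.inr (Multiplicative.ofAdd (1 : ZMod 2)), ?_, ?_⟩
      · rw [← map_mul, c2_sq, map_one]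
      · exact ht
    · intro x m n hx hx1 hm hn hmx hnx
      have ht : x.right ≠ 1 := hx1
      -- the square root of the first component of `x`
      have h1 : x.left * θ x.left = 1 := by
        have h := congrArg SemidirectProduct.left hx
        rw [SemidirectProduct.mul_left, semib_act_apply θ hθ ht] at h
        exact h
      have h2 : θ x.left = x.left⁻¹ := (inv_eq_of_mul_eq_one_right h1).symm
      obtain ⟨k, ⟨j, rfl⟩, hk⟩ := hodd x.left
      have hs : x.left ^ (j + 1) * x.left ^ (j + 1) = x.left := by
        rw [← pow_add]
        have e : j + 1 + (j + 1) = (2 * j + 1) + 1 := by omega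
        rw [e, pow_succ, hk, one_mul]
      have hs1 : θ (x.left ^ (j + 1)) = (x.left ^ (j + 1))⁻¹ := by
        rw [map_pow, h2, inv_pow]
      set s := x.left ^ (j + 1) with hsd
      -- kernel elements commuting with `x`
      have key : ∀ y : K ⋊[semib_act θ hθ] C2, χ y = 1 → y * x = x * y →
          θ (s⁻¹ * y.left * s) = s⁻¹ * y.left * s := by
        intro y hy hyx
        have hy' : y.right = 1 := hy
        have h3 := congrArg SemidirectProduct.left hyx
        rw [SemidirectProduct.mul_left, SemidirectProduct.mul_left, hy', map_one,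
          MulAut.one_apply, semib_act_apply θ hθ ht, ← hs] at h3
        rw [map_mul, map_mul, map_inv, hs1, inv_inv]
        calc s * θ y.left * s⁻¹ = s⁻¹ * (s * s * θ y.left) * s⁻¹ := by group
          _ = s⁻¹ * (y.left * (s * s)) * s⁻¹ := by rw [h3]
          _ = s⁻¹ * y.left * s := by group
      have h4 := hfix _ _ (key m hm hmx) (key n hn hnx)
      have h5 : m.left * n.left = n.left * m.left := by
        calc m.left * n.left = s * ((s⁻¹ * m.left * s) * (s⁻¹ * n.left * s)) * s⁻¹ := by group
          _ = s * ((s⁻¹ * n.left * s) * (s⁻¹ * m.left * s)) * s⁻¹ := by rw [h4]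
          _ = n.left * m.left := by group
      have hm' : m.right = 1 := hm
      have hn' : n.right = 1 := hn
      apply SemidirectProduct.ext
      · rw [SemidirectProduct.mul_left, SemidirectProduct.mul_left, hm', hn', map_one,
          MulAut.one_apply, MulAut.one_apply]
        exact h5
      · rw [SemidirectProduct.mul_right, SemidirectProduct.mul_right, hm', hn']
  have hfg : (H.map (SemidirectProduct.inl : K →* K ⋊[semib_act θ hθ] C2)).FG := by
    classical
    obtain ⟨S, rfl⟩ := hH
    refine ⟨S.image (SemidirectProduct.inl : K →* K ⋊[semib_act θ hθ] C2), ?_⟩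
    rw [Finset.coe_image, MonoidHom.map_closure]
  have hfin := hLF _ χ hB _ hfg
  exact Finite.of_equiv _
    (H.equivMapOfInjective (SemidirectProduct.inl : K →* K ⋊[semib_act θ hθ] C2)
      SemidirectProduct.inl_injective).toEquiv.symm

end Pool.Agent.KleinB
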