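import Pool.Agent.Lib.MP_3c9215_al.B.Spec

/-!
# MP_3c9215_al, part B: separation of elements of the kernel by their components (`S_SepB`)
-/

set_option autoImplicit false

namespace Pool.Agent.KleinB

open Pool.Agent.Klein (D sqr comp)

theorem tSepB : S_SepB := by
  intro G _ χ h g k hg hk hcomp w hw
  have hgw : χ (g * w) ≠ 1 := chi_ker_mul hw.2 hg
  obtain ⟨φ, hφ, _, e1⟩ := D_factor h hgw
  have hx : IsP χ (D (g * w)) := D_isP h hgw
  have hc := hcomp _ hx
  generalize D (g * w) = x at hx hc hφ e1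
  have hxw : χ (x * w) = 1 := chi_mul_pts hx.2 hw.2
  have hxi := hx.inv_eq
  have hwi := hw.inv_eq
  have hg1 : g = φ * (x * w) := by
    calc g = (g * w) * w⁻¹ := by group
      _ = (φ * x) * w⁻¹ := by rw [e1]
      _ = φ * (x * w) := by rw [hwi, mul_assoc]
  have hcg : comp x g = φ := by
    rw [hg1]
    exact comp_unique h hx hφ hxw (iv_self_mul hx hw)
  obtain ⟨i, hi, hxi', e2⟩ := comp_factor h hx hk
  rw [← hc, hcg] at e2
  have e3 : g⁻¹ * k = w * (x * i) := by
    rw [hg1, e2, mul_inv_rev, mul_inv_rev, hwi, hxi]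
    group
  have hP : IsP χ (x * i) := (iv_iff_isP hx hi).1 hxi'
  rw [e3]
  exact iv_self_mul hw hP

end Pool.Agent.KleinB
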