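import Pool.Agent.Lib.MP_3c9215_al.B.WU1

set_option autoImplicit false

/-!
# MP_3c9215_al: subgroups without involutions normalized by an involution of `V`
-/

namespace Pool.Agent.Klein

/-- the theorem on involutory automorphisms with commutative centralizer -/
def S_BLF : Prop := ∀ (B : Type) [Group B] (φ : MulAut B), Monoid.IsTorsion B →
  (∀ g : B, g * g = 1 → g = 1) → φ * φ = 1 →
  (∀ a b : B, φ a = a → φ b = b → a * b = b * a) → ∀ H : Subgroup B, H.FG → Finite H

/-- a subgroup of order eight from an element fusing `b` and `ab` -/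
lemma wf_eight {G : Type} [Group G] (V : Subgroup G) (hV : Nat.card V = 4) (g : G) (hg : g ∉ V)
    (h2 : g * g ∈ V) (hn : ∀ v ∈ V, g * v * g⁻¹ ∈ V) : ∃ W : Subgroup G, V ≤ W ∧ Nat.card W = 8 := by
  have hn' : ∀ v ∈ V, g⁻¹ * v * g ∈ V := by
    intro v hv
    have h1 : (g * g)⁻¹ * (g * v * g⁻¹) * (g * g) ∈ V :=
      V.mul_mem (V.mul_mem (V.inv_mem h2) (hn v hv)) h2
    have h3 : (g * g)⁻¹ * (g * v * g⁻¹) * (g * g) = g⁻¹ * v * g := by group
    rwa [h3] at h1
  let W : Subgroup G :=
    { carrier := {w | w ∈ V ∨ w * g⁻¹ ∈ V}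
      one_mem' := Or.inl V.one_mem
      mul_mem' := by
        rintro x y (hx | hx) (hy | hy)
        · exact Or.inl (V.mul_mem hx hy)
        · right
          rw [mul_assoc]
          exact V.mul_mem hx hy
        · right
          have : x * y * g⁻¹ = (x * g⁻¹) * (g * y * g⁻¹) := by group
          rw [this]
          exact V.mul_mem hx (hn y hy)
        · left
          have : x * y = (x * g⁻¹) * (g * (y * g⁻¹) * g⁻¹) * (g * g) := by group
          rw [this]
          exact V.mul_mem (V.mul_mem hx (hn _ hy)) h2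
      inv_mem' := by
        rintro x (hx | hx)
        · exact Or.inl (V.inv_mem hx)
        · right
          have : x⁻¹ * g⁻¹ = (g⁻¹ * (x * g⁻¹)⁻¹ * g) * (g * g)⁻¹ := by group
          rw [this]
          exact V.mul_mem (hn' _ (V.inv_mem hx)) (V.inv_mem h2) }
  have hVW : V ≤ W := fun v hv => Or.inl hv
  refine ⟨W, hVW, ?_⟩
  have hgW : g ∈ W := by
    show g ∈ V ∨ g * g⁻¹ ∈ V
    right
    rw [mul_inv_cancel]
    exact V.one_mem
  have hidx : (V.subgroupOf W).index = 2 := by
    rw [Subgroup.index_eq_two_iff]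
    refine ⟨⟨g⁻¹, W.inv_mem hgW⟩, ?_⟩
    rintro ⟨w, hw⟩
    rw [Subgroup.mem_subgroupOf, Subgroup.mem_subgroupOf]
    show Xor' (w * g⁻¹ ∈ V) (w ∈ V)
    rcases hw with hw | hw
    · right
      refine ⟨hw, fun h => hg ?_⟩
      have h3 : g = (w * g⁻¹)⁻¹ * w := by group
      rw [h3]
      exact V.mul_mem (V.inv_mem h) hw
    · left
      refine ⟨hw, fun h => hg ?_⟩
      have h3 : g = (w * g⁻¹)⁻¹ * w := by group
      rw [h3]
      exact V.mul_mem (V.inv_mem hw) h
  have h3 := (V.subgroupOf W).card_mul_index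
  rw [hidx, Nat.card_congr (Subgroup.subgroupOfEquivOfLe hVW).toEquiv, hV] at h3
  omega

/-- the hypotheses give `WF v b` -/
lemma wf_of_hyp (G : Type) [Group G] (hG : Monoid.IsTorsion G) (V : Subgroup G) (hV : Nat.card V = 4)
    (hc : ¬ IsCyclic V) (hcent : Subgroup.centralizer (V : Set G) = V)
    (h8 : ∀ W : Subgroup G, V ≤ W → Nat.card W ≠ 8) (v : G) (hv : v ∈ V) (hv1 : v ≠ 1) :
    ∃ b : G, WF v b := by
  have hfin : Finite V := Nat.finite_of_card_ne_zero (by omega)
  have hexp : ∀ v ∈ V, v * v = 1 := by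
    intro v hv
    have h1 : orderOf (⟨v, hv⟩ : V) ∣ 4 := by
      rw [← hV]
      exact orderOf_dvd_natCard _
    have h2 : orderOf (⟨v, hv⟩ : V) ≠ 4 := by
      intro e
      apply hc
      exact isCyclic_of_orderOf_eq_card (⟨v, hv⟩ : V) (by rw [e, hV])
    have h3 : orderOf (⟨v, hv⟩ : V) ∣ 2 := by
      have h4 : orderOf (⟨v, hv⟩ : V) ≤ 4 := Nat.le_of_dvd (by norm_num) h1
      generalize orderOf (⟨v, hv⟩ : V) = n at h1 h2 h4
      interval_cases n <;> first | omega | (revert h1 h2; decide)
    have h4 := orderOf_dvd_iff_pow_eq_one.1 h3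
    have h5 := congrArg Subtype.val h4
    simpa [pow_two] using h5
  obtain ⟨a, ha1, hav⟩ : ∃ a : V, a ≠ 1 ∧ (a : G) = v :=
    ⟨⟨v, hv⟩, fun e => hv1 (congrArg Subtype.val e), rfl⟩
  have hne : ∃ b : V, b ≠ 1 ∧ b ≠ a := by
    by_contra hcon
    push Not at hcon
    have hs : (Set.univ : Set V) ⊆ {1, a} := by
      intro b _
      by_cases hb : b = 1
      · exact Or.inl hb
      · exact Or.inr (hcon b hb)
    have h1 : Set.ncard (Set.univ : Set V) ≤ Set.ncard ({1, a} : Set V) :=
      Set.ncard_le_ncard hs (Set.toFinite _)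
    rw [Set.ncard_univ, hV] at h1
    have h2 := Set.ncard_insert_le (1 : V) {a}
    rw [Set.ncard_singleton] at h2
    omega
  obtain ⟨b, hb1, hba⟩ := hne
  have haa : (a : G) * a = 1 := hexp _ a.2
  have hbb : (b : G) * b = 1 := hexp _ b.2
  have hab1 : (a : G) * b * (a * b) = 1 := hexp _ (V.mul_mem a.2 b.2)
  have hai : (a : G)⁻¹ = a := inv_eq_of_mul_eq_one_left haa
  have hbi : (b : G)⁻¹ = b := inv_eq_of_mul_eq_one_left hbb
  have hab : (a : G) * b = b * a := by
    have h1 : ((a : G) * b)⁻¹ = a * b := inv_eq_of_mul_eq_one_left hab1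
    rw [← h1, mul_inv_rev, hai, hbi]
  have ha1' : (a : G) ≠ 1 := fun e => ha1 (Subtype.ext e)
  have hb1' : (b : G) ≠ 1 := fun e => hb1 (Subtype.ext e)
  have hba' : (a : G) ≠ b := fun e => hba (Subtype.ext e.symm)
  -- `V` is `1, a, b, ab`
  have hall : ∀ v ∈ V, v = 1 ∨ v = (a : G) ∨ v = (b : G) ∨ v = (a : G) * b := by
    classical
    intro v hv
    by_contra hcon
    push Not at hcon
    obtain ⟨c1, c2, c3, c4⟩ := hcon
    have hinj : Function.Injective (![1, a, b, a * b, ⟨v, hv⟩] : Fin 5 → V) := by
      intro i j hij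
      have hij' := congrArg (Subtype.val) hij
      have e1 : (a : G) * b ≠ 1 := by
        intro e
        apply hba'
        calc (a : G) = a * b * (b : G)⁻¹ := by rw [mul_inv_cancel_right]
          _ = (b : G)⁻¹ := by rw [e, one_mul]
          _ = b := hbi
      have e2 : (a : G) * b ≠ a := by
        intro e
        apply hb1'
        simpa using e
      have e3 : (a : G) * b ≠ b := by
        intro e
        apply ha1'
        simpa using e
      fin_cases i <;> fin_cases j <;>
        first
        | rfl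
        | (exfalso; revert hij'; simp only [Fin.zero_eta, Fin.mk_one, Fin.isValue,
            Matrix.cons_val_zero, Matrix.cons_val_one, Matrix.cons_val, Fin.reduceFinMk]; 
           first
           | exact fun e => ha1' e
           | exact fun e => ha1' e.symm
           | exact fun e => hb1' e
           | exact fun e => hb1' e.symm
           | exact fun e => hba' e
           | exact fun e => hba' e.symm
           | exact fun e => e1 e
           | exact fun e => e1 e.symm
           | exact fun e => e2 e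
           | exact fun e => e2 e.symm
           | exact fun e => e3 e
           | exact fun e => e3 e.symm
           | exact fun e => c1 e
           | exact fun e => c1 e.symm
           | exact fun e => c2 e
           | exact fun e => c2 e.symm
           | exact fun e => c3 e
           | exact fun e => c3 e.symm
           | exact fun e => c4 e
           | exact fun e => c4 e.symm)
    have := Nat.card_le_card_of_injective _ hinj
    rw [hV, Nat.card_eq_fintype_card, Fintype.card_fin] at this
    omega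
  have hcab : ∀ g : G, g * a = a * g → g * b = b * g → g ∈ V := by
    intro g h1 h2
    rw [← hcent, Subgroup.mem_centralizer_iff]
    intro v hv
    rcases hall v hv with e | e | e | e
    · rw [e]; simp
    · rw [e, h1]
    · rw [e, h2]
    · rw [e, mul_assoc, ← h2, ← mul_assoc, ← h1, mul_assoc]
  rw [← hav]
  refine ⟨b, ?_, haa, hbb, hab, ha1', hb1', hba', ?_, ?_⟩
  · intro g
    obtain ⟨n, hn, hn'⟩ := isOfFinOrder_iff_pow_eq_one.1 (hG g)
    exact ⟨n, hn, hn'⟩
  · intro g h1 h2
    exact hall g (hcab g h1 h2)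
  · intro g hga e
    have hgV : g ∉ V := by
      intro hg
      rw [← hcent, Subgroup.mem_centralizer_iff] at hg
      have h1 := hg b b.2
      apply ha1'
      have h2 : (b : G) = a * b := by
        rw [← e]
        calc (b : G) = b * g * g⁻¹ := by group
          _ = g * b * g⁻¹ := by rw [h1]
      calc (a : G) = a * b * (b : G)⁻¹ := by group
        _ = b * (b : G)⁻¹ := by rw [← h2]
        _ = 1 := by group
    have hga' : g * a * g⁻¹ = a := by rw [hga]; group
    have hgab : g * (a * b) * g⁻¹ = b := by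
      calc g * ((a : G) * b) * g⁻¹ = (g * a * g⁻¹) * (g * b * g⁻¹) := by group
        _ = a * (a * b) := by rw [hga', e]
        _ = (a * a) * b := by group
        _ = b := by rw [haa, one_mul]
    have hgg : g * g ∈ V := by
      apply hcab
      · rw [mul_assoc, hga, ← mul_assoc, hga, mul_assoc]
      · calc g * g * b = g * (g * b * g⁻¹) * g⁻¹ * (g * g) := by group
          _ = b * (g * g) := by rw [e, hgab]
    obtain ⟨W, hW, hW8⟩ := wf_eight V hV g hgV hgg (by
      intro w hw
      rcases hall w hw with e1 | e1 | e1 | e1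
      · rw [e1]; simp
      · rw [e1, hga']; exact a.2
      · rw [e1, e]; exact V.mul_mem a.2 b.2
      · rw [e1, hgab]; exact b.2)
    exact h8 W hW hW8

/-- elements of odd order of the centralizer of `a` commute -/
lemma WF.comm {G : Type} [Group G] {a b : G} (u : WF a b) {r s : G} (hr : OddO r) (hs : OddO s)
    (hra : r * a = a * r) (hsa : s * a = a * s) : r * s = s * r := by
  have key : ∀ r : G, OddO r → r * a = a * r → b * r * b⁻¹ = r⁻¹ := by
    intro r hr hra
    obtain ⟨v, t, hv, ht, hta, hbt, he⟩ := WU1_dec u _ hra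
    have binv : b⁻¹ = b := inv_eq_of_mul_eq_one_left u.bb
    have hbt2 : b * t * b = t⁻¹ := by
      rwa [binv] at hbt
    rcases hv with rfl | rfl | rfl | rfl
    · rw [he, one_mul]; exact hbt
    · exfalso
      obtain ⟨k, hk, hk2⟩ := hr
      obtain ⟨l, hl, hl2⟩ := ht
      rw [he] at hk2
      apply u.a1
      have hc : Commute v t := hta.symm
      have h11 : (v * t) ^ (k * l) = 1 := by rw [pow_mul, hk2, one_pow]
      rw [hc.mul_pow, mul_comm k l, pow_mul t, hl2, one_pow, mul_one] at h11
      obtain ⟨q, hq⟩ := hl.mul hk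
      rw [hq, pow_succ, pow_mul, pow_two, u.aa, one_pow, one_mul] at h11
      exact h11
    · have h11 : r * r = 1 := by
        rw [he]
        calc v * t * (v * t) = (v * t * v) * t := by group
          _ = 1 := by rw [hbt2]; group
      rw [hr.eq_one h11]; group
    · have h12 : (a * b) * t * (a * b) = t⁻¹ := by
        calc (a * b) * t * (a * b) = a * (b * t) * (a * b) := by group
          _ = a * (b * t) * (b * a) := by rw [u.ab]
          _ = a * (b * t * b) * a := by group
          _ = a * t⁻¹ * a := by rw [hbt2]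
          _ = (a⁻¹ * t * a⁻¹)⁻¹ := by group
          _ = (a * t * a⁻¹)⁻¹ := by rw [inv_eq_of_mul_eq_one_left u.aa]
          _ = (t * a * a⁻¹)⁻¹ := by rw [hta]
          _ = t⁻¹ := by group
      have h11 : r * r = 1 := by
        rw [he]
        calc a * b * t * (a * b * t) = ((a * b) * t * (a * b)) * t := by group
          _ = 1 := by rw [h12]; group
      rw [hr.eq_one h11]; group
  exact (WU1_mul u r s hr hs hra hsa (key r hr hra) (key s hs hsa)).2.2

/-- the corollary for the question -/
theorem signal (h : S_BLF) :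
    ∀ (G : Type) [Group G], Monoid.IsTorsion G →
      ∀ V : Subgroup G, Nat.card V = 4 → ¬ IsCyclic V →
        Subgroup.centralizer (V : Set G) = V →
          (∀ W : Subgroup G, V ≤ W → Nat.card W ≠ 8) →
            ∀ v ∈ V, v ≠ 1 → ∀ K : Subgroup G, (∀ k ∈ K, k * k = 1 → k = 1) →
              (∀ k ∈ K, v * k * v⁻¹ ∈ K) → ∀ H : Subgroup G, H ≤ K → H.FG → Finite H := by
  intro G _ hG V hV hc hcent h8 v hv hv1 K hK hvK H hHK hH
  obtain ⟨b, u⟩ := wf_of_hyp G hG V hV hc hcent h8 v hv hv1
  have vinv : v⁻¹ = v := inv_eq_of_mul_eq_one_left u.aa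
  have hodd : ∀ k ∈ K, OddO k := by
    intro k hk
    obtain ⟨n, hn1, hn⟩ := u.per k
    have hpos : 0 < orderOf k := orderOf_pos_iff.mpr (isOfFinOrder_iff_pow_eq_one.mpr ⟨n, hn1, hn⟩)
    refine ⟨orderOf k, ?_, pow_orderOf_eq_one k⟩
    by_contra hno
    rw [Nat.not_odd_iff_even] at hno
    obtain ⟨m, hm⟩ := hno
    have h1 : k ^ m * k ^ m = 1 := by rw [← pow_add, ← hm, pow_orderOf_eq_one]
    have h2 := hK _ (K.pow_mem hk m) h1
    have h3 := Nat.le_of_dvd (by omega) (orderOf_dvd_of_pow_eq_one h2)
    omega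
  let φ : MulAut K :=
    { toFun := fun k => ⟨v * k * v⁻¹, hvK k k.2⟩
      invFun := fun k => ⟨v * k * v⁻¹, hvK k k.2⟩
      left_inv := by
        intro k
        apply Subtype.ext
        show v * (v * k * v⁻¹) * v⁻¹ = k
        calc v * (v * k * v⁻¹) * v⁻¹ = (v * v) * k * (v * v)⁻¹ := by group
          _ = k := by rw [u.aa]; group
      right_inv := by
        intro k
        apply Subtype.ext
        show v * (v * k * v⁻¹) * v⁻¹ = k
        calc v * (v * k * v⁻¹) * v⁻¹ = (v * v) * k * (v * v)⁻¹ := by group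
          _ = k := by rw [u.aa]; group
      map_mul' := by
        intro k l
        apply Subtype.ext
        show v * (k * l) * v⁻¹ = (v * k * v⁻¹) * (v * l * v⁻¹)
        group }
  have hφ : ∀ k : K, ((φ k : K) : G) = v * k * v⁻¹ := fun _ => rfl
  have hcomm : ∀ k : K, φ k = k → (k : G) * v = v * k := by
    intro k hk
    have h1 : v * (k : G) * v⁻¹ = k := by rw [← hφ, hk]
    calc (k : G) * v = (v * k * v⁻¹) * v := by rw [h1]
      _ = v * k := by group
  have hfin : Finite (H.subgroupOf K) := by
    refine h K φ ?_ ?_ ?_ ?_ (H.subgroupOf K) ?_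
    · intro k
      obtain ⟨m, hm, hm2⟩ := hodd k k.2
      rw [isOfFinOrder_iff_pow_eq_one]
      exact ⟨m, hm.pos, Subtype.ext (by simpa using hm2)⟩
    · intro k hk
      exact Subtype.ext (hK k k.2 (congrArg Subtype.val hk))
    · apply MulEquiv.ext
      intro k
      apply Subtype.ext
      show v * (v * k * v⁻¹) * v⁻¹ = k
      calc v * (v * k * v⁻¹) * v⁻¹ = (v * v) * k * (v * v)⁻¹ := by group
        _ = k := by rw [u.aa]; group
    · intro k l hk hl
      exact Subtype.ext (u.comm (hodd k k.2) (hodd l l.2) (hcomm k hk) (hcomm l hl))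
    · rw [← Group.fg_iff_subgroup_fg] at hH ⊢
      exact Group.fg_of_surjective (f := (Subgroup.subgroupOfEquivOfLe hHK).symm.toMonoidHom)
        (Subgroup.subgroupOfEquivOfLe hHK).symm.surjective
  exact Finite.of_equiv _ (Subgroup.subgroupOfEquivOfLe hHK).toEquiv

end Pool.Agent.Klein
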