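import Pool.Agent.Lib.MP_3c9215_al.B.Spec

set_option autoImplicit false

/-!
# MP_3c9215_al, part B: StepA
-/

namespace Pool.Agent.KleinB

open Pool.Agent.Klein (D sqr comp sqr_comm sqr_conj sqr_inv sqr_inverted D_sq D_comm D_comm_of_comm
  D_conj D_inv D_comm_of_inverts comp_conj)

theorem tStepA (hCent : S_Cent) (hLineU : S_LineU) (hCOR : S_COR) : S_StepA := by
  intro G _ χ hN Q z hQ hz hzQ
  have hB : BG χ := hN.toBG
  obtain ⟨hC1, hC2, hC3, hC4⟩ := hCent G χ hN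
  obtain ⟨hQ1, hQne, -⟩ := id hQ
  have hzQχ : χ (z * Q) ≠ 1 := chi_mul_ker hz.2 hQ1
  have hr : IsP χ (D (z * Q)) := D_isP hB hzQχ
  set r := D (z * Q) with hrdef
  have hrc : r * (z * Q) = (z * Q) * r := D_comm (z * Q)
  have hrz : r ≠ z := by
    intro e
    rw [e] at hrc
    apply hzQ
    have : z⁻¹ * (z * (z * Q)) = z⁻¹ * (z * Q * z) := by rw [hrc]
    simpa [mul_assoc] using this
  refine ⟨hr, hrz, ?_⟩
  -- the basic facts for every nontrivial element of the centralizer of Q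
  have key : ∀ b ∈ Ck χ Q, b ≠ 1 → z * b * z ≠ b ∧ χ (hs (z * b * z) b⁻¹) = 1 ∧
      hs (z * b * z) b⁻¹ ≠ 1 ∧ Iv z (hs (z * b * z) b⁻¹) ∧ Iv r (hs (z * b * z) b⁻¹) := by
    intro b hb hb1
    have hbχ : χ b = 1 := hb.1
    have hAb : Ax χ b := ((hC3 Q hQ).2 b hb hb1).1
    have hQb : Q ∈ Ck χ b := ⟨hQ1, hb.2.symm⟩
    have hzb : z * b * z ≠ b := by
      intro e
      apply hzQ
      apply hC4 b z Q hAb hz _ hQb
      calc z * b = z * b * (z * z) := by rw [hz.1, mul_one]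
        _ = (z * b * z) * z := by group
        _ = b * z := by rw [e]
    have hzbχ : χ (z * b * z) = 1 := by
      rw [← pconj hz, chi_conj]; exact hbχ
    have hχ : χ (hs (z * b * z) b⁻¹) = 1 := hs_chi' hzbχ (chi_inv_one hbχ)
    have hXY : χ ((z * b * z)⁻¹ * b⁻¹) = 1 := chi_mul_one (chi_inv_one hzbχ) (chi_inv_one hbχ)
    have hne : hs (z * b * z) b⁻¹ ≠ 1 := by
      intro e
      have h1 := (hs_eq_one hB hzbχ (chi_inv_one hbχ)).1 e
      exact hzb (inv_injective h1.symm)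
    refine ⟨hzb, hχ, hne, ?_, ?_⟩
    · -- z inverts v_b
      unfold Iv
      have h1 : z * hs (z * b * z) b⁻¹ * z⁻¹ = hs (z * (z * b * z) * z⁻¹) (z * b⁻¹ * z⁻¹) :=
        (hs_mul hB z z⁻¹ hXY).symm
      have e1 : z * (z * b * z) * z⁻¹ = b := by
        calc z * (z * b * z) * z⁻¹ = (z * z) * b := by group
          _ = b := by rw [hz.1, one_mul]
      have e2 : z * b⁻¹ * z⁻¹ = (z * b * z)⁻¹ := by
        rw [mul_inv_rev, mul_inv_rev, hz.inv_eq]; group
      rw [h1, e1, e2]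
      have h2 : hs (z * b * z)⁻¹ b⁻¹⁻¹ = (hs (z * b * z) b⁻¹)⁻¹ := hs_inv hB hzbχ (chi_inv_one hbχ)
      rw [inv_inv] at h2
      rw [← h2]
      exact hs_symm hB (by
        have : b⁻¹ * (z * b * z)⁻¹ = ((z * b * z) * b)⁻¹ := by group
        rw [this]
        exact chi_inv_one (chi_mul_one hzbχ hbχ))
    · -- r inverts v_b
      apply (hCOR G χ hB r b (z * b * z) hr hbχ hzbχ).1
      -- z r z = Q r Q⁻¹
      have e1 : z * r * z = Q * r * Q⁻¹ := by
        have h1 : z * r * z⁻¹ = D (z * (z * Q) * z⁻¹) := D_conj z (z * Q)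
        have h2 : Q * r * Q⁻¹ = D (Q * (z * Q) * Q⁻¹) := D_conj Q (z * Q)
        rw [← pconj hz, h1, h2]
        congr 1
        calc z * (z * Q) * z⁻¹ = (z * z) * Q * z⁻¹ := by group
          _ = Q * z⁻¹ := by rw [hz.1, one_mul]
          _ = Q * z := by rw [hz.inv_eq]
          _ = Q * (z * Q) * Q⁻¹ := by group
      have e2 : z * (r * (z * b * z)) * z⁻¹ = Q * r * Q⁻¹ * b := by
        calc z * (r * (z * b * z)) * z⁻¹ = (z * r * z) * b := by group
          _ = Q * r * Q⁻¹ * b := by rw [e1]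
      have e3 : Q⁻¹ * (Q * r * Q⁻¹ * b) * Q⁻¹⁻¹ = r * b := by
        calc Q⁻¹ * (Q * r * Q⁻¹ * b) * Q⁻¹⁻¹ = r * Q⁻¹ * (b * Q) := by group
          _ = r * Q⁻¹ * (Q * b) := by rw [hb.2]
          _ = r * b := by group
      have c1 : IsConj (r * (z * b * z)) (Q * r * Q⁻¹ * b) := by
        rw [← e2]; exact isConj_conj z _
      have c2 : IsConj (Q * r * Q⁻¹ * b) (r * b) := by
        rw [← e3]; exact isConj_conj Q⁻¹ _
      exact (c1.trans c2).symm
  obtain ⟨-, hQχ, hQv, hzv, hrv⟩ := key Q ⟨hQ1, rfl⟩ hQne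
  intro b hb hb1
  have hbχ : χ b = 1 := hb.1
  have hzbχ : χ (z * b * z) = 1 := by
    rw [← pconj hz, chi_conj]; exact hbχ
  obtain ⟨k1, k2, k3, k4, k5⟩ := key b hb hb1
  refine ⟨k1, k2, k3, k4, k5, ?_, ?_, ?_⟩
  · have := comp_conj_comm hB hz (c := z) rfl hbχ
    rwa [pconj hz] at this
  · -- comp r (z b z) = comp r b
    have hcr : (z * Q) * r = r * (z * Q) := hrc.symm
    have h1 := comp_conj_comm hB hr (c := z * Q) hcr hbχ
    have e1 : z * Q * b * (z * Q)⁻¹ = z * b * z := by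
      calc z * Q * b * (z * Q)⁻¹ = z * (Q * b) * Q⁻¹ * z⁻¹ := by group
        _ = z * (b * Q) * Q⁻¹ * z⁻¹ := by rw [hb.2]
        _ = z * b * z⁻¹ := by group
        _ = z * b * z := by rw [hz.inv_eq]
    rwa [e1] at h1
  · intro w hw
    rw [hCOR G χ hB w b (z * b * z) hw hbχ hzbχ]
    constructor
    · intro hi
      exact hLineU G χ hN z r w _ _ hz hr hw (Ne.symm hrz) k2 hQχ k3 hQv k4 k5 hzv hrv hi
    · intro hi
      exact hLineU G χ hN z r w _ _ hz hr hw (Ne.symm hrz) hQχ k2 hQv k3 hzv hrv k4 k5 hi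

end Pool.Agent.KleinB
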