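import Pool.Agent.Lib.MP_3c9215_al.B.Spec

set_option autoImplicit false

/-!
# MP_3c9215_al, part B: step B1 of rigidity
-/

namespace Pool.Agent.KleinB

open Pool.Agent.Klein (D sqr comp)

theorem tStepB1 (hCent : S_Cent) (hLineU : S_LineU) (hStepA : S_StepA) (hEqE : S_EqE)
    (hBis : S_Bis) (hL1 : S_L1) : S_StepB1 := by
  intro G _ χ hN Q z b W hQ hz hzQ hb hb1 hW hv
  have h : BG χ := hN.toBG
  obtain ⟨-, c2, c3, -⟩ := hCent G χ hN
  obtain ⟨hr, hrz, hA⟩ := hStepA G χ hN Q z hQ hz hzQ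
  have hQQ : Q ∈ Ck χ Q := ⟨hQ.1, rfl⟩
  obtain ⟨-, Q2, Q3, Q4, Q5, -, -, -⟩ := hA Q hQQ hQ.2.1
  obtain ⟨b1, -, -, -, -, b6, b7, b8⟩ := hA b hb hb1
  have hp : IsP χ (D W) := D_isP h hW
  have hbz : χ (z * b * z) = 1 := by
    rw [← pconj hz, chi_conj]
    exact hb.1
  by_cases hzi : Iv z Q
  · have e1 : z * Q * z = Q⁻¹ := (iv_def hz).1 hzi
    have e2 : hs (z * Q * z) Q⁻¹ = Q⁻¹ := by
      rw [e1]
      exact hs_unique h (by rw [inv_mul_cancel, map_one]) (by group)
    rw [e2] at hv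
    have hpQ : Iv (D W) Q := by
      have := hv.inv
      rwa [inv_inv] at this
    have hpb : Iv (D W) b := c2 _ Q b hp hQ.1 hQ.2.1 hpQ hb
    have hzb : Iv z b := c2 z Q b hz hQ.1 hQ.2.1 hzi hb
    rw [(iv_def hz).1 hzb]
    exact (hL1 G χ h W b hW hb.1).2 hpb
  · have hzb : ¬ Iv z b := by
      intro h'
      obtain ⟨-, h1⟩ := c3 Q hQ
      obtain ⟨-, h2⟩ := h1 b hb hb1
      have h3 : Q ∈ Ck χ b := by
        rw [h2]
        exact hQQ
      exact hzi (c2 z b Q hz hb.1 hb1 h' h3)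
    have hE : comp (D W) b = comp (D W) (z * b * z) :=
      hEqE G χ hN b (z * b * z) z (D (z * Q)) (hs (z * Q * z) Q⁻¹) (D W) hb.1 hbz
        (Ne.symm b1) hz hr (Ne.symm hrz) b6.symm b7.symm Q2 Q3 Q4 Q5 hp hv
    have hl : comp (D W) b ∈ Ck χ (D W) := comp_mem h hp hb.1
    obtain ⟨i, hi, hpi, ei⟩ := comp_factor h hp hb.1
    obtain ⟨i', hi', hpi', ei'⟩ := comp_factor h hp hbz
    rw [← hE] at ei'
    have hl1 : comp (D W) b ≠ 1 := by
      intro h0
      rw [h0, one_mul] at ei ei'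
      have p1 : Iv (D W) b := by rw [ei]; exact hpi
      have p2 : Iv (D W) (z * b * z) := by rw [ei']; exact hpi'
      have p3 : Iv (z * D W * z⁻¹) b := by
        have := p2.conj z
        have e : z * (z * b * z) * z⁻¹ = b := by
          calc z * (z * b * z) * z⁻¹ = (z * z) * b := by group
            _ = b := by rw [hz.1, one_mul]
        rwa [e] at this
      have p4 : Iv (z * D W * z⁻¹) (hs (z * Q * z) Q⁻¹) := by
        have h1 := hv.conj z
        have e : z * hs (z * Q * z) Q⁻¹ * z⁻¹ = (hs (z * Q * z) Q⁻¹)⁻¹ := Q4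
        rw [e] at h1
        have := h1.inv
        rwa [inv_inv] at this
      have hne : D W ≠ z * D W * z⁻¹ := by
        intro h1
        have h2 : z * D W = D W * z := by
          calc z * D W = z * D W * z⁻¹ * z := by group
            _ = D W * z := by rw [← h1]
        have h3 := pts_eq_of_comm h hz hp h2
        rw [← h3] at p1
        exact hzb p1
      exact hzb (hLineU G χ hN (D W) (z * D W * z⁻¹) z (hs (z * Q * z) Q⁻¹) b hp (hp.conj z) hz hne
        Q2 hb.1 Q3 hb1 hv p4 p1 p3 Q4)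
    obtain ⟨a, ha, -, ea⟩ := D_factor h hW
    have hj : IsP χ (D W * i) := (iv_iff_isP hp hi).1 hpi
    have hj' : IsP χ (D W * i') := (iv_iff_isP hp hi').1 hpi'
    have ej : comp (D W) b * (D W * i) = D W * b := by
      conv_rhs => rw [ei]
      rw [← mul_assoc, hl.2, mul_assoc]
    have ej' : comp (D W) b * (D W * i') = D W * (z * b * z) := by
      conv_rhs => rw [ei']
      rw [← mul_assoc, hl.2, mul_assoc]
    have hc : IsConj (comp (D W) b * (D W * i)) (comp (D W) b * (D W * i')) := by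
      rw [ej, ej']
      exact (b8 _ hp).2 hv
    have hfin := hBis G χ hN (D W) (comp (D W) b) (D W * i) (D W * i') hp hl hl1 hj hj' hc
      (a * comp (D W) b) ((Ck χ (D W)).mul_mem ha hl)
    have f1 : a * comp (D W) b * (D W * i) = W * b := by
      rw [mul_assoc, ej, ← mul_assoc, ← ea]
    have f2 : a * comp (D W) b * (D W * i') = W * (z * b * z) := by
      rw [mul_assoc, ej', ← mul_assoc, ← ea]
    rwa [f1, f2] at hfin

end Pool.Agent.KleinB
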