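import Pool.Agent.Lib.MP_3c9215_al.B.Spec

set_option autoImplicit false

/-!
# MP_3c9215_al, part B: StepB2
-/

namespace Pool.Agent.KleinB

open Pool.Agent.Klein (D sqr comp sqr_comm sqr_conj sqr_inv sqr_inverted D_sq D_comm D_comm_of_comm
  D_conj D_inv D_comm_of_inverts comp_conj)

theorem tStepB2 (hStepA : S_StepA) (hStepB1 : S_StepB1) (hColl : S_Coll) (hCOR : S_COR)
    (hLineU : S_LineU) : S_StepB2 := by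
  intro G _ χ hN Q z b W hQ hz hzQ hb hb1 hW hconj
  have hB : BG χ := hN.toBG
  obtain ⟨hQ1, hQne, -⟩ := id hQ
  have hbχ : χ b = 1 := hb.1
  have hzbχ : χ (z * b * z) = 1 := by
    rw [← pconj hz, chi_conj]; exact hbχ
  obtain ⟨hr, hrz, hA⟩ := hStepA G χ hN Q z hQ hz hzQ
  obtain ⟨-, hvχ, hv1, hzv, hrv, -, -, -⟩ := hA Q ⟨hQ1, rfl⟩ hQne
  obtain ⟨hbz, -⟩ := hA b hb hb1
  obtain ⟨w₀, hw₀1, hw₀2⟩ := hB.ex
  have hw₀ : IsP χ w₀ := ⟨hw₀1, hw₀2⟩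
  set v := hs (z * Q * z) Q⁻¹ with hvdef
  set r := D (z * Q) with hrdef
  obtain ⟨c₀, hc₀⟩ : ∃ c₀, c₀ = w₀ * W := ⟨_, rfl⟩
  have hWc : W = w₀ * c₀ := by rw [hc₀, ← mul_assoc, hw₀1, one_mul]
  have hcχ : χ c₀ = 1 := by rw [hc₀]; exact chi_mul_pts hw₀2 hW
  obtain ⟨hL1, hL2, hL3, hL4⟩ := hColl G χ hB c₀ hcχ
  -- g₁
  have hX1 : χ (c₀ * (z * b * z)) = 1 := chi_mul_one hcχ hzbχ
  have hX2 : χ (c₀ * b) = 1 := chi_mul_one hcχ hbχ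
  have hg1 : ∀ w, IsP χ w → (IsConj (w * c₀ * b) (w * c₀ * (z * b * z)) ↔
      Iv w (hs (c₀ * (z * b * z)) (c₀ * b)⁻¹)) := by
    intro w hw
    have := hCOR G χ hB w (c₀ * b) (c₀ * (z * b * z)) hw hX2 hX1
    rwa [← mul_assoc w c₀ b, ← mul_assoc w c₀ (z * b * z)] at this
  have hg1χ : χ (hs (c₀ * (z * b * z)) (c₀ * b)⁻¹) = 1 := hs_chi' hX1 (chi_inv_one hX2)
  have hg1ne : hs (c₀ * (z * b * z)) (c₀ * b)⁻¹ ≠ 1 := by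
    intro e
    have h1 := inv_injective ((hs_eq_one hB hX1 (chi_inv_one hX2)).1 e)
    exact hbz (mul_left_cancel h1).symm
  have hg2χ : χ (hs (c₀ * v) (v * c₀⁻¹)) = 1 :=
    hs_chi' (chi_mul_one hcχ hvχ) (chi_mul_one hvχ (chi_inv_one hcχ))
  have hg2ne : hs (c₀ * v) (v * c₀⁻¹) ≠ 1 := hL4 v hvχ hv1
  have hstep : ∀ w, IsP χ w → Iv w (hs (c₀ * v) (v * c₀⁻¹)) →
      Iv w (hs (c₀ * (z * b * z)) (c₀ * b)⁻¹) := by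
    intro w hw hi
    apply (hg1 w hw).1
    exact hStepB1 G χ hN Q z b (w * c₀) hQ hz hzQ hb hb1 (chi_mul_ker hw.2 hcχ)
      ((hL1 v w hvχ hw).2 hi)
  obtain ⟨wz, hwz, ewz⟩ := hL2 z hz
  obtain ⟨wr, hwr, ewr⟩ := hL2 r hr
  have hne : wz ≠ wr := by
    intro e
    apply hrz
    rw [← ewr, ← ewz, e]
  have hz2 : Iv wz (hs (c₀ * v) (v * c₀⁻¹)) := (hL1 v wz hvχ hwz).1 (by rw [ewz]; exact hzv)
  have hr2 : Iv wr (hs (c₀ * v) (v * c₀⁻¹)) := (hL1 v wr hvχ hwr).1 (by rw [ewr]; exact hrv)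
  have h0 : Iv w₀ (hs (c₀ * (z * b * z)) (c₀ * b)⁻¹) := by
    apply (hg1 w₀ hw₀).1
    rw [← hWc]; exact hconj
  have h02 : Iv w₀ (hs (c₀ * v) (v * c₀⁻¹)) :=
    hLineU G χ hN wz wr w₀ _ _ hwz hwr hw₀ hne hg1χ hg2χ hg1ne hg2ne (hstep wz hwz hz2)
      (hstep wr hwr hr2) hz2 hr2 h0
  have := (hL1 v w₀ hvχ hw₀).2 h02
  rwa [← hWc] at this

end Pool.Agent.KleinB
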