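import Pool.Agent.Lib.MP_3c9215_al.B.Spec

set_option autoImplicit false

/-!
# MP_3c9215_al, part B: the module `StrongB`
-/

namespace Pool.Agent.KleinB

open Pool.Agent.Klein (D sqr comp sqr_comm sqr_conj sqr_inv sqr_inverted D_sq D_comm D_comm_of_comm
  D_conj D_inv D_comm_of_inverts comp_conj)

section strong

variable {G : Type} [Group G] {χ : G →* C2}

/-- Step 1: `s` commutes with `TB x z f`. -/
private lemma strongb_step1 (h1 : S_TOpsB) (h3 : S_TCommB) (h4 : S_SepB) (h : BG χ) {x f s : G}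
    (hx : IsP χ x) (hf : f ∈ Ck χ x) (hs1 : χ s = 1) (hc : f * s = s * f)
    (hE : ∀ e : G, χ e = 1 → (∀ w : G, IsP χ w → Iv w e) → e = 1)
    {z : G} (hz : χ z = 1) : TB x z f * s = s * TB x z f := by
  have hf' : TB x z f ∈ Ck χ x := ((h1 G χ h x f hx hf).1 z hz).1
  set f' := TB x z f with hf'def
  have hconj : s⁻¹ * f * s = f := by rw [mul_assoc, hc]; group
  -- for all `g` in the kernel the two components agree
  have key : ∀ g : G, χ g = 1 → comp x (g⁻¹ * (s⁻¹ * f' * s) * g) = comp x (g⁻¹ * f' * g) := by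
    intro g hg
    have hβg : χ (s * g) = 1 := by rw [map_mul, hs1, hg, mul_one]
    have e1 : TB x (s * g) f = TB x g f := by
      unfold TB
      congr 1
      calc (s * g)⁻¹ * f * (s * g) = g⁻¹ * (s⁻¹ * f * s) * g := by group
        _ = g⁻¹ * f * g := by rw [hconj]
    have e2 : TB x (s * g) f' = TB x g f' := by
      calc TB x (s * g) f' = TB x z (TB x (s * g) f) := h3 G χ h x (s * g) z f hx hβg hz hf
        _ = TB x z (TB x g f) := by rw [e1]
        _ = TB x g f' := (h3 G χ h x g z f hx hg hz hf).symm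
    have e3 : TB x (s * g) f' = comp x (g⁻¹ * (s⁻¹ * f' * s) * g) := by
      unfold TB
      congr 1
      group
    rw [← e3, e2]
    rfl
  have hcomp : ∀ p : G, IsP χ p → comp p f' = comp p (s⁻¹ * f' * s) := by
    intro p hp
    obtain ⟨g, hg, -, -, rfl, -⟩ := pts_conj_ker h hx hp
    have e0 : g⁻¹ * x * g = g⁻¹ * x * g⁻¹⁻¹ := by group
    have e1 : comp (g⁻¹ * x * g) f' = g⁻¹ * comp x (g⁻¹⁻¹ * f' * g⁻¹) * g⁻¹⁻¹ := by
      rw [← comp_conj, ← e0]
      congr 1
      group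
    have e2 : comp (g⁻¹ * x * g) (s⁻¹ * f' * s) =
        g⁻¹ * comp x (g⁻¹⁻¹ * (s⁻¹ * f' * s) * g⁻¹) * g⁻¹⁻¹ := by
      rw [← comp_conj, ← e0]
      congr 1
      group
    rw [e1, e2, key g⁻¹ (chi_inv_one hg)]
  have hk : χ (s⁻¹ * f' * s) = 1 := by
    rw [chi_conj']; exact hf'.1
  have hsep := h4 G χ h f' (s⁻¹ * f' * s) hf'.1 hk hcomp
  have hone := hE (f'⁻¹ * (s⁻¹ * f' * s))
    (by rw [map_mul, map_inv, hf'.1, hk]; simp) hsep
  have heq : s⁻¹ * f' * s = f' := by
    have := congrArg (fun w => f' * w) hone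
    simpa [mul_assoc] using this
  calc f' * s = s * (s⁻¹ * f' * s) := by group
    _ = s * f' := by rw [heq]

end strong

theorem tStrongB (hTOpsB : S_TOpsB) (hTCommB : S_TCommB) (hSepB : S_SepB) : S_StrongB := by
  intro G _ χ h x f s hx hf hs1 hxs hc hE n hn
  have hstep : ∀ z : G, χ z = 1 → TB x z f * s = s * TB x z f := fun z hz =>
    strongb_step1 hTOpsB hTCommB hSepB h hx hf hs1 hc hE hz
  have hnf : χ (n⁻¹ * f * n) = 1 := by rw [chi_conj']; exact hf.1
  obtain ⟨i, hi, hxi, e⟩ := comp_factor h hx hnf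
  have hl : comp x (n⁻¹ * f * n) = TB x n f := rfl
  rw [hl] at e
  have hls := hstep n hn
  have hlm : TB x n f ∈ Ck χ x := ((hTOpsB G χ h x f hx hf).1 n hn).1
  have hns : χ (n * s) = 1 := chi_mul_one hn hs1
  have hconj : s * f * s⁻¹ = f := by rw [← hc]; group
  -- the two computations of `TB x (n s) f`
  have e1 : TB x (n * s) f = TB x n f * comp x (s⁻¹ * i * s) := by
    have e2 : (n * s)⁻¹ * f * (n * s) = TB x n f * (s⁻¹ * i * s) := by
      calc (n * s)⁻¹ * f * (n * s) = s⁻¹ * (n⁻¹ * f * n) * s := by group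
        _ = s⁻¹ * (TB x n f * i) * s := by rw [← e]
        _ = s⁻¹ * (TB x n f * s) * (s⁻¹ * i * s) := by group
        _ = s⁻¹ * (s * TB x n f) * (s⁻¹ * i * s) := by rw [hls]
        _ = TB x n f * (s⁻¹ * i * s) := by group
    have e3 : TB x (n * s) f = comp x ((n * s)⁻¹ * f * (n * s)) := rfl
    rw [e3, e2, comp_mul_left h hx hlm (by rw [chi_conj']; exact hi)]
  have e2 : TB x (n * s) f = TB x n f := by
    have e3 : TB x (n * s) f = TB x (n * s)⁻¹ f :=
      (((hTOpsB G χ h x f hx hf).1 (n * s) hns).2.1).symm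
    have e4 : TB x (n * s)⁻¹ f = TB x n⁻¹ f := by
      unfold TB
      congr 1
      calc (n * s)⁻¹⁻¹ * f * (n * s)⁻¹ = n * (s * f * s⁻¹) * n⁻¹ := by group
        _ = n⁻¹⁻¹ * f * n⁻¹ := by rw [hconj, inv_inv]
    rw [e3, e4]
    exact ((hTOpsB G χ h x f hx hf).1 n hn).2.1
  have e3 : comp x (s⁻¹ * i * s) = 1 := by
    rw [e2] at e1
    exact (left_eq_mul.1 e1)
  have hsi : χ (s⁻¹ * i * s) = 1 := by rw [chi_conj']; exact hi
  have h5 : x * (s⁻¹ * i * s) * x = (s⁻¹ * i * s)⁻¹ :=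
    (iv_def hx).1 (iv_of_comp_one h hx hsi e3)
  have hxs' : x * s * x = s⁻¹ := (iv_def hx).1 hxs
  have hxsi : x * s⁻¹ * x = s := by
    have := (iv_def hx).1 hxs.inv
    rwa [inv_inv] at this
  have hxi' : x * i * x = i⁻¹ := (iv_def hx).1 hxi
  have h6 : x * (s⁻¹ * i * s) * x = s * i⁻¹ * s⁻¹ := by
    calc x * (s⁻¹ * i * s) * x = x * s⁻¹ * (x * x) * i * (x * x) * s * x := by
          rw [hx.1]; group
      _ = (x * s⁻¹ * x) * (x * i * x) * (x * s * x) := by group
      _ = s * i⁻¹ * s⁻¹ := by rw [hxsi, hxi', hxs']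
  have h7 : i * (s * s) = (s * s) * i := by
    have h8 : s * i⁻¹ * s⁻¹ = s⁻¹ * i⁻¹ * s := by
      rw [← h6, h5]; group
    have h9 : s * i * s⁻¹ = s⁻¹ * i * s := by
      have := congrArg (fun w => w⁻¹) h8
      simp only [mul_inv_rev, inv_inv] at this
      calc s * i * s⁻¹ = s * (i * s⁻¹) := by group
        _ = s⁻¹ * (i * s) := this
        _ = s⁻¹ * i * s := by group
    calc i * (s * s) = s * (s⁻¹ * i * s) * s := by group
      _ = s * (s * i * s⁻¹) * s := by rw [h9]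
      _ = (s * s) * i := by group
  have h8 : i * s = s * i := comm_of_comm_sq h hs1 h7
  rw [e]
  calc TB x n f * i * s = TB x n f * (i * s) := by group
    _ = (TB x n f * s) * i := by rw [h8]; group
    _ = s * (TB x n f * i) := by rw [hls]; group

end Pool.Agent.KleinB
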