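import Pool.Agent.Lib.MP_3c9215_al.B.Spec

set_option autoImplicit false

/-!
# MP_3c9215_al, part B: words with a trivial letter
-/

namespace Pool.Agent.KleinB

open Pool.Agent.Klein (D sqr comp)

lemma sydeg_wd_nil {G : Type} [Group G] : wd ([] : List (G × G)) = 1 := rfl

lemma sydeg_wd'_nil {G : Type} [Group G] : wd' ([] : List (G × G)) = 1 := rfl

lemma sydeg_wd_cons {G : Type} [Group G] (p : G × G) (l : List (G × G)) :
    wd (p :: l) = p.1 * p.2 * wd l := by
  simp only [wd, List.map_cons, List.prod_cons]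

lemma sydeg_wd'_cons {G : Type} [Group G] (p : G × G) (l : List (G × G)) :
    wd' (p :: l) = p.1 * p.2⁻¹ * wd' l := by
  simp only [wd', List.map_cons, List.prod_cons]

lemma sydeg_wd_append {G : Type} [Group G] (l m : List (G × G)) :
    wd (l ++ m) = wd l * wd m := by
  simp only [wd, List.map_append, List.prod_append]

lemma sydeg_wd'_append {G : Type} [Group G] (l m : List (G × G)) :
    wd' (l ++ m) = wd' l * wd' m := by
  simp only [wd', List.map_append, List.prod_append]

/-- transfer of the symmetry between words with conjugate values -/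
lemma sydeg_transfer {G : Type} [Group G] {c : G} {l m : List (G × G)}
    (h1 : IsConj (c * wd l) (c * wd m)) (h2 : IsConj (c * wd' l) (c * wd' m)) (h : Sy c m) :
    Sy c l := by
  unfold Sy at *
  exact (h1.trans h).trans (IsConj.inv' h2).symm

lemma sydeg_vld_append {G : Type} [Group G] {χ : G →* C2} {u c : G} {l m : List (G × G)} :
    Vld χ u c (l ++ m) ↔ Vld χ u c l ∧ Vld χ u c m := by
  unfold Vld
  constructor
  · intro h
    exact ⟨fun p hp => h p (List.mem_append_left _ hp), fun p hp => h p (List.mem_append_right _ hp)⟩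
  · rintro ⟨h1, h2⟩ p hp
    rcases List.mem_append.1 hp with hp | hp
    · exact h1 p hp
    · exact h2 p hp

lemma sydeg_vld_cons {G : Type} [Group G] {χ : G →* C2} {u c : G} {p : G × G}
    {l : List (G × G)} :
    Vld χ u c (p :: l) ↔ (p.1 ∈ Ck χ u ∧ p.2 ∈ Ck χ c) ∧ Vld χ u c l := by
  unfold Vld
  constructor
  · intro h
    exact ⟨h p List.mem_cons_self, fun q hq => h q (List.mem_cons_of_mem _ hq)⟩
  · rintro ⟨h1, h2⟩ q hq
    rcases List.mem_cons.1 hq with hq | hq
    · rw [hq]; exact h1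
    · exact h2 q hq

/-- Words with a trivial letter. -/
theorem tSyDeg (hCent : S_Cent) : S_SyDeg := by
  intro G _ χ hN c u n hc hu hu1 hcu hind l hl hv ⟨p, hp, hp1⟩
  obtain ⟨hCi, hCii, hCiii, -⟩ := hCent G χ hN
  have hB : BG χ := hN.toBG
  -- relations with `c`
  have hf : ∀ f ∈ Ck χ u, f * c = c * f⁻¹ := by
    intro f hfu
    have h1 : Iv c f := hCii c u f hc hu hu1 hcu hfu
    have h2 : c * f * c = f⁻¹ := (iv_def hc).1 h1
    calc f * c = (c * c) * f * c := by rw [hc.1, one_mul]
      _ = c * (c * f * c) := by group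
      _ = c * f⁻¹ := by rw [h2]
  have ha : ∀ a ∈ Ck χ c, a * c = c * a := fun a h => h.2
  have haa : ∀ a ∈ Ck χ c, ∀ b ∈ Ck χ c, a * b = b * a := fun a h b h' => Ck_comm hB hc h h'
  obtain ⟨l₁, l₂, rfl⟩ := List.append_of_mem hp
  obtain ⟨f, a⟩ := p
  rw [sydeg_vld_append, sydeg_vld_cons] at hv
  obtain ⟨hv1, ⟨hpf, hpa⟩, hv2⟩ := hv
  rw [List.length_append, List.length_cons] at hl
  dsimp only at hpf hpa hp1
  rcases hp1 with rfl | rfl
  · -- the pair `(1, a)`
    rcases List.eq_nil_or_concat l₁ with rfl | ⟨l₁', ⟨f', a'⟩, rfl⟩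
    · rcases List.eq_nil_or_concat l₂ with rfl | ⟨l₂', ⟨f', a'⟩, rfl⟩
      · -- `[(1, a)]`
        have e : c * wd ([] ++ [((1 : G), a)]) = (c * wd' ([] ++ [((1 : G), a)]))⁻¹ := by
          simp only [List.nil_append, sydeg_wd_cons, sydeg_wd'_cons, sydeg_wd_nil,
            sydeg_wd'_nil, one_mul, mul_one, mul_inv_rev, inv_inv, hc.inv_eq]
          exact (ha a hpa).symm
        unfold Sy
        rw [e]
      · rw [List.concat_eq_append, sydeg_vld_append, sydeg_vld_cons] at hv2
        obtain ⟨hv2, ⟨hf', ha'⟩, -⟩ := hv2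
        dsimp only at hf' ha'
        refine sydeg_transfer (m := (f'⁻¹, a' * a) :: l₂') ?_ ?_ (hind _ ?_ ?_)
        · refine isConj_iff.2 ⟨f' * a', ?_⟩
          simp only [List.nil_append, List.concat_eq_append, sydeg_wd_cons, sydeg_wd_append,
            sydeg_wd_nil, one_mul, mul_one]
          calc f' * a' * (c * (a * (wd l₂' * (f' * a')))) * (f' * a')⁻¹
              = f' * (a' * c) * a * wd l₂' := by group
            _ = f' * (c * a') * a * wd l₂' := by rw [ha a' ha']
            _ = (f' * c) * a' * a * wd l₂' := by group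
            _ = (c * f'⁻¹) * a' * a * wd l₂' := by rw [hf f' hf']
            _ = c * (f'⁻¹ * (a' * a) * wd l₂') := by group
        · refine isConj_iff.2 ⟨f' * a'⁻¹, ?_⟩
          simp only [List.nil_append, List.concat_eq_append, sydeg_wd'_cons, sydeg_wd'_append,
            sydeg_wd'_nil, one_mul, mul_one]
          rw [haa a' ha' a hpa, mul_inv_rev a a']
          calc f' * a'⁻¹ * (c * (a⁻¹ * (wd' l₂' * (f' * a'⁻¹)))) * (f' * a'⁻¹)⁻¹
              = f' * (a'⁻¹ * c) * a⁻¹ * wd' l₂' := by group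
            _ = f' * (c * a'⁻¹) * a⁻¹ * wd' l₂' := by rw [ha a'⁻¹ ((Ck χ c).inv_mem ha')]
            _ = (f' * c) * a'⁻¹ * a⁻¹ * wd' l₂' := by group
            _ = (c * f'⁻¹) * a'⁻¹ * a⁻¹ * wd' l₂' := by rw [hf f' hf']
            _ = c * (f'⁻¹ * (a'⁻¹ * a⁻¹) * wd' l₂') := by group
        · simp only [List.length_nil, List.concat_eq_append, List.length_append,
            List.length_cons] at hl ⊢
          omega
        · rw [sydeg_vld_cons]
          exact ⟨⟨(Ck χ u).inv_mem hf', (Ck χ c).mul_mem ha' hpa⟩, hv2⟩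
    · rw [List.concat_eq_append, sydeg_vld_append, sydeg_vld_cons] at hv1
      obtain ⟨hv1, ⟨hf', ha'⟩, -⟩ := hv1
      dsimp only at hf' ha'
      refine sydeg_transfer (m := l₁' ++ (f', a' * a) :: l₂) ?_ ?_ (hind _ ?_ ?_)
      · have e : wd (l₁'.concat (f', a') ++ (1, a) :: l₂) = wd (l₁' ++ (f', a' * a) :: l₂) := by
          simp only [List.concat_eq_append, sydeg_wd_cons, sydeg_wd_append, sydeg_wd_nil]
          group
        rw [e]
      · have e : wd' (l₁'.concat (f', a') ++ (1, a) :: l₂) = wd' (l₁' ++ (f', a' * a) :: l₂) := by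
          simp only [List.concat_eq_append, sydeg_wd'_cons, sydeg_wd'_append, sydeg_wd'_nil]
          rw [haa a' ha' a hpa]
          group
        rw [e]
      · simp only [List.concat_eq_append, List.length_append, List.length_cons,
          List.length_nil] at hl ⊢
        omega
      · rw [sydeg_vld_append, sydeg_vld_cons]
        exact ⟨hv1, ⟨hf', (Ck χ c).mul_mem ha' hpa⟩, hv2⟩
  · -- the pair `(f, 1)`
    rcases l₂ with _ | ⟨⟨f', a'⟩, l₂'⟩
    · rcases l₁ with _ | ⟨⟨f₁, a₁⟩, l₁'⟩
      · have e : c * wd ([] ++ [(f, (1 : G))]) = (c * wd' ([] ++ [(f, (1 : G))]))⁻¹ := by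
          simp only [List.nil_append, sydeg_wd_cons, sydeg_wd'_cons, sydeg_wd_nil,
            sydeg_wd'_nil, mul_one, mul_inv_rev, hc.inv_eq, inv_one]
          have h1 := hf f⁻¹ ((Ck χ u).inv_mem hpf)
          rw [inv_inv] at h1
          exact h1.symm
        unfold Sy
        rw [e]
      · rw [sydeg_vld_cons] at hv1
        obtain ⟨⟨hf₁, ha₁⟩, hv1⟩ := hv1
        dsimp only at hf₁ ha₁
        refine sydeg_transfer (m := (f⁻¹ * f₁, a₁) :: l₁') ?_ ?_ (hind _ ?_ ?_)
        · refine isConj_iff.2 ⟨f, ?_⟩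
          simp only [List.cons_append, sydeg_wd_cons, sydeg_wd_append, sydeg_wd_nil, mul_one]
          calc f * (c * (f₁ * a₁ * (wd l₁' * f))) * f⁻¹ = (f * c) * (f₁ * a₁ * wd l₁') := by group
            _ = (c * f⁻¹) * (f₁ * a₁ * wd l₁') := by rw [hf f hpf]
            _ = c * (f⁻¹ * f₁ * a₁ * wd l₁') := by group
        · refine isConj_iff.2 ⟨f, ?_⟩
          simp only [List.cons_append, sydeg_wd'_cons, sydeg_wd'_append, sydeg_wd'_nil, mul_one,
            inv_one]
          calc f * (c * (f₁ * a₁⁻¹ * (wd' l₁' * f))) * f⁻¹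
              = (f * c) * (f₁ * a₁⁻¹ * wd' l₁') := by group
            _ = (c * f⁻¹) * (f₁ * a₁⁻¹ * wd' l₁') := by rw [hf f hpf]
            _ = c * (f⁻¹ * f₁ * a₁⁻¹ * wd' l₁') := by group
        · simp only [List.length_nil, List.length_cons] at hl ⊢
          omega
        · rw [sydeg_vld_cons]
          exact ⟨⟨(Ck χ u).mul_mem ((Ck χ u).inv_mem hpf) hf₁, ha₁⟩, hv1⟩
    · rw [sydeg_vld_cons] at hv2
      obtain ⟨⟨hf', ha'⟩, hv2⟩ := hv2
      dsimp only at hf' ha'
      refine sydeg_transfer (m := l₁ ++ (f * f', a') :: l₂') ?_ ?_ (hind _ ?_ ?_)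
      · have e : wd (l₁ ++ (f, 1) :: (f', a') :: l₂') = wd (l₁ ++ (f * f', a') :: l₂') := by
          simp only [sydeg_wd_cons, sydeg_wd_append]
          group
        rw [e]
      · have e : wd' (l₁ ++ (f, 1) :: (f', a') :: l₂') = wd' (l₁ ++ (f * f', a') :: l₂') := by
          simp only [sydeg_wd'_cons, sydeg_wd'_append]
          group
        rw [e]
      · simp only [List.length_append, List.length_cons] at hl ⊢
        omega
      · rw [sydeg_vld_append, sydeg_vld_cons]
        exact ⟨hv1, ⟨(Ck χ u).mul_mem hpf hf', ha'⟩, hv2⟩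

end Pool.Agent.KleinB
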