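import Pool.Agent.Lib.MP_3c9215_al.B.Spec

/-!
# MP_3c9215_al, part B: rigidity of words (`S_SyRig`)
-/

set_option autoImplicit false

namespace Pool.Agent.KleinB

open Pool.Agent.Klein (D sqr comp)

section
variable {G : Type} [Group G] {χ : G →* C2}

lemma syrig_wd_append (l₁ l₂ : List (G × G)) : wd (l₁ ++ l₂) = wd l₁ * wd l₂ := by
  simp [wd]

lemma syrig_wd'_append (l₁ l₂ : List (G × G)) : wd' (l₁ ++ l₂) = wd' l₁ * wd' l₂ := by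
  simp [wd']

lemma syrig_wd_cons (p : G × G) (l : List (G × G)) : wd (p :: l) = p.1 * p.2 * wd l := by
  simp [wd]

lemma syrig_wd'_cons (p : G × G) (l : List (G × G)) : wd' (p :: l) = p.1 * p.2⁻¹ * wd' l := by
  simp [wd']

lemma syrig_chi {u c : G} : ∀ (l : List (G × G)), Vld χ u c l → χ (wd l) = 1 ∧ χ (wd' l) = 1 := by
  intro l
  induction l with
  | nil => intro _; simp [wd, wd']
  | cons p l ih =>
    intro hv
    obtain ⟨h1, h2⟩ := ih (fun q hq => hv q (List.mem_cons_of_mem _ hq))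
    obtain ⟨h3, h4⟩ := hv p List.mem_cons_self
    rw [syrig_wd_cons, syrig_wd'_cons]
    exact ⟨chi_mul_one (chi_mul_one h3.1 h4.1) h1,
      chi_mul_one (chi_mul_one h3.1 (chi_inv_one h4.1)) h2⟩

lemma syrig_iff {a b a' b' : G} (h1 : IsConj a a') (h2 : IsConj b b') : IsConj a b ↔ IsConj a' b' :=
  ⟨fun h => (h1.symm.trans h).trans h2, fun h => (h1.trans h).trans h2.symm⟩

/-- the symmetry of a word as a statement about `U f`, `U' f` -/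
lemma syrig_key1 {c f a : G} (l₁ l₂ : List (G × G)) (hc : IsP χ c) (hf : Iv c f) :
    Sy c (l₁ ++ (f, a) :: l₂) ↔
      IsConj ((a * wd l₂ * c * wd l₁) * f) ((c * ((wd' l₁)⁻¹ * c * (wd' l₂)⁻¹ * a) * c) * f) := by
  have hci := hc.inv_eq
  have hcc : c * c = 1 := hc.1
  have hf' : c * f * c = f⁻¹ := (iv_def hc).1 hf
  unfold Sy
  rw [syrig_wd_append, syrig_wd_cons, syrig_wd'_append, syrig_wd'_cons]
  dsimp only
  apply syrig_iff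
  · have e1 : c * (wd l₁ * (f * a * wd l₂)) = (c * wd l₁ * f) * (a * wd l₂) := by group
    have e2 : (a * wd l₂ * c * wd l₁) * f = (a * wd l₂) * (c * wd l₁ * f) := by group
    rw [e1, e2]
    exact isConj_mul_comm _ _
  · have e1 : (c * (wd' l₁ * (f * a⁻¹ * wd' l₂)))⁻¹ = ((wd' l₂)⁻¹ * a * f⁻¹) * ((wd' l₁)⁻¹ * c) := by
      calc (c * (wd' l₁ * (f * a⁻¹ * wd' l₂)))⁻¹
          = ((wd' l₂)⁻¹ * a * f⁻¹) * ((wd' l₁)⁻¹ * c⁻¹) := by group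
        _ = _ := by rw [hci]
    have e2 : (c * ((wd' l₁)⁻¹ * c * (wd' l₂)⁻¹ * a) * c) * f =
        c * (((wd' l₁)⁻¹ * c) * ((wd' l₂)⁻¹ * a * f⁻¹)) * c⁻¹ := by
      rw [← hf', hci]
      calc c * ((wd' l₁)⁻¹ * c * (wd' l₂)⁻¹ * a) * c * f
          = c * ((wd' l₁)⁻¹ * c * (wd' l₂)⁻¹ * a) * c * f * (c * c) := by rw [hcc, mul_one]
        _ = _ := by group
    rw [e1, e2]
    exact (isConj_mul_comm _ _).trans (isConj_conj c _)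

lemma syrig_key2 {c f a : G} (l₁ l₂ : List (G × G)) (hc : IsP χ c) :
    Sy c (l₁ ++ (f, a) :: l₂) ↔
      IsConj ((wd l₂ * c * wd l₁ * f) * a) ((f⁻¹ * (wd' l₁)⁻¹ * c * (wd' l₂)⁻¹) * a) := by
  have hci := hc.inv_eq
  unfold Sy
  rw [syrig_wd_append, syrig_wd_cons, syrig_wd'_append, syrig_wd'_cons]
  dsimp only
  apply syrig_iff
  · have e1 : c * (wd l₁ * (f * a * wd l₂)) = (c * wd l₁ * f * a) * wd l₂ := by group
    have e2 : (wd l₂ * c * wd l₁ * f) * a = wd l₂ * (c * wd l₁ * f * a) := by group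
    rw [e1, e2]
    exact isConj_mul_comm _ _
  · have e1 : (c * (wd' l₁ * (f * a⁻¹ * wd' l₂)))⁻¹ = ((wd' l₂)⁻¹ * a) * (f⁻¹ * (wd' l₁)⁻¹ * c) := by
      calc (c * (wd' l₁ * (f * a⁻¹ * wd' l₂)))⁻¹
          = ((wd' l₂)⁻¹ * a) * (f⁻¹ * (wd' l₁)⁻¹ * c⁻¹) := by group
        _ = _ := by rw [hci]
    have e2 : (f⁻¹ * (wd' l₁)⁻¹ * c * (wd' l₂)⁻¹) * a =
        (f⁻¹ * (wd' l₁)⁻¹ * c) * ((wd' l₂)⁻¹ * a) := by group
    rw [e1, e2]
    exact isConj_mul_comm _ _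

end

theorem tSyRig (hRig : S_Rig) (hCent : S_Cent) : S_SyRig := by
  intro G _ χ h c u l₁ l₂ hc hu hu1 hcu hv1 hv2
  obtain ⟨hC1, hC2, _, _⟩ := hCent G χ h
  obtain ⟨hw1, hw1'⟩ := syrig_chi l₁ hv1
  obtain ⟨hw2, hw2'⟩ := syrig_chi l₂ hv2
  constructor
  · intro f₁ f₂ f a hf₁ hf₂ hf ha hne hS1 hS2
    have hAx : Ax χ u := ⟨hu, hu1, c, hc, Or.inr hcu⟩
    have hIv : ∀ g ∈ Ck χ u, Iv c g := fun g hg => hC2 c u g hc hu hu1 hcu hg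
    rw [syrig_key1 l₁ l₂ hc (hIv _ hf₁)] at hS1
    rw [syrig_key1 l₁ l₂ hc (hIv _ hf₂)] at hS2
    rw [syrig_key1 l₁ l₂ hc (hIv _ hf)]
    have hU : χ (a * wd l₂ * c * wd l₁) ≠ 1 := by
      rw [map_mul, map_mul, map_mul, ha.1, hw2, hw1, one_mul, one_mul, mul_one]
      exact hc.2
    have hU' : χ (c * ((wd' l₁)⁻¹ * c * (wd' l₂)⁻¹ * a) * c) ≠ 1 := by
      simp only [map_mul, map_inv, ha.1, hw1', hw2', inv_one, one_mul, mul_one]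
      rw [c2_sq, one_mul]
      exact hc.2
    exact hRig G χ h u _ _ f₁ f₂ hAx hU hU' hf₁ hf₂ hne hS1 hS2 f hf
  · intro f a₁ a₂ a hf ha₁ ha₂ ha hne hS1 hS2
    have hQm : a₁⁻¹ * a₂ ∈ Ck χ c := (Ck χ c).mul_mem ((Ck χ c).inv_mem ha₁) ha₂
    have hQ1 : a₁⁻¹ * a₂ ≠ 1 := by
      intro e
      exact hne (inv_mul_eq_one.1 e)
    have hAx : Ax χ (a₁⁻¹ * a₂) := ⟨hQm.1, hQ1, c, hc, Or.inl hQm.2⟩
    have hmem : ∀ n ∈ Ck χ c, n ∈ Ck χ (a₁⁻¹ * a₂) := fun n hn =>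
      ⟨hn.1, Ck_comm h.toBG hc hn hQm⟩
    rw [syrig_key2 l₁ l₂ hc] at hS1 hS2 ⊢
    have hU : χ (wd l₂ * c * wd l₁ * f) ≠ 1 := by
      rw [map_mul, map_mul, map_mul, hf.1, hw2, hw1, one_mul, mul_one, mul_one]
      exact hc.2
    have hU' : χ (f⁻¹ * (wd' l₁)⁻¹ * c * (wd' l₂)⁻¹) ≠ 1 := by
      simp only [map_mul, map_inv, hf.1, hw1', hw2', inv_one, one_mul, mul_one]
      exact hc.2
    exact hRig G χ h _ _ _ a₁ a₂ hAx hU hU' (hmem _ ha₁) (hmem _ ha₂) hne hS1 hS2 a (hmem _ ha)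

end Pool.Agent.KleinB
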