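import Pool.Agent.Lib.MP_3c9215_al.B.Spec

set_option autoImplicit false

/-!
# MP_3c9215_al, part B, module TCommB: the operators `TB x y` commute
-/

namespace Pool.Agent.KleinB

open Pool.Agent.Klein (D sqr comp)

section
variable {G : Type} [Group G] {χ : G →* C2}

lemma tcommb_symm (h : BG χ) {A B : G} (hA : χ A = 1) (hB : χ B = 1) : hs A B = hs B A :=
  hs_symm h (chi_mul_one (chi_inv_one hA) hB)

lemma tcommb_both (hIND : S_IND) (h : BG χ) {x c d X Y : G} (hx : IsP χ x) (hX : χ X = 1)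
    (hY : χ Y = 1) (hc : c * x = x * c) (hd : d * x = x * d) :
    comp x (hs (c * X * c⁻¹) (d * Y * d⁻¹)) = comp x (hs X Y) := by
  have hcX : χ (c * X * c⁻¹) = 1 := by rw [chi_conj]; exact hX
  rw [hIND G χ h x d _ _ hx hcX hY hd, tcommb_symm h hcX hY, hIND G χ h x c _ _ hx hY hX hc,
    tcommb_symm h hY hX]

lemma tcommb_eq (h : BG χ) {x y z f : G} (hx : IsP χ x) (hf : χ f = 1) :
    TB x y (TB x z f) =
      comp x (hs ((z * y)⁻¹ * f * (z * y)) ((z * x * y)⁻¹ * f * (z * x * y))) := by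
  have h1 : χ (z⁻¹ * f * z) = 1 := by rw [chi_conj']; exact hf
  have h2 : χ (x * (z⁻¹ * f * z) * x) = 1 := by
    have := chi_conj (χ := χ) x (z⁻¹ * f * z)
    rw [hx.inv_eq] at this
    rw [this]; exact h1
  have h3 := hs_mul h y⁻¹ y (chi_mul_one (chi_inv_one h1) h2)
  have hxi := hx.inv_eq
  unfold TB
  rw [comp_eq_hs h hx h1, ← h3]
  congr 2
  · group
  · simp only [mul_inv_rev, hxi, mul_assoc]

/-- the case in which `x` inverts `y` and `z` -/
lemma tcommb_inv (hIND : S_IND) (hT : S_TOpsB) (h : BG χ) {x y z f : G} (hx : IsP χ x)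
    (hf : f ∈ Ck χ x) (hy : Iv x y) (hz : Iv x z) :
    TB x y (TB x z f) = TB x z (TB x y f) := by
  have hxx := hx.1
  have hxi := hx.inv_eq
  have ey : x * y * x = y⁻¹ := (iv_def hx).1 hy
  have ez : x * z * x = z⁻¹ := (iv_def hx).1 hz
  have ey' : x * y⁻¹ * x = y := by
    have := (iv_def hx).1 hy.inv
    rwa [inv_inv] at this
  have ez' : x * z⁻¹ * x = z := by
    have := (iv_def hx).1 hz.inv
    rwa [inv_inv] at this
  have ef : x * f * x = f := by rw [← hf.2, mul_assoc, hxx, mul_one]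
  obtain ⟨c, hc, e1⟩ := (hT G χ h x f hx hf).2 (z * y)
  obtain ⟨d, hd, e2⟩ := (hT G χ h x f hx hf).2 (z * x * y)
  rw [tcommb_eq h hx hf.1, tcommb_eq h hx hf.1]
  have k1 : ∀ g : G, χ (g⁻¹ * f * g) = 1 := fun g => by rw [chi_conj']; exact hf.1
  rw [← tcommb_both hIND h hx (k1 (z * y)) (k1 (z * x * y)) hc hd, ← e1, ← e2]
  have e3 : z * y * f * (z * y)⁻¹ = x * ((y * z)⁻¹ * f * (y * z)) * x := by
    calc z * y * f * (z * y)⁻¹ = z * y * f * y⁻¹ * z⁻¹ := by group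
      _ = (x * z⁻¹ * x) * (x * y⁻¹ * x) * (x * f * x) * (x * y * x) * (x * z * x) := by
          rw [ey, ez, ey', ez', ef]
      _ = x * z⁻¹ * (x * x) * y⁻¹ * (x * x) * f * (x * x) * y * (x * x) * z * x := by
          simp only [mul_assoc]
      _ = x * ((y * z)⁻¹ * f * (y * z)) * x := by
          rw [hxx]; simp only [mul_one, mul_inv_rev, mul_assoc]
  have e4 : z * x * y * f * (z * x * y)⁻¹ = x * ((y * x * z)⁻¹ * f * (y * x * z)) * x := by
    calc z * x * y * f * (z * x * y)⁻¹ = z * x * y * f * y⁻¹ * x⁻¹ * z⁻¹ := by group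
      _ = (x * z⁻¹ * x) * x * (x * y⁻¹ * x) * (x * f * x) * (x * y * x) * x * (x * z * x) := by
          rw [ey, ez, ey', ez', ef, hxi]
      _ = x * z⁻¹ * (x * x) * x * y⁻¹ * (x * x) * f * (x * x) * y * (x * x) * x * z * x := by
          simp only [mul_assoc]
      _ = x * ((y * x * z)⁻¹ * f * (y * x * z)) * x := by
          rw [hxx]; simp only [mul_one, mul_inv_rev, mul_assoc, hxi]
  rw [e3, e4]
  have h5 := hs_mul h x x (chi_mul_one (chi_inv_one (k1 (y * z))) (k1 (y * x * z)))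
  rw [h5]
  have h6 := comp_conj_comm h hx (c := x) rfl (hs_chi' (k1 (y * z)) (k1 (y * x * z)))
  rw [hxi] at h6
  exact h6

end

theorem tTCommB (hIND : S_IND) (hTOpsB : S_TOpsB) : S_TCommB := by
  intro G _ χ h x y z f hx hy hz hf
  have key : ∀ y : G, χ y = 1 → ∃ i : G, χ i = 1 ∧ Iv x i ∧
      ∀ g ∈ Ck χ x, TB x y g = TB x i g := by
    intro y hy
    obtain ⟨i, hi, hxi, e⟩ := comp_factor h hx hy
    refine ⟨i, hi, hxi, fun g hg => ?_⟩
    rw [e]
    exact (((hTOpsB G χ h x g hx hg).1 i hi).2.2 _ (comp_mem h hx hy)).1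
  obtain ⟨i, hi, hxi, ei⟩ := key y hy
  obtain ⟨j, hj, hxj, ej⟩ := key z hz
  have m1 : TB x j f ∈ Ck χ x := ((hTOpsB G χ h x f hx hf).1 j hj).1
  have m2 : TB x i f ∈ Ck χ x := ((hTOpsB G χ h x f hx hf).1 i hi).1
  rw [ej f hf, ei f hf, ei _ m1, ej _ m2]
  exact tcommb_inv hIND hTOpsB h hx hf hxi hxj

end Pool.Agent.KleinB
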