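import Pool.Agent.Lib.MP_3c9215_al.B.Spec

set_option autoImplicit false

/-!
# MP_3c9215_al, part B: construction of the four-group (TNorm)
-/

namespace Pool.Agent.KleinB

open Pool.Agent.Klein (D sqr comp)

/-- the restriction of an involutory endomorphism to a stable subgroup -/
private def tnorm_eq {H : Type} [Group H] (S : Subgroup H) (f : H →* H) (hf : ∀ x, f (f x) = x)
    (hS : ∀ x ∈ S, f x ∈ S) : S ≃* S where
  toFun x := ⟨f x.1, hS _ x.2⟩
  invFun x := ⟨f x.1, hS _ x.2⟩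
  left_inv x := Subtype.ext (hf _)
  right_inv x := Subtype.ext (hf _)
  map_mul' x y := Subtype.ext (map_mul f _ _)

/-- conjugation of both components by an involution -/
private def tnorm_c {G : Type} [Group G] (c : G) (hc : c * c = 1) : G × G →* G × G where
  toFun q := (c * q.1 * c, c * q.2 * c)
  map_one' := by
    ext
    · change c * 1 * c = 1
      rw [mul_one, hc]
    · change c * 1 * c = 1
      rw [mul_one, hc]
  map_mul' x y := by
    have h : ∀ g h : G, c * (g * h) * c = c * g * c * (c * h * c) := by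
      intro g h
      calc c * (g * h) * c = c * g * 1 * h * c := by group
        _ = c * g * (c * c) * h * c := by rw [hc]
        _ = c * g * c * (c * h * c) := by group
    ext
    · exact h _ _
    · exact h _ _

/-- the exchange of the two components -/
private def tnorm_s (G : Type) [Group G] : G × G →* G × G where
  toFun q := (q.2, q.1)
  map_one' := rfl
  map_mul' _ _ := rfl

theorem tTNorm (hInvFix : S_InvFix) (hCent : S_Cent) (hGP : S_GP) (hGam1 : S_Gam1)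
    (hGam2 : S_Gam2) : S_TNorm := by
  intro G _ χ h c u a hc hu hcu ha hua
  obtain ⟨C1, C2, C3, -⟩ := hCent G χ h
  have hB : BG χ := h.toBG
  have hu1 : u ≠ 1 := by
    rintro rfl
    exact hua (by group)
  have ha1 : a ≠ 1 := by
    rintro rfl
    exact hua (by group)
  have hG1 := hGam1 G χ h c u hc hu hu1 hcu
  have hG2 : ∀ k, (1, k) ∈ Gam χ u c → k = 1 := fun k => hGam2 G χ h c u a k hc hu hcu ha hua
  have hgen1 : ∀ f ∈ Ck χ u, (f, f) ∈ Gam χ u c := fun f hf =>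
    Subgroup.subset_closure (Or.inl ⟨f, hf, rfl⟩)
  have hgen2 : ∀ a ∈ Ck χ c, (a, a⁻¹) ∈ Gam χ u c := fun a ha =>
    Subgroup.subset_closure (Or.inr ⟨a, ha, rfl⟩)
  have hAx : Ax χ u := ⟨hu, hu1, c, hc, Or.inr hcu⟩
  have hcc : ∀ g : G, c * (c * g * c) * c = g := by
    intro g
    calc c * (c * g * c) * c = (c * c) * g * (c * c) := by group
      _ = g := by rw [hc.1, one_mul, mul_one]
  -- the two automorphisms
  let N := Gam χ u c
  let α : N ≃* N := tnorm_eq (Gam χ u c) (tnorm_c c hc.1)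
    (fun x => Prod.ext (hcc _) (hcc _)) (fun x hx => (hG1 x.1 x.2 hx).2.2)
  let σ : N ≃* N := tnorm_eq (Gam χ u c) (tnorm_s G) (fun x => rfl)
    (fun x hx => (hG1 x.1 x.2 hx).2.1)
  have hα1 : ∀ n : N, (α n).1.1 = c * n.1.1 * c := fun n => rfl
  have hα2 : ∀ n : N, (α n).1.2 = c * n.1.2 * c := fun n => rfl
  have hσ1 : ∀ n : N, (σ n).1.1 = n.1.2 := fun n => rfl
  have hσ2 : ∀ n : N, (σ n).1.2 = n.1.1 := fun n => rfl
  have hext : ∀ m n : N, m.1.1 = n.1.1 → m.1.2 = n.1.2 → m = n := fun m n h1 h2 =>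
    Subtype.ext (Prod.ext h1 h2)
  have hk1 : ∀ n : N, χ n.1.1 = 1 := fun n => (hG1 n.1.1 n.1.2 n.2).1.1
  have hk2 : ∀ n : N, χ n.1.2 = 1 := fun n => (hG1 n.1.1 n.1.2 n.2).1.2.1
  have hodd : ∀ n : N, ∃ k : ℕ, Odd k ∧ n ^ k = 1 := by
    intro n
    obtain ⟨k, hk, hk'⟩ := hB.odd _ (hk1 n)
    obtain ⟨l, hl, hl'⟩ := hB.odd _ (hk2 n)
    refine ⟨k * l, hk.mul hl, hext _ _ ?_ ?_⟩
    · change n.1.1 ^ (k * l) = 1
      rw [pow_mul, hk', one_pow]
    · change n.1.2 ^ (k * l) = 1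
      rw [mul_comm, pow_mul, hl', one_pow]
  have hαα : ∀ n, α (α n) = n := fun n => hext _ _ (hcc _) (hcc _)
  have hσσ : ∀ n, σ (σ n) = n := fun n => rfl
  have hασ : ∀ n, α (σ n) = σ (α n) := fun n => rfl
  have hcomm : ∀ g : G, c * g * c = g → g * c = c * g := by
    intro g hg
    calc g * c = (c * c) * g * c := by rw [hc.1, one_mul]
      _ = c * (c * g * c) := by group
      _ = c * g := by rw [hg]
  -- fixed points of `α`
  have hα : ∀ n : N, α n = n → n.1.1 ∈ Ck χ c ∧ n.1.2 = n.1.1⁻¹ := by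
    intro n hn
    have e1 : c * n.1.1 * c = n.1.1 := by rw [← hα1, hn]
    have e2 : c * n.1.2 * c = n.1.2 := by rw [← hα2, hn]
    have m1 : n.1.1 ∈ Ck χ c := ⟨hk1 n, hcomm _ e1⟩
    have m2 : n.1.2 ∈ Ck χ c := ⟨hk2 n, hcomm _ e2⟩
    refine ⟨m1, ?_⟩
    have h1 := (hG1 n.1.1 n.1.2 n.2).1.2.2
    have h2 : (c * n.1.2)⁻¹ = c * n.1.2⁻¹ := by
      rw [← m2.2, mul_inv_rev, hc.inv_eq]
    rw [h2] at h1
    have h3 := (hGP G χ hB _ _ (chi_mul_ker hc.2 (hk1 n)) h1).2
      (by rw [D_eq hB hc m1, D_eq hB hc (inv_mem m2)])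
    have h4 := mul_left_cancel h3
    rw [h4, inv_inv]
  have h0 : ∀ n, α n = n → σ n = n → n = 1 := by
    intro n hn hn'
    obtain ⟨h1, h2⟩ := hα n hn
    have h3 : n.1.2 = n.1.1 := by rw [← hσ1, hn']
    have h4 : n.1.1 * n.1.1 = 1 := by
      have h5 : n.1.1 = n.1.1⁻¹ := h3.symm.trans h2
      calc n.1.1 * n.1.1 = n.1.1 * n.1.1⁻¹ := by rw [← h5]
        _ = 1 := mul_inv_cancel _
    have h5 := ker_eq_one_of_sq hB (hk1 n) h4
    exact hext _ _ h5 (h3.trans h5)
  let U : N := ⟨(u, u), hgen1 u ⟨hu, rfl⟩⟩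
  let A : N := ⟨(a, a⁻¹), hgen2 a ha⟩
  have hσU : σ U = U := rfl
  have hInvσ : ∀ n : N, σ n = n → α n = n⁻¹ := hInvFix N α σ hodd hαα hασ h0
  -- fixed points of `σ`
  have hσ : ∀ n : N, σ n = n → n.1.1 ∈ Ck χ u ∧ n.1.2 = n.1.1 ∧ Iv c n.1.1 := by
    intro n hn
    have e1 := hInvσ n hn
    have e2 := hInvσ U hσU
    have e3 := hInvσ (n * U) (by rw [map_mul, hn, hσU])
    rw [map_mul, e1, e2, mul_inv_rev] at e3
    have e4 : n * U = U * n := by
      have := congrArg (fun x : N => x⁻¹) e3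
      simp only [mul_inv_rev, inv_inv] at this
      exact this.symm
    have e5 : n.1.1 * u = u * n.1.1 := congrArg (fun x : N => x.1.1) e4
    refine ⟨⟨hk1 n, e5⟩, by rw [← hσ1, hn], ?_⟩
    rw [iv_def hc, ← hα1, e1]
    rfl
  -- fixed points of `α σ`
  have hαs : ∀ n : N, α (σ n) = n → Iv c n.1.1 ∧ n.1.2 = n.1.1⁻¹ := by
    intro n hn
    have h1 := hInvFix N α (σ.trans α) hodd hαα (fun n => by
        change α (α (σ n)) = α (σ (α n))
        rw [← hασ]) (fun n hn hn' => by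
        change α (σ n) = n at hn'
        rw [hασ, hn] at hn'
        exact h0 n hn hn') n hn
    have h2 : c * n.1.1 * c = n.1.1⁻¹ := by
      rw [← hα1, h1]
      rfl
    have h3 : n.1.2 = c * n.1.1 * c := by
      conv_lhs => rw [← hn]
      rfl
    exact ⟨(iv_def hc).2 h2, by rw [h3, h2]⟩
  have key : ∀ f g : N, α f = f → Iv c g.1.1 → (g.1.1 = 1 → g = 1) → f * g = g * f →
      f = 1 ∨ g = 1 := by
    intro f g hf hg hg1 hfg
    obtain ⟨h1, h2⟩ := hα f hf
    have h3 : f.1.1 * g.1.1 = g.1.1 * f.1.1 := congrArg (fun x : N => x.1.1) hfg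
    by_cases hf1 : f.1.1 = 1
    · left
      refine hext _ _ hf1 ?_
      rw [h2, hf1]
      exact inv_one
    · right
      have h4 : g.1.1 ∈ Ck χ c := C1 c f.1.1 hc h1 hf1 ⟨hk1 g, h3.symm⟩
      exact hg1 (iv_comm_one hB (hk1 g) hg h4.2)
  refine ⟨N, inferInstance, α, σ, hodd, hαα, hσσ, hασ, h0, ?_, ?_, ?_, ⟨A, ?_, ?_⟩, ⟨U, ?_, ?_⟩, ?_⟩
  · intro f g hf hg hfg
    obtain ⟨_, h2, h3⟩ := hσ g hg
    exact key f g hf h3 (fun h4 => hext _ _ h4 (h2.trans h4)) hfg
  · intro f g hf hg hfg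
    obtain ⟨h2, h3⟩ := hαs g hg
    refine key f g hf h2 (fun h4 => hext _ _ h4 ?_) hfg
    rw [h3, h4]
    exact inv_one
  · intro f g hf hg hfg
    obtain ⟨h1, h2, h3⟩ := hσ f hf
    obtain ⟨h4, h5⟩ := hαs g hg
    by_cases hf1 : f.1.1 = 1
    · left
      exact hext _ _ hf1 (h2.trans hf1)
    · right
      have h6 : f.1.1 * g.1.1 = g.1.1 * f.1.1 := congrArg (fun x : N => x.1.1) hfg
      have h7 : g.1.1 ∈ Ck χ u := by
        rw [← ((C3 u hAx).2 f.1.1 h1 hf1).2]
        exact ⟨hk1 g, h6.symm⟩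
      have h8 : (1, g.1.1⁻¹ * g.1.1⁻¹) ∈ Gam χ u c := by
        have h9 := (Gam χ u c).mul_mem ((Gam χ u c).inv_mem (hgen1 _ h7)) g.2
        convert h9 using 1
        ext
        · change 1 = g.1.1⁻¹ * g.1.1
          rw [inv_mul_cancel]
        · change g.1.1⁻¹ * g.1.1⁻¹ = g.1.1⁻¹ * g.1.2
          rw [h5]
      have h9 := ker_eq_one_of_sq hB (chi_inv_one (hk1 g)) (hG2 _ h8)
      have h10 : g.1.1 = 1 := inv_eq_one.1 h9
      refine hext _ _ h10 ?_
      rw [h5, h10]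
      exact inv_one
  · intro h1
    exact ha1 (congrArg (fun x : N => x.1.1) h1)
  · have h1 : ∀ g : G, g * c = c * g → c * g * c = g := by
      intro g hg
      rw [← hg, mul_assoc, hc.1, mul_one]
    exact hext _ _ (h1 _ ha.2) (h1 _ (inv_mem ha).2)
  · intro h1
    exact hu1 (congrArg (fun x : N => x.1.1) h1)
  · exact hσU
  · by_contra hcon
    push Not at hcon
    have h1 := hInvFix N (σ.trans α) (MulEquiv.refl N) hodd (fun n => by
        change α (σ (α (σ n))) = n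
        rw [← hασ, hαα, hσσ]) (fun n => rfl) (fun n hn _ => by
        by_contra hn1
        exact hcon n hn1 hn)
    have h2 : ∀ n : N, α (σ n) = n⁻¹ := fun n => h1 n rfl
    have h3 : U * A = A * U := by
      have h4 := h2 (U * A)
      rw [map_mul, map_mul, h2, h2, mul_inv_rev] at h4
      have := congrArg (fun x : N => x⁻¹) h4
      simp only [mul_inv_rev, inv_inv] at this
      exact this.symm
    have h4 : u * a = a * u := congrArg (fun x : N => x.1.1) h3
    apply hua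
    rw [mul_assoc a⁻¹ u a, h4, inv_mul_cancel_left]

end Pool.Agent.KleinB
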