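import Pool.Agent.Lib.MP_3c9215_al.B.Spec

/-!
# MP_3c9215_al, part B: elementary properties of the operators `TB` (`S_TOpsB`)
-/

set_option autoImplicit false

namespace Pool.Agent.KleinB

open Pool.Agent.Klein (D sqr comp)

theorem tTOpsB : S_TOpsB := by
  intro G _ χ h x f hx hf
  have h4 : ∀ k : G, ∃ c : G, c * x = x * c ∧ k * f * k⁻¹ = c * (k⁻¹ * f * k) * c⁻¹ := by
    intro k
    obtain ⟨m, hm, hmm⟩ := pts_conj h hx (hx.conj' k)
    have hm2 : m * m = 1 := hm.1
    have hmi : m⁻¹ = m := hm.inv_eq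
    have hc : (k * m) * x = x * (k * m) := by
      calc (k * m) * x = k * (m * x) * (m * m) := by rw [hm2, mul_one, mul_assoc]
        _ = k * (m * x * m) * m := by group
        _ = k * (k⁻¹ * x * k) * m := by rw [hmm]
        _ = x * (k * m) := by group
    have hcf : (k * m) * f = f * (k * m) := comm_Ck h hx hc hf
    refine ⟨k * m, hc, ?_⟩
    have e1 : (k * m)⁻¹ * f * (k * m) = f := by
      rw [mul_assoc, ← hcf]; group
    have e2 : k = (k * m) * m := by rw [mul_assoc, hm2, mul_one]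
    have e3 : k⁻¹ * f * k = m * f * m := by
      calc k⁻¹ * f * k = ((k * m) * m)⁻¹ * f * ((k * m) * m) := by rw [← e2]
        _ = m⁻¹ * ((k * m)⁻¹ * f * (k * m)) * m := by group
        _ = m * f * m := by rw [e1, hmi]
    calc k * f * k⁻¹ = ((k * m) * m) * f * ((k * m) * m)⁻¹ := by rw [← e2]
      _ = (k * m) * (m * f * m⁻¹) * (k * m)⁻¹ := by group
      _ = (k * m) * (k⁻¹ * f * k) * (k * m)⁻¹ := by rw [e3, hmi]
  refine ⟨?_, h4⟩
  intro y hy
  have hchi : χ (y⁻¹ * f * y) = 1 := by rw [chi_conj']; exact hf.1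
  refine ⟨comp_mem h hx hchi, ?_, ?_⟩
  · obtain ⟨c, hc, e⟩ := h4 y
    unfold TB
    rw [inv_inv, e]
    exact comp_conj_comm h hx hc hchi
  · intro a ha
    have haf : a * f = f * a := Ck_comm h hx ha hf
    constructor
    · unfold TB
      congr 1
      calc (a * y)⁻¹ * f * (a * y) = y⁻¹ * (a⁻¹ * (f * a)) * y := by group
        _ = y⁻¹ * (a⁻¹ * (a * f)) * y := by rw [haf]
        _ = y⁻¹ * f * y := by group
    · unfold TB
      have hai : a⁻¹ * x = x * a⁻¹ := ((Ck χ x).inv_mem ha).2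
      have e : (y * a)⁻¹ * f * (y * a) = a⁻¹ * (y⁻¹ * f * y) * a⁻¹⁻¹ := by group
      rw [e]
      exact comp_conj_comm h hx hai hchi

end Pool.Agent.KleinB
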