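import Pool.Agent.Lib.MP_3c9215_al.B.Signal
import Pool.Agent.Lib.MP_3c9215_al.B.SpecFour

set_option autoImplicit false

/-!
# MP_3c9215_al: commutativity of subgroups without involutions of the centralizer of an involution of `V`
-/

namespace Pool.Agent.KleinB

open Pool.Agent.Klein in
/-- the hypotheses give `WF v b` -/
lemma vb_wf (G : Type) [Group G] (hG : Monoid.IsTorsion G) (V : Subgroup G) (hV : Nat.card V = 4)
    (hc : ¬ IsCyclic V) (hcent : Subgroup.centralizer (V : Set G) = V) (v b : G) (hv : v ∈ V)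
    (hbV : b ∈ V) (hv1 : v ≠ 1) (hb1 : b ≠ 1) (hbv : b ≠ v)
    (hf : ∀ g : G, g * v = v * g → g * b * g⁻¹ ≠ b * v) : WF v b := by
  have hfin : Finite V := Nat.finite_of_card_ne_zero (by omega)
  have hexp : ∀ v ∈ V, v * v = 1 := by
    intro v hv
    have h1 : orderOf (⟨v, hv⟩ : V) ∣ 4 := by
      rw [← hV]
      exact orderOf_dvd_natCard _
    have h2 : orderOf (⟨v, hv⟩ : V) ≠ 4 := by
      intro e
      apply hc
      exact isCyclic_of_orderOf_eq_card (⟨v, hv⟩ : V) (by rw [e, hV])
    have h3 : orderOf (⟨v, hv⟩ : V) ∣ 2 := by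
      have h4 : orderOf (⟨v, hv⟩ : V) ≤ 4 := Nat.le_of_dvd (by norm_num) h1
      generalize orderOf (⟨v, hv⟩ : V) = n at h1 h2 h4
      interval_cases n <;> first | omega | (revert h1 h2; decide)
    have h4 := orderOf_dvd_iff_pow_eq_one.1 h3
    have h5 := congrArg Subtype.val h4
    simpa [pow_two] using h5
  obtain ⟨a, ha1, hav⟩ : ∃ a : V, a ≠ 1 ∧ (a : G) = v :=
    ⟨⟨v, hv⟩, fun e => hv1 (congrArg Subtype.val e), rfl⟩
  obtain ⟨b', hb1, hbb', hba⟩ : ∃ b' : V, b' ≠ 1 ∧ (b' : G) = b ∧ b' ≠ a :=
    ⟨⟨b, hbV⟩, fun e => hb1 (congrArg Subtype.val e), rfl, fun e => hbv (by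
      have := congrArg Subtype.val e
      rw [hav] at this
      exact this)⟩
  rw [← hbb', ← hav] at hf
  rw [← hbb', ← hav]
  clear hbb' hbv hbV
  rename_i bold
  clear bold
  rename' b' => b
  have haa : (a : G) * a = 1 := hexp _ a.2
  have hbb : (b : G) * b = 1 := hexp _ b.2
  have hab1 : (a : G) * b * (a * b) = 1 := hexp _ (V.mul_mem a.2 b.2)
  have hai : (a : G)⁻¹ = a := inv_eq_of_mul_eq_one_left haa
  have hbi : (b : G)⁻¹ = b := inv_eq_of_mul_eq_one_left hbb
  have hab : (a : G) * b = b * a := by
    have h1 : ((a : G) * b)⁻¹ = a * b := inv_eq_of_mul_eq_one_left hab1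
    rw [← h1, mul_inv_rev, hai, hbi]
  have ha1' : (a : G) ≠ 1 := fun e => ha1 (Subtype.ext e)
  have hb1' : (b : G) ≠ 1 := fun e => hb1 (Subtype.ext e)
  have hba' : (a : G) ≠ b := fun e => hba (Subtype.ext e.symm)
  -- `V` is `1, a, b, ab`
  have hall : ∀ v ∈ V, v = 1 ∨ v = (a : G) ∨ v = (b : G) ∨ v = (a : G) * b := by
    classical
    intro v hv
    by_contra hcon
    push Not at hcon
    obtain ⟨c1, c2, c3, c4⟩ := hcon
    have hinj : Function.Injective (![1, a, b, a * b, ⟨v, hv⟩] : Fin 5 → V) := by
      intro i j hij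
      have hij' := congrArg (Subtype.val) hij
      have e1 : (a : G) * b ≠ 1 := by
        intro e
        apply hba'
        calc (a : G) = a * b * (b : G)⁻¹ := by rw [mul_inv_cancel_right]
          _ = (b : G)⁻¹ := by rw [e, one_mul]
          _ = b := hbi
      have e2 : (a : G) * b ≠ a := by
        intro e
        apply hb1'
        simpa using e
      have e3 : (a : G) * b ≠ b := by
        intro e
        apply ha1'
        simpa using e
      fin_cases i <;> fin_cases j <;>
        first
        | rfl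
        | (exfalso; revert hij'; simp only [Fin.zero_eta, Fin.mk_one, Fin.isValue,
            Matrix.cons_val_zero, Matrix.cons_val_one, Matrix.cons_val, Fin.reduceFinMk]; 
           first
           | exact fun e => ha1' e
           | exact fun e => ha1' e.symm
           | exact fun e => hb1' e
           | exact fun e => hb1' e.symm
           | exact fun e => hba' e
           | exact fun e => hba' e.symm
           | exact fun e => e1 e
           | exact fun e => e1 e.symm
           | exact fun e => e2 e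
           | exact fun e => e2 e.symm
           | exact fun e => e3 e
           | exact fun e => e3 e.symm
           | exact fun e => c1 e
           | exact fun e => c1 e.symm
           | exact fun e => c2 e
           | exact fun e => c2 e.symm
           | exact fun e => c3 e
           | exact fun e => c3 e.symm
           | exact fun e => c4 e
           | exact fun e => c4 e.symm)
    have := Nat.card_le_card_of_injective _ hinj
    rw [hV, Nat.card_eq_fintype_card, Fintype.card_fin] at this
    omega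
  have hcab : ∀ g : G, g * a = a * g → g * b = b * g → g ∈ V := by
    intro g h1 h2
    rw [← hcent, Subgroup.mem_centralizer_iff]
    intro v hv
    rcases hall v hv with e | e | e | e
    · rw [e]; simp
    · rw [e, h1]
    · rw [e, h2]
    · rw [e, mul_assoc, ← h2, ← mul_assoc, ← h1, mul_assoc]
  refine ⟨?_, haa, hbb, hab, ha1', hb1', hba', ?_, ?_⟩
  · intro g
    obtain ⟨n, hn, hn'⟩ := isOfFinOrder_iff_pow_eq_one.1 (hG g)
    exact ⟨n, hn, hn'⟩
  · intro g h1 h2
    exact hall g (hcab g h1 h2)
  · intro g hga e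
    exact hf g hga (by rw [e, hab])

open Pool.Agent.Klein in
theorem vB : S_VB := by
  intro G _ hG V hV hc hcent v hv b hb hv1 hb1 hbv hf K hK hKv m hm n hn
  have u := vb_wf G hG V hV hc hcent v b hv hb hv1 hb1 hbv hf
  have hodd : ∀ k ∈ K, OddO k := by
    intro k hk
    obtain ⟨n, hn1, hn⟩ := u.per k
    have hpos : 0 < orderOf k := orderOf_pos_iff.mpr (isOfFinOrder_iff_pow_eq_one.mpr ⟨n, hn1, hn⟩)
    refine ⟨orderOf k, ?_, pow_orderOf_eq_one k⟩
    by_contra hno
    rw [Nat.not_odd_iff_even] at hno
    obtain ⟨m, hm⟩ := hno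
    have h1 : k ^ m * k ^ m = 1 := by rw [← pow_add, ← hm, pow_orderOf_eq_one]
    have h2 := hK _ (K.pow_mem hk m) h1
    have h3 := Nat.le_of_dvd (by omega) (orderOf_dvd_of_pow_eq_one h2)
    omega
  exact u.comm (hodd m hm) (hodd n hn) (hKv m hm) (hKv n hn)

end Pool.Agent.KleinB
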