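import Pool.Agent.Lib.MP_3c9215_al.B.GP
import Pool.Agent.Lib.MP_3c9215_al.B.GPp
import Pool.Agent.Lib.MP_3c9215_al.B.COR
import Pool.Agent.Lib.MP_3c9215_al.B.L1
import Pool.Agent.Lib.MP_3c9215_al.B.IND
import Pool.Agent.Lib.MP_3c9215_al.B.TOpsB
import Pool.Agent.Lib.MP_3c9215_al.B.TCommB
import Pool.Agent.Lib.MP_3c9215_al.B.SepB
import Pool.Agent.Lib.MP_3c9215_al.B.StrongB
import Pool.Agent.Lib.MP_3c9215_al.B.JIAbB
import Pool.Agent.Lib.MP_3c9215_al.B.NDB
import Pool.Agent.Lib.MP_3c9215_al.B.JIExB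
import Pool.Agent.Lib.MP_3c9215_al.B.Cent
import Pool.Agent.Lib.MP_3c9215_al.B.LineU
import Pool.Agent.Lib.MP_3c9215_al.B.Coll
import Pool.Agent.Lib.MP_3c9215_al.B.EqE
import Pool.Agent.Lib.MP_3c9215_al.B.StepA
import Pool.Agent.Lib.MP_3c9215_al.B.Bis
import Pool.Agent.Lib.MP_3c9215_al.B.StepB1
import Pool.Agent.Lib.MP_3c9215_al.B.StepB2
import Pool.Agent.Lib.MP_3c9215_al.B.Rig
import Pool.Agent.Lib.MP_3c9215_al.B.SyRig
import Pool.Agent.Lib.MP_3c9215_al.B.SyDeg
import Pool.Agent.Lib.MP_3c9215_al.B.Sym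
import Pool.Agent.Lib.MP_3c9215_al.B.Gam1
import Pool.Agent.Lib.MP_3c9215_al.B.Gam2
import Pool.Agent.Lib.MP_3c9215_al.B.InvFix
import Pool.Agent.Lib.MP_3c9215_al.B.TNorm
import Pool.Agent.Lib.MP_3c9215_al.B.End
import Pool.Agent.Lib.MP_3c9215_al.B.LFB
import Pool.Agent.Lib.MP_3c9215_al.B.FourGeo
import Pool.Agent.Lib.MP_3c9215_al.B.FourB
import Pool.Agent.Lib.MP_3c9215_al.B.SemiB
import Pool.Agent.Lib.MP_3c9215_al.B.VB
import Pool.Agent.Lib.MP_3c9215_al.B.Signal

set_option autoImplicit false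

/-!
# MP_3c9215_al, part B: assembly
-/

namespace Pool.Agent.KleinB

/-- local finiteness from `BG` -/
theorem lfB_all : ∀ (G : Type) [Group G] (χ : G →* C2), BG χ → ∀ H : Subgroup G, H.FG → Finite H := by
  have hGP := tGP
  have hGPp := tGPp hGP
  have hCOR := tCOR hGPp
  have hL1 := tL1 hGP
  have hIND := tIND hGPp
  have hTOps := tTOpsB
  have hTComm := tTCommB hIND hTOps
  have hStrong := tStrongB hTOps hTComm tSepB
  have hNDB := tNDB tJIAbB hStrong
  have hCent := tCent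
  have hLineU := tLineU hCent
  have hColl := tColl hL1 hCOR
  have hEqE := tEqE hColl hLineU
  have hStepA := tStepA hCent hLineU hCOR
  have hBis := tBis hStepA
  have hStepB1 := tStepB1 hCent hLineU hStepA hEqE hBis hL1
  have hStepB2 := tStepB2 hStepA hStepB1 hColl hCOR hLineU
  have hRig := tRig hGP hCent hStepB1 hStepB2
  have hSyRig := tSyRig hRig hCent
  have hSyDeg := tSyDeg hCent
  have hSym := tSym hSyRig hSyDeg
  have hGam1 := tGam1 hSym hCent
  have hGam2 := tGam2 hGam1 hCent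
  have hTNorm := tTNorm tInvFix hCent hGP hGam1 hGam2
  have hEnd := tEnd hCent
  have hLFB := tLFB tJIExB tJIAbB hNDB hTNorm hEnd
  exact hLFB (tFourB tFourGeo)

/-- local finiteness of a group with all elements of odd order having an involutory automorphism with
commuting fixed points -/
theorem semiB_all (K : Type) [Group K] (θ : K ≃* K) (hodd : ∀ n : K, ∃ k : ℕ, Odd k ∧ n ^ k = 1)
    (hθ : ∀ n, θ (θ n) = n) (hab : ∀ m n, θ m = m → θ n = n → m * n = n * m) :
    ∀ H : Subgroup K, H.FG → Finite H := tSemiB lfB_all K θ hodd hθ hab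

/-- odd order from periodicity and the absence of involutions -/
lemma odd_of_no_inv {K : Type} [Group K] (hK : Monoid.IsTorsion K) (h2 : ∀ g : K, g * g = 1 → g = 1)
    (n : K) : ∃ k : ℕ, Odd k ∧ n ^ k = 1 := by
  refine ⟨orderOf n, ?_, pow_orderOf_eq_one n⟩
  have hpos : 0 < orderOf n := (hK n).orderOf_pos
  by_contra hodd
  rw [Nat.not_odd_iff_even] at hodd
  obtain ⟨r, hr⟩ := hodd
  have h1 : n ^ r * n ^ r = 1 := by rw [← pow_add, ← hr, pow_orderOf_eq_one]
  have h3 := h2 _ h1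
  have h4 : orderOf n ∣ r := orderOf_dvd_of_pow_eq_one h3
  have h5 := Nat.le_of_dvd (by omega) h4
  omega

/-- **Theorem B**, for an automorphism -/
theorem bLF : Klein.S_BLF := by
  intro B _ φ hB h2 hφ hab H hH
  refine semiB_all B φ (odd_of_no_inv hB h2) (fun n => ?_) hab H hH
  have := congrArg (fun ψ : MulAut B => ψ n) hφ
  simpa using this

end Pool.Agent.KleinB
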