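import Pool.Agent.Lib.MP_3c9215_al.Basic

set_option autoImplicit false

/-!
# MP_3c9215_al, part B: involutory automorphisms with abelian centralizer, basic facts

`χ : G →* C2` is a homomorphism to the group of order two all of whose kernel elements have odd order.
Points are the involutions outside the kernel.  `BG χ`: the centralizer of a point in the kernel is
commutative.  `Ck χ x` is the centralizer of `x` in the kernel (for a point `x`, and also for `x` in the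
kernel).  `Iv w n`: `w` inverts `n`.  `hs X Y` is the geometric mean `X (X⁻¹ Y)^(1/2)`.  `D`, `sqr`, `comp`
are those of part 1.
-/

namespace Pool.Agent.KleinB

open Pool.Agent.Klein (D sqr comp sqr_comm sqr_conj sqr_inv sqr_inverted D_sq D_comm D_comm_of_comm
  D_conj D_inv D_comm_of_inverts comp_conj)

/-- the group of order two -/
abbrev C2 := Multiplicative (ZMod 2)

/-- an involution outside the kernel -/
def IsP {G : Type} [Group G] (χ : G →* C2) (x : G) : Prop := x * x = 1 ∧ χ x ≠ 1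

/-- the centralizer of `x` in the kernel -/
def Ck {G : Type} [Group G] (χ : G →* C2) (x : G) : Subgroup G where
  carrier := {n | χ n = 1 ∧ n * x = x * n}
  mul_mem' := by
    rintro m n ⟨h1, h2⟩ ⟨h3, h4⟩
    refine ⟨by simp [h1, h3], ?_⟩
    rw [mul_assoc, h4, ← mul_assoc, h2, mul_assoc]
  one_mem' := by simp
  inv_mem' := by
    rintro m ⟨h1, h2⟩
    refine ⟨by simp [h1], ?_⟩
    have : m⁻¹ * (m * x) * m⁻¹ = m⁻¹ * (x * m) * m⁻¹ := by rw [h2]
    simp only [inv_mul_cancel_left, mul_assoc, mul_inv_cancel, mul_one] at this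
    exact this.symm

/-- `w` inverts `n` -/
def Iv {G : Type} [Group G] (w n : G) : Prop := w * n * w⁻¹ = n⁻¹

/-- the geometric mean `X # Y = X (X⁻¹ Y)^(1/2)` -/
noncomputable def hs {G : Type} [Group G] (X Y : G) : G := X * sqr (X⁻¹ * Y)

/-- the midpoint of two points -/
noncomputable def mid {G : Type} [Group G] (p q : G) : G := p * sqr (p * q)

/-- the kernel consists of elements of odd order, there is a point, and the centralizer of a point in the
kernel is commutative -/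
structure BG {G : Type} [Group G] (χ : G →* C2) : Prop where
  odd : ∀ n : G, χ n = 1 → ∃ k : ℕ, Odd k ∧ n ^ k = 1
  ex : ∃ x : G, x * x = 1 ∧ χ x ≠ 1
  ab : ∀ x m n : G, x * x = 1 → χ x ≠ 1 → χ m = 1 → χ n = 1 → m * x = x * m → n * x = x * n →
    m * n = n * m

local instance : DecidableEq C2 := inferInstanceAs (DecidableEq (ZMod 2))

lemma c2_sq (s : C2) : s * s = 1 := by
  revert s; decide

lemma c2_inv (s : C2) : s⁻¹ = s := by
  revert s; decide

lemma c2_mul_one : ∀ s t : C2, s ≠ 1 → t ≠ 1 → s * t = 1 := by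
  decide

lemma c2_eq : ∀ s t : C2, s ≠ 1 → t ≠ 1 → s = t := by
  decide

lemma c2_pow_odd (s : C2) (k : ℕ) (hk : Odd k) : s ^ k = s := by
  obtain ⟨m, rfl⟩ := hk
  have h2 : s ^ 2 = 1 := by rw [pow_two, c2_sq]
  rw [pow_succ, pow_mul, h2, one_pow, one_mul]

section
variable {G : Type} [Group G] {χ : G →* C2}

lemma mem_Ck {x n : G} : n ∈ Ck χ x ↔ χ n = 1 ∧ n * x = x * n := Iff.rfl

/-! ### the kernel -/

lemma chi_conj (g x : G) : χ (g * x * g⁻¹) = χ x := by
  rw [map_mul, map_mul, map_inv, mul_comm (χ g), mul_inv_cancel_right]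

lemma chi_conj' (g x : G) : χ (g⁻¹ * x * g) = χ x := by
  have := chi_conj (χ := χ) g⁻¹ x
  simpa using this

lemma chi_mul_pts {x y : G} (hx : χ x ≠ 1) (hy : χ y ≠ 1) : χ (x * y) = 1 := by
  rw [map_mul]; exact c2_mul_one _ _ hx hy

lemma chi_mul_ker {x n : G} (hx : χ x ≠ 1) (hn : χ n = 1) : χ (x * n) ≠ 1 := by
  rw [map_mul, hn, mul_one]; exact hx

lemma chi_ker_mul {x n : G} (hx : χ x ≠ 1) (hn : χ n = 1) : χ (n * x) ≠ 1 := by
  rw [map_mul, hn, one_mul]; exact hx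

lemma chi_mul_one {m n : G} (hm : χ m = 1) (hn : χ n = 1) : χ (m * n) = 1 := by
  rw [map_mul, hn, mul_one]; exact hm

lemma chi_inv_one {m : G} (hm : χ m = 1) : χ m⁻¹ = 1 := by
  rw [map_inv, hm, inv_one]

lemma chi_inv_ne {m : G} (hm : χ m ≠ 1) : χ m⁻¹ ≠ 1 := by
  rw [map_inv]; simp [hm]

lemma ker_orderOf_odd (h : BG χ) {n : G} (hn : χ n = 1) : Odd (orderOf n) := by
  obtain ⟨k, hk, hk2⟩ := h.odd n hn
  have := orderOf_dvd_of_pow_eq_one hk2
  exact Odd.of_dvd_nat hk this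

lemma ker_eq_one_of_sq (h : BG χ) {n : G} (hn : χ n = 1) (h2 : n * n = 1) : n = 1 := by
  obtain ⟨k, ⟨m, rfl⟩, hk2⟩ := h.odd n hn
  rw [pow_succ, pow_mul, pow_two, h2, one_pow, one_mul] at hk2
  exact hk2

lemma sqr_chi {n : G} (hn : χ n = 1) : χ (sqr n) = 1 := by
  simp [sqr, hn]

lemma sqr_sq (h : BG χ) {n : G} (hn : χ n = 1) : sqr n * sqr n = n := by
  obtain ⟨m, hm⟩ := ker_orderOf_odd h hn
  have e : (orderOf n + 1) / 2 = m + 1 := by omega
  rw [sqr, e, ← pow_add]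
  have : m + 1 + (m + 1) = orderOf n + 1 := by omega
  rw [this, pow_succ, pow_orderOf_eq_one, one_mul]

lemma sqr_self (h : BG χ) {u : G} (hu : χ u = 1) : sqr (u * u) = u := by
  obtain ⟨m, hm⟩ := ker_orderOf_odd h hu
  have hodd : Odd (orderOf u) := ⟨m, hm⟩
  have e1 : orderOf (u * u) = orderOf u := by
    rw [← pow_two]
    exact (Nat.coprime_two_right.mpr hodd).orderOf_pow
  rw [sqr, e1, ← pow_two, ← pow_mul]
  have : 2 * ((orderOf u + 1) / 2) = orderOf u + 1 := by omega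
  rw [this, pow_succ, pow_orderOf_eq_one, one_mul]

lemma ker_sq_inj (h : BG χ) {u v : G} (hu : χ u = 1) (hv : χ v = 1) (e : u * u = v * v) : u = v := by
  rw [← sqr_self h hu, e, sqr_self h hv]

/-- `g` commutes with `u` as soon as it commutes with `u * u` -/
lemma comm_of_comm_sq (h : BG χ) {u g : G} (hu : χ u = 1) (hg : g * (u * u) = (u * u) * g) :
    g * u = u * g := by
  have h1 : sqr (u * u) * g = g * sqr (u * u) := sqr_comm hg.symm
  rw [sqr_self h hu] at h1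
  exact h1.symm

/-! ### `Iv` -/

lemma IsP.inv_eq {x : G} (hx : IsP χ x) : x⁻¹ = x := inv_eq_of_mul_eq_one_left hx.1

lemma IsP.conj {x : G} (hx : IsP χ x) (g : G) : IsP χ (g * x * g⁻¹) := by
  refine ⟨?_, ?_⟩
  · calc g * x * g⁻¹ * (g * x * g⁻¹) = g * (x * x) * g⁻¹ := by group
      _ = 1 := by rw [hx.1]; group
  · rw [chi_conj]; exact hx.2

lemma IsP.conj' {x : G} (hx : IsP χ x) (g : G) : IsP χ (g⁻¹ * x * g) := by
  have := hx.conj g⁻¹
  rwa [inv_inv] at this

lemma iv_def {w n : G} (hw : IsP χ w) : Iv w n ↔ w * n * w = n⁻¹ := by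
  unfold Iv; rw [hw.inv_eq]

lemma iv_iff_sq {w n : G} (hw : IsP χ w) : Iv w n ↔ (w * n) * (w * n) = 1 := by
  rw [iv_def hw]
  constructor
  · intro e
    calc (w * n) * (w * n) = (w * n * w) * n := by group
      _ = 1 := by rw [e]; group
  · intro e
    calc w * n * w = ((w * n) * (w * n)) * n⁻¹ := by group
      _ = n⁻¹ := by rw [e, one_mul]

lemma iv_iff_isP {w n : G} (hw : IsP χ w) (hn : χ n = 1) : Iv w n ↔ IsP χ (w * n) := by
  rw [iv_iff_sq hw]
  exact ⟨fun e => ⟨e, chi_mul_ker hw.2 hn⟩, fun e => e.1⟩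

lemma iv_one (w : G) : Iv w 1 := by unfold Iv; group

lemma Iv.inv {w n : G} (h : Iv w n) : Iv w n⁻¹ := by
  unfold Iv at *
  calc w * n⁻¹ * w⁻¹ = (w * n * w⁻¹)⁻¹ := by group
    _ = n⁻¹⁻¹ := by rw [h]

lemma Iv.sqr {w n : G} (h : Iv w n) : Iv w (sqr n) := sqr_inverted h

lemma Iv.of_sq (h : BG χ) {w n : G} (hn : χ n = 1) (hi : Iv w (n * n)) : Iv w n := by
  have := hi.sqr
  rwa [sqr_self h hn] at this

lemma Iv.conj {w n : G} (h : Iv w n) (g : G) : Iv (g * w * g⁻¹) (g * n * g⁻¹) := by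
  unfold Iv at *
  calc g * w * g⁻¹ * (g * n * g⁻¹) * (g * w * g⁻¹)⁻¹ = g * (w * n * w⁻¹) * g⁻¹ := by group
    _ = g * n⁻¹ * g⁻¹ := by rw [h]
    _ = (g * n * g⁻¹)⁻¹ := by group

lemma iv_conj_iff {w n : G} (g : G) : Iv (g * w * g⁻¹) (g * n * g⁻¹) ↔ Iv w n := by
  constructor
  · intro h
    have := h.conj g⁻¹
    have e1 : g⁻¹ * (g * w * g⁻¹) * g⁻¹⁻¹ = w := by group
    have e2 : g⁻¹ * (g * n * g⁻¹) * g⁻¹⁻¹ = n := by group
    rwa [e1, e2] at this
  · exact fun h => h.conj g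

/-- if `w` inverts `n` and `m` commutes with `n`, then `w m` inverts `n` -/
lemma Iv.mul_comm {w n m : G} (h : Iv w n) (hm : m * n = n * m) : Iv (w * m) n := by
  unfold Iv at *
  calc w * m * n * (w * m)⁻¹ = w * (m * n) * m⁻¹ * w⁻¹ := by group
    _ = w * (n * m) * m⁻¹ * w⁻¹ := by rw [hm]
    _ = w * n * w⁻¹ := by group
    _ = n⁻¹ := h

/-- two elements inverting `n`: the product commutes with `n` -/
lemma Iv.mul_iv {w w' n : G} (h : Iv w n) (h' : Iv w' n) : w * w' * n = n * (w * w') := by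
  have e1 : w' * n * w'⁻¹ = n⁻¹ := h'
  have e2 : w * n⁻¹ * w⁻¹ = n := by
    have := h.inv
    unfold Iv at this
    rwa [inv_inv] at this
  calc w * w' * n = w * (w' * n * w'⁻¹) * w' := by group
    _ = w * n⁻¹ * w' := by rw [e1]
    _ = (w * n⁻¹ * w⁻¹) * (w * w') := by group
    _ = n * (w * w') := by rw [e2]

/-- `w` inverts products of commuting elements which it inverts -/
lemma Iv.mul {w m n : G} (hm : Iv w m) (hn : Iv w n) (hc : m * n = n * m) : Iv w (m * n) := by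
  unfold Iv at *
  calc w * (m * n) * w⁻¹ = (w * m * w⁻¹) * (w * n * w⁻¹) := by group
    _ = m⁻¹ * n⁻¹ := by rw [hm, hn]
    _ = (n * m)⁻¹ := by group
    _ = (m * n)⁻¹ := by rw [hc]

lemma iv_self_mul {p q : G} (hp : IsP χ p) (hq : IsP χ q) : Iv p (p * q) := by
  unfold Iv
  rw [mul_inv_rev, hp.inv_eq, hq.inv_eq, ← mul_assoc, hp.1, one_mul]

lemma iv_self_mul' {p q : G} (hp : IsP χ p) (hq : IsP χ q) : Iv q (p * q) := by
  unfold Iv
  rw [mul_inv_rev, hp.inv_eq, hq.inv_eq]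
  simp only [mul_assoc]
  rw [hq.1, mul_one]

lemma iv_comm_one (h : BG χ) {w n : G} (hn : χ n = 1) (hi : Iv w n) (hc : n * w = w * n) : n = 1 := by
  unfold Iv at hi
  rw [← hc] at hi
  have e : n = n⁻¹ := by
    calc n = n * w * w⁻¹ := by group
      _ = n⁻¹ := hi
  apply ker_eq_one_of_sq h hn
  calc n * n = n * n⁻¹ := by rw [← e]
    _ = 1 := by group

/-! ### `D` -/

lemma chi_sq (g : G) : χ (g * g) = 1 := by rw [map_mul, c2_sq]

lemma D_chi (h : BG χ) (g : G) : χ (D g) = χ g := by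
  rw [D, map_pow, c2_pow_odd _ _ (ker_orderOf_odd h (chi_sq g))]

lemma D_isP (h : BG χ) {g : G} (hg : χ g ≠ 1) : IsP χ (D g) :=
  ⟨D_sq g, by rw [D_chi h]; exact hg⟩

/-- uniqueness: a point commuting with `g` is `D g` -/
lemma D_unique (h : BG χ) {g z : G} (hz : IsP χ z) (hzg : z * g = g * z) (hg : χ g ≠ 1) :
    z = D g := by
  have h1 : z * D g = D g * z := D_comm_of_comm hzg
  have h2 : χ (z * D g) = 1 := chi_mul_pts hz.2 (D_isP h hg).2
  have h3 : (z * D g) * (z * D g) = 1 := by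
    calc (z * D g) * (z * D g) = z * (D g * z) * D g := by group
      _ = z * (z * D g) * D g := by rw [h1]
      _ = (z * z) * (D g * D g) := by group
      _ = 1 := by rw [hz.1, D_sq, one_mul]
  have h4 := ker_eq_one_of_sq h h2 h3
  have h5 := D_sq g
  calc z = z * (D g * D g) := by rw [h5, mul_one]
    _ = (z * D g) * D g := by group
    _ = D g := by rw [h4, one_mul]

/-- if `g = z * n` with `z` a point and `n` in the kernel commuting with `z`, then `D g = z` -/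
lemma D_eq (h : BG χ) {z n : G} (hz : IsP χ z) (hn : n ∈ Ck χ z) : D (z * n) = z := by
  symm
  apply D_unique h hz
  · rw [mul_assoc, hn.2]
  · exact chi_mul_ker hz.2 hn.1

lemma D_eq' (h : BG χ) {z n : G} (hz : IsP χ z) (hn : n ∈ Ck χ z) : D (n * z) = z := by
  rw [hn.2]; exact D_eq h hz hn

lemma D_self (h : BG χ) {x : G} (hx : IsP χ x) : D x = x := by
  have := D_eq h hx (one_mem (Ck χ x))
  rwa [mul_one] at this

/-- two commuting points are equal -/
lemma pts_eq_of_comm (h : BG χ) {x y : G} (hx : IsP χ x) (hy : IsP χ y) (hc : x * y = y * x) :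
    x = y := by
  have := D_unique h hx hc hy.2
  rwa [D_self h hy] at this

lemma D_rest (h : BG χ) {g : G} (hg : χ g ≠ 1) : D g * g ∈ Ck χ (D g) := by
  refine ⟨chi_mul_pts (D_isP h hg).2 hg, ?_⟩
  rw [mul_assoc, ← D_comm g]

/-- every `g` outside the kernel is `D g * ε = ε * D g` with `ε ∈ Ck χ (D g)` -/
lemma D_factor (h : BG χ) {g : G} (hg : χ g ≠ 1) : ∃ ε ∈ Ck χ (D g), g = D g * ε ∧ g = ε * D g := by
  refine ⟨D g * g, D_rest h hg, by rw [← mul_assoc, D_sq, one_mul], ?_⟩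
  rw [mul_assoc, ← D_comm, ← mul_assoc, D_sq, one_mul]

/-! ### centralizers of points -/

lemma Ck_comm (h : BG χ) {x m n : G} (hx : IsP χ x) (hm : m ∈ Ck χ x) (hn : n ∈ Ck χ x) :
    m * n = n * m := h.ab x m n hx.1 hx.2 hm.1 hn.1 hm.2 hn.2

lemma Ck_conj {x n : G} (hn : n ∈ Ck χ x) (g : G) : g * n * g⁻¹ ∈ Ck χ (g * x * g⁻¹) := by
  refine ⟨by rw [chi_conj]; exact hn.1, ?_⟩
  calc g * n * g⁻¹ * (g * x * g⁻¹) = g * (n * x) * g⁻¹ := by group
    _ = g * (x * n) * g⁻¹ := by rw [hn.2]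
    _ = g * x * g⁻¹ * (g * n * g⁻¹) := by group

/-- an element commuting with the point `x` commutes with all elements of `Ck χ x` -/
lemma comm_Ck (h : BG χ) {x g n : G} (hx : IsP χ x) (hg : g * x = x * g) (hn : n ∈ Ck χ x) :
    g * n = n * g := by
  by_cases h1 : χ g = 1
  · exact Ck_comm h hx ⟨h1, hg⟩ hn
  · have h2 : g * x ∈ Ck χ x := by
      refine ⟨chi_mul_pts h1 hx.2, ?_⟩
      rw [hg, mul_assoc, hg]
    have h3 := Ck_comm h hx h2 hn
    have e : g = (g * x) * x := by rw [mul_assoc, hx.1, mul_one]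
    calc g * n = (g * x) * (x * n) := by rw [← mul_assoc, mul_assoc g x x, hx.1, mul_one]
      _ = (g * x) * (n * x) := by rw [← hn.2]
      _ = (g * x) * n * x := by group
      _ = n * (g * x) * x := by rw [h3]
      _ = n * (g * x * x) := by group
      _ = n * g := by rw [← e]

/-! ### midpoints -/

lemma mid_isP (h : BG χ) {p q : G} (hp : IsP χ p) (hq : IsP χ q) : IsP χ (mid p q) := by
  have h1 : χ (p * q) = 1 := chi_mul_pts hp.2 hq.2
  exact (iv_iff_isP hp (sqr_chi h1)).1 (iv_self_mul hp hq).sqr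

lemma mid_conj (h : BG χ) {p q : G} (hp : IsP χ p) (hq : IsP χ q) :
    mid p q * p * mid p q = q := by
  have h1 : χ (p * q) = 1 := chi_mul_pts hp.2 hq.2
  have h2 : p * sqr (p * q) * p = (sqr (p * q))⁻¹ := (iv_def hp).1 (iv_self_mul hp hq).sqr
  have h3 := sqr_sq h h1
  unfold mid
  have h4 : sqr (p * q) * p = p * (sqr (p * q))⁻¹ := by
    calc sqr (p * q) * p = (p * p) * (sqr (p * q) * p) := by rw [hp.1, one_mul]
      _ = p * (p * sqr (p * q) * p) := by group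
      _ = p * (sqr (p * q))⁻¹ := by rw [h2]
  calc p * sqr (p * q) * p * (p * sqr (p * q))
      = p * (sqr (p * q) * (p * p) * sqr (p * q)) := by group
    _ = p * (sqr (p * q) * sqr (p * q)) := by rw [hp.1, mul_one]
    _ = p * (p * q) := by rw [h3]
    _ = q := by rw [← mul_assoc, hp.1, one_mul]

/-- all points are conjugate, by a point -/
lemma pts_conj (h : BG χ) {p q : G} (hp : IsP χ p) (hq : IsP χ q) :
    ∃ m, IsP χ m ∧ m * p * m = q := ⟨mid p q, mid_isP h hp hq, mid_conj h hp hq⟩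

/-- all points are conjugate, by an element of the kernel inverted by `p` (and by `q`) -/
lemma pts_conj_ker (h : BG χ) {p q : G} (hp : IsP χ p) (hq : IsP χ q) :
    ∃ n, χ n = 1 ∧ Iv p n ∧ Iv q n ∧ n⁻¹ * p * n = q ∧ p * (n * n) = q := by
  have h1 : χ (p * q) = 1 := chi_mul_pts hp.2 hq.2
  have h2 : p * sqr (p * q) * p = (sqr (p * q))⁻¹ := (iv_def hp).1 (iv_self_mul hp hq).sqr
  have h3 := sqr_sq h h1
  refine ⟨sqr (p * q), sqr_chi h1, (iv_self_mul hp hq).sqr, (iv_self_mul' hp hq).sqr, ?_, ?_⟩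
  · rw [← h2]
    calc p * sqr (p * q) * p * p * sqr (p * q) = p * sqr (p * q) * (p * p) * sqr (p * q) := by group
      _ = p * (sqr (p * q) * sqr (p * q)) := by rw [hp.1]; group
      _ = p * (p * q) := by rw [h3]
      _ = q := by rw [← mul_assoc, hp.1, one_mul]
  · rw [h3, ← mul_assoc, hp.1, one_mul]

/-! ### components -/

lemma comp_spec (h : BG χ) {x g : G} (hx : IsP χ x) (hg : χ g = 1) :
    comp x g ∈ Ck χ x ∧ χ ((comp x g)⁻¹ * g) = 1 ∧ Iv x ((comp x g)⁻¹ * g) := by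
  have hw : χ (x * (g⁻¹ * x * g)) = 1 := chi_mul_pts hx.2 (hx.conj' g).2
  have h1 : x * (x * (g⁻¹ * x * g)) * x⁻¹ = (x * (g⁻¹ * x * g))⁻¹ :=
    iv_self_mul hx (hx.conj' g)
  have h2 := sqr_inverted h1
  have h3 := sqr_sq h hw
  set i := sqr (x * (g⁻¹ * x * g)) with hi
  have hc : comp x g = g * i⁻¹ := rfl
  have e1 : (comp x g)⁻¹ * g = i := by rw [hc]; group
  have hti : χ i = 1 := sqr_chi hw
  refine ⟨⟨?_, ?_⟩, ?_, ?_⟩
  · rw [hc, map_mul, map_inv, hg, hti]; simp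
  · have h4 : i⁻¹ * x * i = g⁻¹ * x * g := by
      have h5 : x * i = i⁻¹ * x := by
        have := congrArg (fun w => w * x) h2
        simpa [mul_assoc] using this
      calc i⁻¹ * x * i = i⁻¹ * (x * i) := by group
        _ = i⁻¹ * (i⁻¹ * x) := by rw [h5]
        _ = (i * i)⁻¹ * x := by group
        _ = (x * (g⁻¹ * x * g))⁻¹ * x := by rw [h3]
        _ = (g⁻¹ * x * g)⁻¹ := by group
        _ = g⁻¹ * x⁻¹ * g := by group
        _ = g⁻¹ * x * g := by rw [hx.inv_eq]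
    rw [hc]
    calc g * i⁻¹ * x = g * (i⁻¹ * x * i) * i⁻¹ := by group
      _ = g * (g⁻¹ * x * g) * i⁻¹ := by rw [h4]
      _ = x * (g * i⁻¹) := by group
  · rw [e1]; exact hti
  · rw [e1]; exact h2

lemma comp_mem (h : BG χ) {x g : G} (hx : IsP χ x) (hg : χ g = 1) : comp x g ∈ Ck χ x :=
  (comp_spec h hx hg).1

/-- uniqueness of the decomposition -/
lemma comp_unique (h : BG χ) {x φ i : G} (hx : IsP χ x) (hφ : φ ∈ Ck χ x) (hi : χ i = 1)
    (hxi : Iv x i) : comp x (φ * i) = φ := by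
  have h1 : x * ((φ * i)⁻¹ * x * (φ * i)) = i * i := by
    have h2 : φ⁻¹ * x * φ = x := by rw [mul_assoc, ← hφ.2]; group
    have h3 : x * i⁻¹ * x⁻¹ = i := by
      have := hxi.inv
      unfold Iv at this
      rwa [inv_inv] at this
    calc x * ((φ * i)⁻¹ * x * (φ * i)) = x * i⁻¹ * (φ⁻¹ * x * φ) * i := by group
      _ = x * i⁻¹ * x * i := by rw [h2]
      _ = x * i⁻¹ * x⁻¹ * i := by rw [hx.inv_eq]
      _ = i * i := by rw [h3]
  rw [comp, h1, sqr_self h hi]
  group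

lemma comp_unique' (h : BG χ) {x φ g : G} (hx : IsP χ x) (hg : χ g = 1) (hφ : φ ∈ Ck χ x)
    (hxi : Iv x (φ⁻¹ * g)) : comp x g = φ := by
  have := comp_unique h hx hφ (i := φ⁻¹ * g) (by rw [map_mul, map_inv, hφ.1, hg]; simp) hxi
  rwa [mul_inv_cancel_left] at this

lemma comp_factor (h : BG χ) {x g : G} (hx : IsP χ x) (hg : χ g = 1) :
    ∃ i, χ i = 1 ∧ Iv x i ∧ g = comp x g * i :=
  ⟨(comp x g)⁻¹ * g, (comp_spec h hx hg).2.1, (comp_spec h hx hg).2.2, by group⟩

lemma comp_of_inverted (h : BG χ) {x i : G} (hx : IsP χ x) (hi : χ i = 1) (hxi : Iv x i) :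
    comp x i = 1 := by
  have := comp_unique h hx (one_mem (Ck χ x)) hi hxi
  rwa [one_mul] at this

lemma iv_of_comp_one (h : BG χ) {x i : G} (hx : IsP χ x) (hi : χ i = 1) (hxi : comp x i = 1) :
    Iv x i := by
  obtain ⟨j, _, hj, e⟩ := comp_factor h hx hi
  rw [hxi, one_mul] at e
  rw [e]; exact hj

lemma comp_of_mem (h : BG χ) {x φ : G} (hx : IsP χ x) (hφ : φ ∈ Ck χ x) : comp x φ = φ := by
  have := comp_unique h hx hφ (i := 1) (by simp) (iv_one x)
  rwa [mul_one] at this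

lemma comp_mul_left (h : BG χ) {x φ g : G} (hx : IsP χ x) (hφ : φ ∈ Ck χ x) (hg : χ g = 1) :
    comp x (φ * g) = φ * comp x g := by
  obtain ⟨i, hi, hxi, e⟩ := comp_factor h hx hg
  have h1 : φ * g = (φ * comp x g) * i := by rw [mul_assoc, ← e]
  rw [h1, comp_unique h hx ((Ck χ x).mul_mem hφ (comp_mem h hx hg)) hi hxi]

/-- conjugation by an element commuting with `x` does not change the component -/
lemma comp_conj_comm (h : BG χ) {x c g : G} (hx : IsP χ x) (hc : c * x = x * c) (hg : χ g = 1) :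
    comp x (c * g * c⁻¹) = comp x g := by
  have h1 : c * x * c⁻¹ = x := by rw [hc]; group
  have := comp_conj c x g
  rw [h1] at this
  rw [this, comm_Ck h hx hc (comp_mem h hx hg)]
  group

/-! ### the geometric mean -/

lemma hs_chi {X Y : G} (hXY : χ (X⁻¹ * Y) = 1) : χ (X⁻¹ * hs X Y) = 1 := by
  unfold hs
  rw [inv_mul_cancel_left]
  exact sqr_chi hXY

lemma hs_chi' {X Y : G} (hX : χ X = 1) (hY : χ Y = 1) : χ (hs X Y) = 1 := by
  unfold hs
  rw [map_mul, hX, one_mul]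
  exact sqr_chi (chi_mul_one (chi_inv_one hX) hY)

lemma hs_spec (h : BG χ) {X Y : G} (hXY : χ (X⁻¹ * Y) = 1) : hs X Y * X⁻¹ * hs X Y = Y := by
  unfold hs
  calc X * sqr (X⁻¹ * Y) * X⁻¹ * (X * sqr (X⁻¹ * Y)) = X * (sqr (X⁻¹ * Y) * sqr (X⁻¹ * Y)) := by
        group
    _ = Y := by rw [sqr_sq h hXY, mul_inv_cancel_left]

lemma hs_unique (h : BG χ) {X Y Z : G} (hZ : χ (X⁻¹ * Z) = 1) (e : Z * X⁻¹ * Z = Y) :
    hs X Y = Z := by
  have h1 : X⁻¹ * Y = (X⁻¹ * Z) * (X⁻¹ * Z) := by rw [← e]; group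
  unfold hs
  rw [h1, sqr_self h hZ, mul_inv_cancel_left]

lemma hs_symm (h : BG χ) {X Y : G} (hXY : χ (X⁻¹ * Y) = 1) : hs X Y = hs Y X := by
  symm
  have h1 := hs_chi hXY
  have h2 := hs_spec h hXY
  apply hs_unique h
  · have e : Y⁻¹ * hs X Y = (X⁻¹ * Y)⁻¹ * (X⁻¹ * hs X Y) := by group
    rw [e]
    exact chi_mul_one (chi_inv_one hXY) h1
  · calc hs X Y * Y⁻¹ * hs X Y = hs X Y * (hs X Y * X⁻¹ * hs X Y)⁻¹ * hs X Y := by rw [h2]
      _ = X := by group

lemma hs_mul (h : BG χ) {X Y : G} (g k : G) (hXY : χ (X⁻¹ * Y) = 1) :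
    hs (g * X * k) (g * Y * k) = g * hs X Y * k := by
  apply hs_unique h
  · have e : (g * X * k)⁻¹ * (g * hs X Y * k) = k⁻¹ * (X⁻¹ * hs X Y) * k := by group
    rw [e, chi_conj']
    exact hs_chi hXY
  · calc g * hs X Y * k * (g * X * k)⁻¹ * (g * hs X Y * k) = g * (hs X Y * X⁻¹ * hs X Y) * k := by
          group
      _ = g * Y * k := by rw [hs_spec h hXY]

lemma hs_inv (h : BG χ) {X Y : G} (hX : χ X = 1) (hY : χ Y = 1) : hs X⁻¹ Y⁻¹ = (hs X Y)⁻¹ := by
  have hXY : χ (X⁻¹ * Y) = 1 := chi_mul_one (chi_inv_one hX) hY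
  apply hs_unique h
  · exact chi_mul_one (by rwa [inv_inv]) (chi_inv_one (hs_chi' hX hY))
  · calc (hs X Y)⁻¹ * X⁻¹⁻¹ * (hs X Y)⁻¹ = (hs X Y * X⁻¹ * hs X Y)⁻¹ := by group
      _ = Y⁻¹ := by rw [hs_spec h hXY]

lemma hs_eq_one (h : BG χ) {X Y : G} (hX : χ X = 1) (hY : χ Y = 1) : hs X Y = 1 ↔ Y = X⁻¹ := by
  constructor
  · intro e
    have := hs_spec h (chi_mul_one (chi_inv_one hX) hY)
    rw [e] at this
    simpa using this.symm
  · intro e
    apply hs_unique h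
    · rw [mul_one]; exact chi_inv_one hX
    · rw [e]; group

/-- `comp x g = g # (x g x)` -/
lemma comp_eq_hs (h : BG χ) {x g : G} (hx : IsP χ x) (hg : χ g = 1) : comp x g = hs g (x * g * x) := by
  symm
  obtain ⟨i, hi, hxi, e⟩ := comp_factor h hx hg
  have hm := comp_mem h hx hg
  have h1 : x * i * x = i⁻¹ := (iv_def hx).1 hxi
  have h2 : x * g * x = comp x g * i⁻¹ := by
    conv_lhs => rw [e]
    calc x * (comp x g * i) * x = (x * comp x g) * i * x := by group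
      _ = comp x g * (x * i * x) := by rw [← hm.2]; group
      _ = comp x g * i⁻¹ := by rw [h1]
  apply hs_unique h
  · exact chi_mul_one (chi_inv_one hg) hm.1
  · rw [h2]
    have e2 : g⁻¹ = i⁻¹ * (comp x g)⁻¹ := by
      conv_lhs => rw [e]
      rw [mul_inv_rev]
    rw [e2]; group

/-- conjugation by a point -/
lemma pconj {z g : G} (hz : IsP χ z) : z * g * z⁻¹ = z * g * z := by rw [hz.inv_eq]

lemma isConj_conj (k g : G) : IsConj g (k * g * k⁻¹) := isConj_iff.2 ⟨k, rfl⟩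

lemma isConj_pconj {z g : G} (hz : IsP χ z) : IsConj g (z * g * z) := by
  rw [← pconj hz]; exact isConj_conj z g

/-- cyclic rotation -/
lemma isConj_mul_comm (a b : G) : IsConj (a * b) (b * a) :=
  isConj_iff.2 ⟨a⁻¹, by group⟩

lemma IsConj.inv' {a b : G} (hab : IsConj a b) : IsConj a⁻¹ b⁻¹ := by
  obtain ⟨c, hc⟩ := isConj_iff.1 hab
  exact isConj_iff.2 ⟨c, by rw [← hc]; group⟩

lemma isConj_chi {a b : G} (hab : IsConj a b) : χ a = χ b := by
  obtain ⟨c, hc⟩ := isConj_iff.1 hab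
  rw [← hc, chi_conj]

/-- an element conjugate to a point is a point -/
lemma isP_of_isConj {a b : G} (ha : IsP χ a) (hab : IsConj a b) : IsP χ b := by
  obtain ⟨c, hc⟩ := isConj_iff.1 hab
  rw [← hc]; exact ha.conj c

end

end Pool.Agent.KleinB
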