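import Pool.Agent.Lib.MP_3c9215_al.B.Spec

/-!
# MP_3c9215_al, part B: conjugate elements outside the kernel are conjugate by a point (`S_GP`)
-/

set_option autoImplicit false

namespace Pool.Agent.KleinB

open Pool.Agent.Klein (D sqr comp D_conj D_comm D_sq)

theorem tGP : S_GP := by
  intro G _ χ h g g' hg hc
  obtain ⟨k, hk⟩ := isConj_iff.1 hc
  have hDg' : k * D g * k⁻¹ = D g' := by rw [D_conj, hk]
  have hg' : χ g' ≠ 1 := by rw [← hk, chi_conj]; exact hg
  have hP : IsP χ (D g) := D_isP h hg
  have hP' : IsP χ (D g') := D_isP h hg'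
  obtain ⟨m, hm, hmm⟩ := pts_conj h hP hP'
  have hm2 : m * m = 1 := hm.1
  have h0 : m * D g' * m = D g := by
    rw [← hmm]
    calc m * (m * D g * m) * m = (m * m) * D g * (m * m) := by group
      _ = D g := by rw [hm2, one_mul, mul_one]
  have h1 : (m * k) * D g = D g * (m * k) := by
    calc m * k * D g = m * (k * D g * k⁻¹) * k := by group
      _ = m * D g' * k := by rw [hDg']
      _ = m * D g' * (m * m) * k := by rw [hm2, mul_one]
      _ = (m * D g' * m) * (m * k) := by group
      _ = D g * (m * k) := by rw [h0]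
  obtain ⟨ε, hε, e1, _⟩ := D_factor h hg
  have h2 : (m * k) * ε = ε * (m * k) := comm_Ck h hP h1 hε
  have h3 : (m * k) * (D g * ε) = (D g * ε) * (m * k) := by
    rw [← mul_assoc, h1, mul_assoc, h2, ← mul_assoc]
  rw [← e1] at h3
  have h4 : m * g * m = g' := by
    calc m * g * m = m * (g * (m * k)) * k⁻¹ := by group
      _ = m * ((m * k) * g) * k⁻¹ := by rw [h3]
      _ = (m * m) * (k * g * k⁻¹) := by group
      _ = g' := by rw [hm2, one_mul, hk]
  refine ⟨⟨m, hm, h4⟩, fun hD => ?_⟩
  have h5 : m * D g = D g * m := by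
    have h6 : m * D g * m = D g := by rw [hmm, hD]
    calc m * D g = m * D g * (m * m) := by rw [hm2, mul_one]
      _ = (m * D g * m) * m := by group
      _ = D g * m := by rw [h6]
  have h6 : m = D g := pts_eq_of_comm h hm hP h5
  rw [← h4, h6, D_comm, mul_assoc, D_sq, mul_one]

end Pool.Agent.KleinB
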