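import Pool.Agent.Lib.MP_3c9215_al.B.Spec

set_option autoImplicit false

/-!
# MP_3c9215_al, part B: existence of a just infinite example (JIExB)
-/

namespace Pool.Agent.KleinB

open Pool.Agent.Klein (D sqr comp)

section
variable {G : Type} [Group G] {χ : G →* C2}

private lemma jiexb_lift (h : BG χ) (K : Subgroup G) [K.Normal] {g : G}
    (h2 : (QuotientGroup.mk' K g) * (QuotientGroup.mk' K g) = 1) :
    QuotientGroup.mk' K (D g) = QuotientGroup.mk' K g := by
  obtain ⟨m, hm⟩ := ker_orderOf_odd h (chi_sq (χ := χ) g)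
  rw [D, map_pow, hm, pow_succ, pow_mul, pow_two, h2, one_pow, one_mul]

private lemma jiexb_comp (h : BG χ) (K : Subgroup G) [K.Normal] {x₀ n : G}
    (hx' : (QuotientGroup.mk' K x₀) * (QuotientGroup.mk' K x₀) = 1)
    (hnx : (QuotientGroup.mk' K n) * (QuotientGroup.mk' K x₀) =
      (QuotientGroup.mk' K x₀) * (QuotientGroup.mk' K n)) :
    QuotientGroup.mk' K (comp (D x₀) n) = QuotientGroup.mk' K n := by
  have ex := jiexb_lift h K hx'
  have hk : QuotientGroup.mk' K (D x₀ * (n⁻¹ * D x₀ * n)) = 1 := by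
    rw [map_mul, map_mul, map_mul, map_inv, ex]
    generalize QuotientGroup.mk' K x₀ = a at hx' hnx
    generalize QuotientGroup.mk' K n = b at hnx
    calc a * (b⁻¹ * a * b) = a * (b⁻¹ * (a * b)) := by group
      _ = a * (b⁻¹ * (b * a)) := by rw [hnx]
      _ = a * a := by group
      _ = 1 := hx'
  rw [comp, map_mul, map_inv, sqr, map_pow, hk, one_pow, inv_one, mul_one]

private lemma jiexb_bg (h : BG χ) (K : Subgroup G) [K.Normal] (hK : K ≤ χ.ker) :
    BG (QuotientGroup.lift K χ (fun _ hx => MonoidHom.mem_ker.1 (hK hx))) := by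
  set χ' := QuotientGroup.lift K χ (fun x hx => MonoidHom.mem_ker.1 (hK hx)) with hχ'
  have hπ : ∀ g, χ' (QuotientGroup.mk' K g) = χ g := fun g => rfl
  have hsurj : Function.Surjective (QuotientGroup.mk' K) := QuotientGroup.mk'_surjective K
  refine ⟨?_, ?_, ?_⟩
  · intro n' hn'
    obtain ⟨n, rfl⟩ := hsurj n'
    rw [hπ] at hn'
    obtain ⟨k, hk, hk2⟩ := h.odd n hn'
    exact ⟨k, hk, by rw [← map_pow, hk2, map_one]⟩
  · obtain ⟨x, hx, hx'⟩ := h.ex
    exact ⟨QuotientGroup.mk' K x, by rw [← map_mul, hx, map_one], by rw [hπ]; exact hx'⟩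
  · intro x' m' n' hx' htx hm' hn' hmx hnx
    obtain ⟨x₀, rfl⟩ := hsurj x'
    obtain ⟨m, rfl⟩ := hsurj m'
    obtain ⟨n, rfl⟩ := hsurj n'
    rw [hπ] at htx hm' hn'
    have hx : IsP χ (D x₀) := D_isP h htx
    rw [← jiexb_comp h K hx' hmx, ← jiexb_comp h K hx' hnx, ← map_mul, ← map_mul,
      Ck_comm h hx (comp_mem h hx hm') (comp_mem h hx hn')]

/-- A finitely generated subgroup inside the union of a chain. -/
private lemma jiexb_chain {c : Set (Subgroup G)} (hne : c.Nonempty) (hc : IsChain (· ≤ ·) c)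
    (T : Finset G) (hT : (T : Set G) ⊆ (sSup c : Subgroup G)) : ∃ L ∈ c, (T : Set G) ⊆ L := by
  classical
  induction T using Finset.induction_on with
  | empty =>
    obtain ⟨L, hL⟩ := hne
    exact ⟨L, hL, by simp⟩
  | insert a T ha ih =>
    obtain ⟨L, hL, hL2⟩ := ih fun x hx => hT (Finset.mem_insert_of_mem hx)
    have ha2 : a ∈ (sSup c : Subgroup G) := hT (Finset.mem_insert_self a T)
    obtain ⟨M, hM, hM2⟩ := (Subgroup.mem_sSup_of_directedOn hne hc.directedOn).1 ha2
    rcases hc.total hL hM with h | h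
    · refine ⟨M, hM, fun x hx => ?_⟩
      rcases Finset.mem_insert.1 hx with rfl | hx
      · exact hM2
      · exact h (hL2 hx)
    · refine ⟨L, hL, fun x hx => ?_⟩
      rcases Finset.mem_insert.1 hx with rfl | hx
      · exact h hM2
      · exact hL2 hx

/-- Step 2: the just infinite quotient of a group with finitely generated infinite kernel. -/
private lemma jiexb_zorn (h : BG χ) (hfg : χ.ker.FG) (hinf : ¬ Finite χ.ker) :
    ∃ (G' : Type) (_ : Group G') (χ' : G' →* C2), BG χ' ∧ JIB χ' := by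
  classical
  let S : Set (Subgroup G) := {K | K.Normal ∧ K ≤ χ.ker ∧ K.relIndex χ.ker = 0}
  have hbot : (⊥ : Subgroup G) ∈ S := by
    refine ⟨inferInstance, bot_le, ?_⟩
    rw [Subgroup.relIndex_bot_left]
    rw [Nat.card_eq_zero]
    exact Or.inr (not_finite_iff_infinite.1 hinf)
  have hFGker : Group.FG χ.ker := (Group.fg_iff_subgroup_fg _).2 hfg
  obtain ⟨K, -, hKmax⟩ := zorn_le_nonempty₀ S (by
    intro c hcS hc K₀ hK₀
    have hne : c.Nonempty := ⟨K₀, hK₀⟩
    have hle : sSup c ≤ χ.ker := sSup_le fun L hL => (hcS hL).2.1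
    have hnorm : (sSup c : Subgroup G).Normal := by
      constructor
      intro n hn g
      obtain ⟨L, hL, hL2⟩ := (Subgroup.mem_sSup_of_directedOn hne hc.directedOn).1 hn
      have := (hcS hL).1
      exact (le_sSup hL) (this.conj_mem n hL2 g)
    refine ⟨sSup c, ⟨hnorm, hle, ?_⟩, fun L hL => le_sSup hL⟩
    by_contra h0
    have hfi : ((sSup c : Subgroup G).subgroupOf χ.ker).FiniteIndex := ⟨h0⟩
    have h1 : Group.FG ((sSup c : Subgroup G).subgroupOf χ.ker) :=
      Subgroup.fg_of_index_ne_zero _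
    have h2 : Group.FG (sSup c : Subgroup G) :=
      Group.fg_of_surjective (f := (Subgroup.subgroupOfEquivOfLe hle).toMonoidHom)
        (Subgroup.subgroupOfEquivOfLe hle).surjective
    obtain ⟨T, hT⟩ := (Group.fg_iff_subgroup_fg _).1 h2
    obtain ⟨L, hL, hL2⟩ := jiexb_chain hne hc T (by rw [← hT]; exact Subgroup.subset_closure)
    have h3 : (sSup c : Subgroup G) ≤ L := by
      rw [← hT]
      exact (Subgroup.closure_le _).2 hL2
    have h4 : (sSup c : Subgroup G) = L := le_antisymm h3 (le_sSup hL)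
    apply h0
    rw [h4]
    exact (hcS hL).2.2) ⊥ hbot
  have hKS : K ∈ S := hKmax.prop
  have hKn : K.Normal := hKS.1
  have hKle : K ≤ χ.ker := hKS.2.1
  let π := QuotientGroup.mk' K
  have hsurj : Function.Surjective π := QuotientGroup.mk'_surjective K
  let χ' : (G ⧸ K) →* C2 := QuotientGroup.lift K χ (fun x hx => MonoidHom.mem_ker.1 (hKle hx))
  have hπ : ∀ g, χ' (π g) = χ g := fun g => rfl
  have hker : χ'.ker = χ.ker.map π := by
    ext z
    constructor
    · intro hz
      obtain ⟨g, rfl⟩ := hsurj z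
      exact ⟨g, by rw [SetLike.mem_coe, MonoidHom.mem_ker, ← hπ]; exact hz, rfl⟩
    · rintro ⟨g, hg, rfl⟩
      rw [MonoidHom.mem_ker, hπ]
      exact hg
  refine ⟨G ⧸ K, inferInstance, χ', jiexb_bg h K hKle, ?_, ?_, ?_⟩
  · -- finitely generated
    rw [hker]
    obtain ⟨T, hT⟩ := hfg
    refine ⟨T.image π, ?_⟩
    rw [Finset.coe_image, ← MonoidHom.map_closure, hT]
  · -- infinite
    intro hfin
    let f : χ.ker →* (G ⧸ K) := π.comp χ.ker.subtype
    have hrange : f.range = χ'.ker := by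
      rw [hker]
      ext z
      constructor
      · rintro ⟨g, rfl⟩
        exact ⟨g.1, g.2, rfl⟩
      · rintro ⟨g, hg, rfl⟩
        exact ⟨⟨g, hg⟩, rfl⟩
    have hfr : Finite f.range := by rw [hrange]; exact hfin
    have h1 : f.ker.FiniteIndex := Subgroup.finiteIndex_ker f
    have h2 : f.ker = K.subgroupOf χ.ker := by
      ext z
      rw [MonoidHom.mem_ker, Subgroup.mem_subgroupOf]
      exact QuotientGroup.eq_one_iff _
    apply h1.index_ne_zero
    rw [h2]
    exact hKS.2.2
  · -- just infinite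
    intro L hLn hLle hLbot h0
    have hcomap : L.comap π ∈ S := by
      refine ⟨hLn.comap π, ?_, ?_⟩
      · intro g hg
        have := hLle (Subgroup.mem_comap.1 hg)
        rw [MonoidHom.mem_ker, hπ] at this
        exact this
      · rw [Subgroup.relIndex_comap, ← hker]
        exact h0
    have hKL : K ≤ L.comap π := by
      intro g hg
      rw [Subgroup.mem_comap]
      have : π g = 1 := (QuotientGroup.eq_one_iff g).2 hg
      rw [this]
      exact one_mem L
    have hle := hKmax.le_of_ge hcomap hKL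
    apply hLbot
    rw [eq_bot_iff]
    intro z hz
    obtain ⟨g, rfl⟩ := hsurj z
    have hg : g ∈ K := hle (Subgroup.mem_comap.2 hz)
    rw [Subgroup.mem_bot]
    exact (QuotientGroup.eq_one_iff g).2 hg

end

theorem tJIExB : S_JIExB := by
  classical
  intro G _ χ h hH
  obtain ⟨H, hHle, ⟨S, hS⟩, hHinf⟩ := hH
  obtain ⟨x, hx, htx⟩ := h.ex
  let T : Finset G := S ∪ {x}
  let G₁ : Subgroup G := Subgroup.closure (T : Set G)
  have hxG : x ∈ G₁ := Subgroup.subset_closure (by simp [T])
  have hHG : H ≤ G₁ := by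
    rw [← hS]
    apply Subgroup.closure_mono
    intro z hz
    simp only [T, Finset.coe_union]
    exact Or.inl hz
  have hfgG : Group.FG G₁ := (Group.fg_iff_subgroup_fg _).2 ⟨T, rfl⟩
  let χ₁ : G₁ →* C2 := χ.comp G₁.subtype
  have hgeo : BG χ₁ := by
    refine ⟨?_, ?_, ?_⟩
    · intro n hn
      obtain ⟨k, hk, hk2⟩ := h.odd n.1 hn
      exact ⟨k, hk, Subtype.ext (by simpa using hk2)⟩
    · exact ⟨⟨x, hxG⟩, Subtype.ext hx, htx⟩
    · intro a m n ha h1 h2 h3 hm hn
      apply Subtype.ext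
      exact h.ab a.1 m.1 n.1 (congrArg Subtype.val ha) h1 h2 h3 (congrArg Subtype.val hm)
        (congrArg Subtype.val hn)
  have hfin : Finite χ₁.range := inferInstance
  have hfi : χ₁.ker.FiniteIndex := Subgroup.finiteIndex_ker χ₁
  have hkfg : χ₁.ker.FG := (Group.fg_iff_subgroup_fg _).1 (Subgroup.fg_of_index_ne_zero _)
  apply jiexb_zorn hgeo hkfg
  intro hkfin
  apply hHinf
  have f : ∀ z : H, (⟨z.1, hHG z.2⟩ : G₁) ∈ χ₁.ker := fun z => hHle z.2
  exact Finite.of_injective (fun z : H => (⟨⟨z.1, hHG z.2⟩, f z⟩ : χ₁.ker)) (by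
    intro a b hab
    apply Subtype.ext
    exact congrArg (fun w : χ₁.ker => w.1.1) hab)

end Pool.Agent.KleinB
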