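import Pool.Agent.Lib.MP_3c9215_al.B.Spec

set_option autoImplicit false

/-!
# MP_3c9215_al, part B: the symmetry theorem
-/

namespace Pool.Agent.KleinB

open Pool.Agent.Klein (D sqr comp)

lemma sym_wd_replicate {G : Type} [Group G] (n : ℕ) (f a : G) :
    wd (List.replicate n (f, a)) = (f * a) ^ n := by
  simp only [wd, List.map_replicate, List.prod_replicate]

lemma sym_wd'_replicate {G : Type} [Group G] (n : ℕ) (f a : G) :
    wd' (List.replicate n (f, a)) = (f * a⁻¹) ^ n := by
  simp only [wd', List.map_replicate, List.prod_replicate]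

/-- the base point -/
lemma sym_base {G : Type} [Group G] {χ : G →* C2} {c u a : G} (hc : IsP χ c) (hcu : Iv c u)
    (ha : a * c = c * a) (n : ℕ) : Sy c (List.replicate n (u, a)) := by
  unfold Sy
  rw [sym_wd_replicate, sym_wd'_replicate]
  have h1 : SemiconjBy c (a * u) (a * u⁻¹) := by
    have h2 : c * u * c = u⁻¹ := (iv_def hc).1 hcu
    change c * (a * u) = a * u⁻¹ * c
    rw [← h2]
    calc c * (a * u) = (c * a) * u := by group
      _ = (a * c) * u := by rw [ha]
      _ = a * c * u * (c * c) := by rw [hc.1]; group
      _ = a * (c * u * c) * c := by group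
  have h3 : c * (a * u) ^ n = (a * u⁻¹) ^ n * c := h1.pow_right n
  have h4 : (c * (u * a⁻¹) ^ n)⁻¹ = c * (a * u) ^ n := by
    rw [h3, mul_inv_rev, hc.inv_eq, ← inv_pow, mul_inv_rev, inv_inv]
  rw [h4]
  refine isConj_iff.2 ⟨a, ?_⟩
  calc a * (c * (u * a) ^ n) * a⁻¹ = (a * c) * (u * a) ^ n * a⁻¹ := by group
    _ = (c * a) * (u * a) ^ n * a⁻¹ := by rw [ha]
    _ = c * (a * (u * a) ^ n * a⁻¹) := by group
    _ = c * (a * (u * a) * a⁻¹) ^ n := by rw [conj_pow]
    _ = c * (a * u) ^ n := by
      have e : a * (u * a) * a⁻¹ = a * u := by group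
      rw [e]

lemma sym_vld_append {G : Type} [Group G] {χ : G →* C2} {u c : G} {l m : List (G × G)}
    (h1 : Vld χ u c l) (h2 : Vld χ u c m) : Vld χ u c (l ++ m) := by
  intro p hp
  rcases List.mem_append.1 hp with hp | hp
  · exact h1 p hp
  · exact h2 p hp

/-- The symmetry theorem. -/
theorem tSym (hSyRig : S_SyRig) (hSyDeg : S_SyDeg) : S_Sym := by
  intro G _ χ hN c u l hc hu hu1 hcu hv
  have huu : u ∈ Ck χ u := ⟨hu, rfl⟩
  obtain ⟨a, haC, ha1⟩ := hN.nt c hc
  have key : ∀ n : ℕ, ∀ l : List (G × G), l.length = n → Vld χ u c l → Sy c l := by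
    intro n
    induction n with
    | zero =>
      intro l hl _
      rw [List.length_eq_zero_iff] at hl
      subst hl
      exact sym_base (u := u) (a := a) hc hcu haC.2 0
    | succ n ih =>
      have claim : ∀ k : ℕ, k ≤ n + 1 → ∀ l₁ : List (G × G), l₁.length = k → Vld χ u c l₁ →
          Sy c (l₁ ++ List.replicate (n + 1 - k) (u, a)) := by
        intro k
        induction k with
        | zero =>
          intro _ l₁ hl _
          rw [List.length_eq_zero_iff] at hl
          subst hl
          exact sym_base hc hcu haC.2 (n + 1)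
        | succ k ihk =>
          intro hk l₁ hl hvl
          rcases List.eq_nil_or_concat l₁ with rfl | ⟨l', ⟨f, b⟩, rfl⟩
          · simp at hl
          rw [List.concat_eq_append] at hl hvl ⊢
          rw [List.length_append, List.length_singleton] at hl
          have hl' : l'.length = k := by omega
          have hvl' : Vld χ u c l' := fun p hp => hvl p (List.mem_append_left _ hp)
          obtain ⟨hf, hb⟩ := hvl (f, b) (List.mem_append_right _ List.mem_cons_self)
          dsimp only at hf hb
          have h1 := ihk (by omega) l' hl' hvl'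
          have e1 : n + 1 - k = (n + 1 - (k + 1)) + 1 := by omega
          rw [e1, List.replicate_succ] at h1
          rw [List.append_assoc, List.singleton_append]
          set R := List.replicate (n + 1 - (k + 1)) (u, a) with hR
          have hRl : R.length = n - k := by
            rw [hR, List.length_replicate]
            omega
          have hvR : Vld χ u c R := by
            intro p hp
            rw [List.eq_of_mem_replicate hp]
            exact ⟨huu, haC⟩
          have hvc : ∀ p : G × G, p.1 ∈ Ck χ u → p.2 ∈ Ck χ c → Vld χ u c (l' ++ p :: R) := by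
            intro p hp1 hp2
            refine sym_vld_append hvl' ?_
            intro q hq
            rcases List.mem_cons.1 hq with hq | hq
            · rw [hq]; exact ⟨hp1, hp2⟩
            · exact hvR q hq
          have hlen : ∀ p : G × G, (l' ++ p :: R).length = n + 1 := by
            intro p
            rw [List.length_append, List.length_cons, hl', hRl]
            omega
          have hmem : ∀ p : G × G, p ∈ l' ++ p :: R := fun p =>
            List.mem_append_right _ List.mem_cons_self
          have h2 : Sy c (l' ++ (1, a) :: R) :=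
            hSyDeg G χ hN c u n hc hu hu1 hcu ih _ (hlen _) (hvc (1, a) (one_mem _) haC)
              ⟨(1, a), hmem _, Or.inl rfl⟩
          have h3 : Sy c (l' ++ (f, 1) :: R) :=
            hSyDeg G χ hN c u n hc hu hu1 hcu ih _ (hlen _) (hvc (f, 1) hf (one_mem _))
              ⟨(f, 1), hmem _, Or.inr rfl⟩
          obtain ⟨hr1, hr2⟩ := hSyRig G χ hN c u l' R hc hu hu1 hcu hvl' hvR
          have h4 : Sy c (l' ++ (f, a) :: R) :=
            hr1 u 1 f a huu (one_mem _) hf haC hu1 h1 h2
          exact hr2 f a 1 b hf haC (one_mem _) hb ha1 h4 h3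
      intro l hl hvl
      have h := claim (n + 1) le_rfl l hl hvl
      rw [Nat.sub_self, List.replicate_zero, List.append_nil] at h
      exact h
  exact key l.length l rfl hv

end Pool.Agent.KleinB
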