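import Pool.Agent.Lib.MP_3c9215_al.U1

set_option autoImplicit false

/-!
# MP_3c9215_al: the centralizer of an involution of a self-centralizing four-group that is contained in no
subgroup of order eight (adapted from `U1.lean`)
-/

namespace Pool.Agent.Klein

/-- `V = {1, a, b, ab}` self-centralizing, `b` and `ab` not conjugate under the centralizer of `a` -/
structure WF {G : Type} [Group G] (a b : G) : Prop where
  per : ∀ g : G, ∃ n : ℕ, 1 ≤ n ∧ g ^ n = 1
  aa : a * a = 1
  bb : b * b = 1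
  ab : a * b = b * a
  a1 : a ≠ 1
  b1 : b ≠ 1
  ne : a ≠ b
  cent : ∀ g : G, g * a = a * g → g * b = b * g → g = 1 ∨ g = a ∨ g = b ∨ g = a * b
  nbc : ∀ g : G, g * a = a * g → g * b * g⁻¹ ≠ a * b

section
variable {G : Type} [Group G]

lemma WU1_inv_comm {g a : G} (h : g * a = a * g) : g⁻¹ * a = a * g⁻¹ := by
  calc g⁻¹ * a = g⁻¹ * (a * g) * g⁻¹ := by group
    _ = g⁻¹ * (g * a) * g⁻¹ := by rw [h]
    _ = a * g⁻¹ := by group

/-- the first claim -/
lemma WU1_odd {a b : G} (u : WF a b) (h : G) (ha : h * a = a * h) : OddO (b * (h⁻¹ * b * h)) := by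
  have binv : b⁻¹ = b := inv_eq_of_mul_eq_one_left u.bb
  set b' := h⁻¹ * b * h with hb'
  have hb'b' : b' * b' = 1 := by
    calc b' * b' = h⁻¹ * (b * b) * h := by rw [hb']; group
      _ = 1 := by rw [u.bb]; group
  have b'inv : b'⁻¹ = b' := inv_eq_of_mul_eq_one_left hb'b'
  have hb'1 : b' ≠ 1 := by
    intro e
    apply u.b1
    calc b = h * b' * h⁻¹ := by rw [hb']; group
      _ = 1 := by rw [e]; group
  have hab' : b' * a = a * b' := by
    have e1 : h⁻¹ * a = a * h⁻¹ := by
      calc h⁻¹ * a = h⁻¹ * (a * h) * h⁻¹ := by group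
        _ = h⁻¹ * (h * a) * h⁻¹ := by rw [ha]
        _ = a * h⁻¹ := by group
    calc b' * a = h⁻¹ * b * (h * a) := by rw [hb']; group
      _ = h⁻¹ * b * (a * h) := by rw [ha]
      _ = h⁻¹ * (b * a) * h := by group
      _ = h⁻¹ * (a * b) * h := by rw [u.ab]
      _ = (h⁻¹ * a) * b * h := by group
      _ = (a * h⁻¹) * b * h := by rw [e1]
      _ = a * b' := by rw [hb']; group
  set g := b * b' with hg
  have hga : g * a = a * g := by
    calc g * a = b * (b' * a) := by rw [hg]; group
      _ = b * (a * b') := by rw [hab']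
      _ = (b * a) * b' := by group
      _ = (a * b) * b' := by rw [u.ab]
      _ = a * g := by rw [hg]; group
  have hbg : b * g * b⁻¹ = g⁻¹ := by
    rw [hg, mul_inv_rev, b'inv, binv, ← mul_assoc, u.bb, one_mul]
  have hb'g : b' * g * b'⁻¹ = g⁻¹ := by
    rw [hg, mul_inv_rev b b', b'inv, binv]
    calc b' * (b * b') * b' = b' * b * (b' * b') := by group
      _ = b' * b := by rw [hb'b', mul_one]
  -- decomposition of the order
  obtain ⟨n, hn1, hn⟩ := u.per g
  have hpos : 0 < orderOf g := orderOf_pos_iff.mpr (isOfFinOrder_iff_pow_eq_one.mpr ⟨n, hn1, hn⟩)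
  obtain ⟨e, m, hm, hem⟩ := Nat.exists_eq_two_pow_mul_odd hpos.ne'
  rcases Nat.eq_zero_or_pos e with he | he
  · subst he
    refine ⟨m, hm, ?_⟩
    have : orderOf g = m := by rw [hem]; simp
    rw [← this, pow_orderOf_eq_one]
  exfalso
  obtain ⟨f, rfl⟩ : ∃ f, e = f + 1 := ⟨e - 1, by omega⟩
  set z := g ^ (2 ^ f * m) with hz
  have hmpos : 0 < m := hm.pos
  have hzz : z * z = 1 := by
    rw [hz, ← pow_add]
    have : 2 ^ f * m + 2 ^ f * m = orderOf g := by rw [hem, pow_succ]; ring
    rw [this, pow_orderOf_eq_one]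
  have hz1 : z ≠ 1 := by
    intro e1
    have := orderOf_dvd_of_pow_eq_one (hz.symm.trans e1)
    have h2 := Nat.le_of_dvd (by positivity) this
    rw [hem, pow_succ] at h2
    have h3 : 0 < 2 ^ f * m := by positivity
    nlinarith
  have zinv : z⁻¹ = z := inv_eq_of_mul_eq_one_left hzz
  have hza : z * a = a * z := U1_comm_pow hga _
  have hzb : z * b = b * z := by
    have := U1_inverts_pow hbg (2 ^ f * m)
    rw [← hz, zinv] at this
    calc z * b = (b * z * b⁻¹) * b := by rw [this]
      _ = b * z := by group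
  have hzb' : z * b' = b' * z := by
    have := U1_inverts_pow hb'g (2 ^ f * m)
    rw [← hz, zinv] at this
    calc z * b' = (b' * z * b'⁻¹) * b' := by rw [this]
      _ = b' * z := by group
  rcases u.cent z hza hzb with h1 | h1 | h1 | h1
  · exact hz1 h1
  · -- z = a
    rcases Nat.eq_zero_or_pos f with hf | hf
    · -- order 2 m
      subst hf
      have hgm : g ^ m = a := by rw [← h1, hz]; simp
      have hg1 : OddO (a * g) := by
        refine ⟨m, hm, ?_⟩
        have hc : Commute a g := hga.symm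
        rw [hc.mul_pow, hgm]
        obtain ⟨q, rfl⟩ := hm
        rw [pow_succ, pow_mul, pow_two, u.aa, one_pow, one_mul, u.aa]
      set r := sqr (a * g) with hr
      have hrr : r * r = a * g := hg1.sqr_sq
      have hbag : b * (a * g) * b⁻¹ = (a * g)⁻¹ := by
        have ainv : a⁻¹ = a := inv_eq_of_mul_eq_one_left u.aa
        calc b * (a * g) * b⁻¹ = (b * a) * g * b⁻¹ := by group
          _ = (a * b) * g * b⁻¹ := by rw [u.ab]
          _ = a * (b * g * b⁻¹) := by group
          _ = a * g⁻¹ := by rw [hbg]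
          _ = (g * a)⁻¹ := by rw [mul_inv_rev g a, ainv]
          _ = (a * g)⁻¹ := by rw [hga]
      have hbr : b * r * b⁻¹ = r⁻¹ := sqr_inverted hbag
      have hra : r * a = a * r := by
        apply sqr_comm
        rw [mul_assoc, hga]
      have hcr : (a * b) * r * (a * b)⁻¹ = r⁻¹ := by
        calc (a * b) * r * (a * b)⁻¹ = a * (b * r * b⁻¹) * a⁻¹ := by group
          _ = a * r⁻¹ * a⁻¹ := by rw [hbr]
          _ = (a * r * a⁻¹)⁻¹ := by group
          _ = (r * a * a⁻¹)⁻¹ := by rw [hra]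
          _ = r⁻¹ := by group
      have h3 := U1_conj hcr
      rw [hrr] at h3
      have h4 : a * b * (a * g) = b' := by
        calc a * b * (a * g) = (a * (b * a)) * g := by group
          _ = (a * (a * b)) * g := by rw [u.ab]
          _ = (a * a) * (b * (b * b')) := by rw [hg]; group
          _ = (a * a) * ((b * b) * b') := by group
          _ = b' := by rw [u.aa, u.bb]; group
      rw [h4] at h3
      apply u.nbc (r * h⁻¹) (by rw [mul_assoc, WU1_inv_comm ha, ← mul_assoc, hra, mul_assoc])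
      calc r * h⁻¹ * b * (r * h⁻¹)⁻¹ = r * b' * r⁻¹ := by rw [hb']; group
        _ = r * (r⁻¹ * (a * b) * r) * r⁻¹ := by rw [h3]
        _ = a * b := by group
    · -- an element of order four
      obtain ⟨f', rfl⟩ : ∃ f', f = f' + 1 := ⟨f - 1, by omega⟩
      set g4 := g ^ (2 ^ f' * m) with hg4
      have h5 : g4 * g4 = a := by
        rw [← h1, hz, hg4, ← pow_add]
        congr 1
        rw [pow_succ]; ring
      have h6 := U1_conj (U1_inverts_pow hbg (2 ^ f' * m))
      rw [← hg4, h5] at h6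
      apply u.nbc g4⁻¹ (WU1_inv_comm (U1_comm_pow hga _))
      rw [inv_inv, h6, u.ab]
  · -- z = b
    have h2 : g = g⁻¹ := by
      have h3 : b * g = g * b := by
        rw [← h1, hz, ← pow_succ, ← pow_succ']
      calc g = g * b * b⁻¹ := by group
        _ = b * g * b⁻¹ := by rw [h3]
        _ = g⁻¹ := hbg
    have h3 : g * g = 1 := by
      calc g * g = g * g⁻¹ := by rw [← h2]
        _ = 1 := by group
    have h4 : g = b := by
      rw [← h1, hz]
      rcases Nat.even_or_odd (2 ^ f * m) with hev | hod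
      · exfalso
        apply hz1
        obtain ⟨q, hq⟩ := hev
        rw [hz, hq, ← two_mul, pow_mul, pow_two, h3, one_pow]
      · obtain ⟨q, hq⟩ := hod
        rw [hq, pow_succ, pow_mul, pow_two, h3, one_pow, one_mul]
    apply hb'1
    have h5 : b * b' = b * 1 := by rw [mul_one]; exact h4
    exact mul_left_cancel h5
  · -- z = a b
    have h2 : b' * b = b * b' := by
      have h3 : (a * b) * b' = b' * (a * b) := by rw [← h1]; exact hzb'
      have h4 : a * (b * b') = a * (b' * b) := by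
        calc a * (b * b') = (a * b) * b' := by group
          _ = b' * (a * b) := h3
          _ = (b' * a) * b := by group
          _ = (a * b') * b := by rw [hab']
          _ = a * (b' * b) := by group
      exact (mul_left_cancel h4).symm
    have h3 : h * b' * h⁻¹ = b := by rw [hb']; group
    rcases u.cent b' hab' h2 with h4 | h4 | h4 | h4
    · exact hb'1 h4
    · apply u.ne
      rw [← h3, h4]
      calc a = a * h * h⁻¹ := by group
        _ = h * a * h⁻¹ := by rw [ha]
    · apply hz1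
      rw [hz, hg, h4, u.bb, one_pow]
    · apply u.nbc h⁻¹ (WU1_inv_comm ha)
      rw [inv_inv, ← h4]

/-- the second claim -/
lemma WU1_dec {a b : G} (u : WF a b) (h : G) (ha : h * a = a * h) : ∃ v r : G,
    (v = 1 ∨ v = a ∨ v = b ∨ v = a * b) ∧ OddO r ∧ r * a = a * r ∧ b * r * b⁻¹ = r⁻¹ ∧
    h = v * r := by
  have hodd := WU1_odd u h ha
  have binv : b⁻¹ = b := inv_eq_of_mul_eq_one_left u.bb
  have e1 : h⁻¹ * a = a * h⁻¹ := by
    calc h⁻¹ * a = h⁻¹ * (a * h) * h⁻¹ := by group
      _ = h⁻¹ * (h * a) * h⁻¹ := by rw [ha]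
      _ = a * h⁻¹ := by group
  have hga : (b * (h⁻¹ * b * h)) * a = a * (b * (h⁻¹ * b * h)) := by
    calc (b * (h⁻¹ * b * h)) * a = b * h⁻¹ * b * (h * a) := by group
      _ = b * h⁻¹ * b * (a * h) := by rw [ha]
      _ = b * h⁻¹ * (b * a) * h := by group
      _ = b * h⁻¹ * (a * b) * h := by rw [u.ab]
      _ = b * (h⁻¹ * a) * b * h := by group
      _ = b * (a * h⁻¹) * b * h := by rw [e1]
      _ = (b * a) * h⁻¹ * b * h := by group
      _ = (a * b) * h⁻¹ * b * h := by rw [u.ab]
      _ = a * (b * (h⁻¹ * b * h)) := by group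
  have hbg : b * (b * (h⁻¹ * b * h)) * b⁻¹ = (b * (h⁻¹ * b * h))⁻¹ := by
    calc b * (b * (h⁻¹ * b * h)) * b⁻¹ = (b * b) * (h⁻¹ * b * h) * b⁻¹ := by group
      _ = h⁻¹ * b * h * b⁻¹ := by rw [u.bb, one_mul]
      _ = h⁻¹ * b⁻¹ * h * b⁻¹ := by rw [binv]
      _ = (b * (h⁻¹ * b * h))⁻¹ := by group
  set g := b * (h⁻¹ * b * h) with hg
  set r := sqr g with hr
  have hrr : r * r = g := hodd.sqr_sq
  have hra : r * a = a * r := sqr_comm hga
  have hbr : b * r * b⁻¹ = r⁻¹ := sqr_inverted hbg
  have h1 := U1_conj hbr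
  rw [hrr] at h1
  have h2 : b * g = h⁻¹ * b * h := by
    calc b * g = (b * b) * (h⁻¹ * b * h) := by rw [hg]; group
      _ = h⁻¹ * b * h := by rw [u.bb, one_mul]
  rw [h2] at h1
  refine ⟨h * r⁻¹, r, ?_, hodd.sqr, hra, hbr, by group⟩
  apply u.cent
  · have e2 : r⁻¹ * a = a * r⁻¹ := by
      calc r⁻¹ * a = r⁻¹ * (a * r) * r⁻¹ := by group
        _ = r⁻¹ * (r * a) * r⁻¹ := by rw [hra]
        _ = a * r⁻¹ := by group
    rw [mul_assoc, e2, ← mul_assoc, ha, mul_assoc]
  · calc h * r⁻¹ * b = h * (r⁻¹ * b * r) * r⁻¹ := by group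
      _ = h * (h⁻¹ * b * h) * r⁻¹ := by rw [h1]
      _ = b * (h * r⁻¹) := by group

/-- the third claim -/
lemma WU1_mul {a b : G} (u : WF a b) (r s : G) (hr : OddO r) (hs : OddO s) (hra : r * a = a * r)
    (hsa : s * a = a * s) (hbr : b * r * b⁻¹ = r⁻¹) (hbs : b * s * b⁻¹ = s⁻¹) :
    OddO (r * s) ∧ b * (r * s) * b⁻¹ = (r * s)⁻¹ ∧ r * s = s * r := by
  have binv : b⁻¹ = b := inv_eq_of_mul_eq_one_left u.bb
  have h1 := hr.sqr_sq
  have h2 := hs.sqr_sq
  have h3 := U1_conj' (sqr_inverted hbr)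
  have h4 := U1_conj (sqr_inverted hbs)
  have h5 : sqr r * a = a * sqr r := sqr_comm hra
  have h6 : sqr s * a = a * sqr s := sqr_comm hsa
  rw [h1] at h3
  rw [h2] at h4
  have h7 : (sqr s * sqr r) * a = a * (sqr s * sqr r) := by
    rw [mul_assoc, h5, ← mul_assoc, h6, mul_assoc]
  have h8 := (WU1_odd u _ h7).conj (sqr r)
  have h9 : sqr r * (b * ((sqr s * sqr r)⁻¹ * b * (sqr s * sqr r))) * (sqr r)⁻¹ = r * s := by
    calc sqr r * (b * ((sqr s * sqr r)⁻¹ * b * (sqr s * sqr r))) * (sqr r)⁻¹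
        = (sqr r * b * (sqr r)⁻¹) * ((sqr s)⁻¹ * b * sqr s) := by group
      _ = (r * b) * (b * s) := by rw [h3, h4]
      _ = r * (b * b) * s := by group
      _ = r * s := by rw [u.bb, mul_one]
  rw [h9] at h8
  have h10 : (r * s) * a = a * (r * s) := by
    rw [mul_assoc, hsa, ← mul_assoc, hra, mul_assoc]
  have key : b * (r * s) * b⁻¹ = (r * s)⁻¹ := by
    obtain ⟨v, t, hv, ht, hta, hbt, he⟩ := WU1_dec u _ h10
    have hbt2 : b * t * b = t⁻¹ := by
      rwa [binv] at hbt
    rcases hv with rfl | rfl | rfl | rfl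
    · rw [he, one_mul]; exact hbt
    · exfalso
      obtain ⟨k, hk, hk2⟩ := h8
      obtain ⟨l, hl, hl2⟩ := ht
      rw [he] at hk2
      apply u.a1
      have hc : Commute v t := hta.symm
      have h11 : (v * t) ^ (k * l) = 1 := by rw [pow_mul, hk2, one_pow]
      rw [hc.mul_pow, mul_comm k l, pow_mul t, hl2, one_pow, mul_one] at h11
      obtain ⟨q, hq⟩ := hl.mul hk
      rw [hq, pow_succ, pow_mul, pow_two, u.aa, one_pow, one_mul] at h11
      exact h11
    · have h11 : (r * s) * (r * s) = 1 := by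
        rw [he]
        calc v * t * (v * t) = (v * t * v) * t := by group
          _ = 1 := by rw [hbt2]; group
      rw [h8.eq_one h11]; group
    · have h12 : (a * b) * t * (a * b) = t⁻¹ := by
        calc (a * b) * t * (a * b) = a * (b * t) * (a * b) := by group
          _ = a * (b * t) * (b * a) := by rw [u.ab]
          _ = a * (b * t * b) * a := by group
          _ = a * t⁻¹ * a := by rw [hbt2]
          _ = (a⁻¹ * t * a⁻¹)⁻¹ := by group
          _ = (a * t * a⁻¹)⁻¹ := by rw [inv_eq_of_mul_eq_one_left u.aa]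
          _ = (t * a * a⁻¹)⁻¹ := by rw [hta]
          _ = t⁻¹ := by group
      have h11 : (r * s) * (r * s) = 1 := by
        rw [he]
        calc a * b * t * (a * b * t) = ((a * b) * t * (a * b)) * t := by group
          _ = 1 := by rw [h12]; group
      rw [h8.eq_one h11]; group
  refine ⟨h8, key, ?_⟩
  have h11 : b * (r * s) * b⁻¹ = (b * r * b⁻¹) * (b * s * b⁻¹) := by group
  rw [key, hbr, hbs] at h11
  have h12 := congrArg (fun w => w⁻¹) h11
  simpa using h12

end


end Pool.Agent.Klein
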